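import Pool.Agent.BWC.Prim
import Pool.Agent.BWC.Grp

/-!
# Type D: completion of the first column, one plane (`ε = -1`, no zero divisors)
-/

namespace BWC

open Matrix
open BW hiding star

section Complete

variable {N : ℕ} {R Λ : Type*} [CommRing R] [IsLocalization.Away (N : ℤ) R] [Ring Λ]
  [Algebra R Λ] [Module.Free R Λ] [Module.Finite R Λ]

/-- an element fixed by the conjugation is in `R` -/
theorem exists_of_conj_eq (hN : N ≠ 0) (Q : QAlg N R Λ) {x : Λ} (h : Q.conj x = x) :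
    ∃ r : R, x = algebraMap R Λ r := by
  have hC := Loc.charZero N R hN
  have hD := Loc.isDomain N R hN
  obtain ⟨f, hf⟩ := Q.one_prim
  have h1 : (2 : R) • x = Q.T x • (1 : Λ) := by
    have h2 := Q.add_conj x
    rw [h, Algebra.algebraMap_eq_smul_one] at h2
    rw [two_smul]
    exact h2
  have h2 : (2 : R) * f x = Q.T x := by
    have := congrArg f h1
    rwa [map_smul, map_smul, hf, smul_eq_mul, smul_eq_mul, mul_one] at this
  refine ⟨f x, smul_right_cancel hN (two_ne_zero (α := R)) ?_⟩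
  rw [h1, ← h2, Algebra.algebraMap_eq_smul_one, mul_smul]

omit [IsLocalization.Away (N : ℤ) R] [Module.Free R Λ] [Module.Finite R Λ] in
theorem n_ne_zero [NoZeroDivisors Λ] (Q : QAlg N R Λ) {x : Λ} (hx : x ≠ 0) : Q.n x ≠ 0 := by
  intro h
  have h1 := Q.mul_conj x
  rw [h, map_zero] at h1
  rcases mul_eq_zero.1 h1 with h2 | h2
  · exact hx h2
  · have h3 := Q.conj_conj x
    rw [h2, Q.conj_zero] at h3
    exact hx h3.symm

/-- proportional vectors: `α0 c = γ0 a`, `α0 ≠ 0`: divide by the greatest common divisor -/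
theorem exists_coprime (hN : N ≠ 0) {α0 γ0 : R} (hα : α0 ≠ 0) :
    ∃ g α γ u w : R, g ≠ 0 ∧ α0 = g * α ∧ γ0 = g * γ ∧ u * α + w * γ = 1 := by
  have hD := Loc.isDomain N R hN
  have hP := Loc.isPrincipalIdealRing N R
  obtain ⟨g, hg⟩ := (IsPrincipalIdealRing.principal (Ideal.span {α0, γ0} : Ideal R)).principal
  have h1 : α0 ∈ Submodule.span R {g} := by
    rw [← hg]; exact Ideal.subset_span (by simp)
  have h2 : γ0 ∈ Submodule.span R {g} := by
    rw [← hg]; exact Ideal.subset_span (by simp)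
  have h3 : g ∈ Ideal.span {α0, γ0} := by
    rw [hg]; exact Submodule.mem_span_singleton_self g
  obtain ⟨α, h1⟩ := Submodule.mem_span_singleton.1 h1
  obtain ⟨γ, h2⟩ := Submodule.mem_span_singleton.1 h2
  obtain ⟨u, w, h3⟩ := Ideal.mem_span_pair.1 h3
  rw [smul_eq_mul] at h1 h2
  have hg0 : g ≠ 0 := by
    rintro rfl
    exact hα (by rw [← h1, mul_zero])
  refine ⟨g, α, γ, u, w, hg0, by rw [← h1, mul_comm], by rw [← h2, mul_comm], ?_⟩
  have h4 : g * (u * α + w * γ) = g * 1 := by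
    rw [mul_one]
    calc g * (u * α + w * γ) = u * (α * g) + w * (γ * g) := by ring
      _ = g := by rw [h1, h2, h3]
  exact mul_left_cancel₀ hg0 h4

variable [StarRing Λ]

/-- one plane: the first column of an isometry is a unit times a unimodular vector over `R` -/
theorem one_col' [NoZeroDivisors Λ] (hN : N ≠ 0) (Q : QAlg N R Λ) (hQ : ∀ x, star x = Q.conj x)
    (g : (Matrix (Unit ⊕ Unit) (Unit ⊕ Unit) Λ)ˣ) (hg : g ∈ UG (-1) Unit Λ) :
    ∃ (α γ u w : R) (q : Λˣ), u * α + w * γ = 1 ∧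
      g.val (Sum.inl ()) (Sum.inl ()) = algebraMap R Λ α * q ∧
      g.val (Sum.inr ()) (Sum.inl ()) = algebraMap R Λ γ * q := by
  have hD := Loc.isDomain N R hN
  have hg1 : g.val = Matrix.fromBlocks g.val.toBlocks₁₁ g.val.toBlocks₁₂ g.val.toBlocks₂₁
    g.val.toBlocks₂₂ := (Matrix.fromBlocks_toBlocks g.val).symm
  obtain ⟨e1, e2, -, -⟩ := (mem_UG_blocks hg1).1 hg
  set a := g.val (Sum.inl ()) (Sum.inl ()) with ha
  set b := g.val (Sum.inl ()) (Sum.inr ()) with hb
  set c := g.val (Sum.inr ()) (Sum.inl ()) with hc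
  set d := g.val (Sum.inr ()) (Sum.inr ()) with hd
  rw [neg_smul, one_smul] at e1 e2
  have e1' : Q.conj a * c = Q.conj c * a := by
    have := congrFun (congrFun e1 ()) ()
    simp only [Matrix.add_apply, Matrix.neg_apply, Matrix.mul_apply, Matrix.conjTranspose_apply,
      Finset.univ_unique, Finset.sum_singleton, Matrix.zero_apply, hQ] at this
    exact sub_eq_zero.1 (by rw [sub_eq_add_neg]; exact this)
  have e2' : Q.conj a * d - Q.conj c * b = 1 := by
    have := congrFun (congrFun e2 ()) ()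
    simp only [Matrix.add_apply, Matrix.neg_apply, Matrix.mul_apply, Matrix.conjTranspose_apply,
      Finset.univ_unique, Finset.sum_singleton, Matrix.one_apply_eq, hQ] at this
    rw [sub_eq_add_neg]
    exact this
  -- a left inverse
  have e3 : Q.conj d * a - Q.conj b * c = 1 := by
    have := congrArg Q.conj e2'
    rwa [Q.conj_sub, Q.conj_mul, Q.conj_mul, Q.conj_conj, Q.conj_conj, Q.conj_one] at this
  have hunit : ∀ (q : Λ) (α γ : R), a = algebraMap R Λ α * q → c = algebraMap R Λ γ * q →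
      IsUnit q := by
    intro q α γ h1 h2
    have h3 : (Q.conj d * algebraMap R Λ α - Q.conj b * algebraMap R Λ γ) * q = 1 := by
      rw [sub_mul, mul_assoc, mul_assoc, ← h1, ← h2]
      exact e3
    set x := Q.conj d * algebraMap R Λ α - Q.conj b * algebraMap R Λ γ with hx
    have h4 : (q * x - 1) * q = 0 := by
      rw [sub_mul, mul_assoc, h3, mul_one, one_mul, sub_self]
    rcases mul_eq_zero.1 h4 with h5 | h5
    · exact ⟨⟨q, x, sub_eq_zero.1 h5, h3⟩, rfl⟩
    · rw [h5, mul_zero] at h3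
      have hs : ∀ y : Λ, y = 0 := fun y => by rw [← mul_one y, ← h3, mul_zero]
      exact ⟨⟨q, 0, by rw [mul_zero]; exact (hs 1).symm, by rw [zero_mul]; exact (hs 1).symm⟩, rfl⟩
  by_cases ha0 : a = 0
  · obtain ⟨q, hq⟩ := hunit c 0 1 (by rw [ha0, map_zero, zero_mul]) (by rw [map_one, one_mul])
    exact ⟨0, 1, 0, 1, q, by ring, by rw [ha0, map_zero, zero_mul], by rw [hq, map_one, one_mul]⟩
  · obtain ⟨r, hr⟩ := exists_of_conj_eq hN Q (x := Q.conj a * c) (by
      rw [Q.conj_mul, Q.conj_conj, e1'])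
    obtain ⟨g0, α, γ, u, w, hg0, h1, h2, h3⟩ := exists_coprime (γ0 := r) hN (n_ne_zero Q ha0)
    have h4 : Q.n a • c = r • a := by
      rw [Algebra.smul_def, ← Q.mul_conj, mul_assoc, hr, Algebra.smul_def, Algebra.commutes]
    have h5 : α • c = γ • a := by
      rw [h1, h2, mul_smul, mul_smul] at h4
      exact smul_right_cancel hN hg0 h4
    have h6 : a = algebraMap R Λ α * (u • a + w • c) := by
      rw [← Algebra.smul_def, smul_add, smul_smul, smul_comm α w c, h5, smul_smul, ← add_smul,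
        mul_comm α u, h3, one_smul]
    have h7 : c = algebraMap R Λ γ * (u • a + w • c) := by
      rw [← Algebra.smul_def, smul_add, smul_comm γ u a, ← h5, smul_smul, smul_smul, ← add_smul,
        mul_comm γ w, h3, one_smul]
    obtain ⟨q, hq⟩ := hunit _ α γ h6 h7
    exact ⟨α, γ, u, w, q, h3, by rw [hq]; exact h6, by rw [hq]; exact h7⟩

theorem one_col [NoZeroDivisors Λ] (hN : N ≠ 0) (Q : QAlg N R Λ) (hQ : ∀ x, star x = Q.conj x)
    (g : (Matrix (Unit ⊕ Unit) (Unit ⊕ Unit) Λ)ˣ) (hg : g ∈ UG (-1) Unit Λ) :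
    ∃ (α γ : R) (q : Λˣ), g.val (Sum.inl ()) (Sum.inl ()) = algebraMap R Λ α * q ∧
      g.val (Sum.inr ()) (Sum.inl ()) = algebraMap R Λ γ * q := by
  obtain ⟨α, γ, u, w, q, -, h1, h2⟩ := one_col' hN Q hQ g hg
  exact ⟨α, γ, q, h1, h2⟩

/-- the blocks of `g J gᴴ = J` -/
theorem lower_rows {n : Type*} [DecidableEq n] [Fintype n] {ε : ℤ} (hε : ε * ε = 1)
    {g : (Matrix (n ⊕ n) (n ⊕ n) Λ)ˣ} {A B C D : Matrix n n Λ}
    (h : g.val = Matrix.fromBlocks A B C D) (hg : g ∈ UG ε n Λ) :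
    C * Dᴴ + ε • (D * Cᴴ) = 0 := by
  have h0 : g.valᴴ * J ε n Λ * g.val = J ε n Λ := hg
  have hJ : J ε n Λ * J ε n Λ = ε • (1 : Matrix (n ⊕ n) (n ⊕ n) Λ) := by
    rw [J, Matrix.fromBlocks_multiply]
    simp only [Matrix.mul_zero, Matrix.zero_mul, zero_add, add_zero, Matrix.one_mul, Matrix.mul_one]
    rw [← Matrix.fromBlocks_one, Matrix.fromBlocks_smul, smul_zero]
  have h1 : g.val * (J ε n Λ * g.valᴴ) = J ε n Λ := by
    have h2 : (ε • (J ε n Λ * g.valᴴ * J ε n Λ)) * g.val = 1 := by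
      rw [smul_mul_assoc, Matrix.mul_assoc, Matrix.mul_assoc, ← Matrix.mul_assoc g.valᴴ, h0, hJ,
        smul_smul, hε, one_smul]
    have h3 : g.val * (ε • (J ε n Λ * g.valᴴ * J ε n Λ)) = 1 := by
      have h4 : (ε • (J ε n Λ * g.valᴴ * J ε n Λ)) = g⁻¹.val := by
        calc _ = (ε • (J ε n Λ * g.valᴴ * J ε n Λ)) * (g.val * g⁻¹.val) := by
              rw [← Units.val_mul, mul_inv_cancel, Units.val_one, Matrix.mul_one]
          _ = _ := by rw [← Matrix.mul_assoc, h2, Matrix.one_mul]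
      rw [h4, ← Units.val_mul, mul_inv_cancel, Units.val_one]
    calc g.val * (J ε n Λ * g.valᴴ) = g.val * (J ε n Λ * g.valᴴ) * (ε • (J ε n Λ * J ε n Λ)) := by
          rw [hJ, smul_smul, hε, one_smul, Matrix.mul_one]
      _ = (g.val * (ε • (J ε n Λ * g.valᴴ * J ε n Λ))) * J ε n Λ := by
          simp only [Matrix.mul_assoc, mul_smul_comm, smul_mul_assoc]
      _ = _ := by rw [h3, Matrix.one_mul]
  rw [h, J, Matrix.fromBlocks_conjTranspose, Matrix.fromBlocks_multiply,
    Matrix.fromBlocks_multiply, Matrix.fromBlocks_inj] at h1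
  obtain ⟨-, -, -, h2⟩ := h1
  simp only [Matrix.zero_mul, Matrix.one_mul, zero_add, add_zero, smul_one_mul',
    Matrix.mul_smul] at h2
  exact h2

omit [StarRing Λ] in
/-- two columns with `c_i conj(d_j) = d_i conj(c_j)` are proportional over `R` -/
theorem proportional [NoZeroDivisors Λ] (hN : N ≠ 0) (Q : QAlg N R Λ) {ι : Type*} (c d : ι → Λ)
    (h : ∀ i j, c i * Q.conj (d j) = d i * Q.conj (c j)) :
    ∃ α γ u w : R, u * α + w * γ = 1 ∧ ∀ j, α • c j = γ • d j := by
  by_cases hd : ∀ i, d i = 0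
  · exact ⟨0, 1, 0, 1, by ring, fun j => by rw [hd j, smul_zero, zero_smul]⟩
  · push Not at hd
    obtain ⟨i, hi⟩ := hd
    obtain ⟨r, hr⟩ := exists_of_conj_eq hN Q (x := c i * Q.conj (d i)) (by
      rw [Q.conj_mul, Q.conj_conj, ← h i i])
    have h1 : Q.conj (c i) * d i = algebraMap R Λ r := by
      have h2 : d i * (Q.conj (c i) * d i) = d i * algebraMap R Λ r := by
        rw [← mul_assoc, ← h i i, hr, Algebra.commutes]
      exact mul_left_cancel₀ hi h2
    obtain ⟨g0, α, γ, u, w, hg0, h3, h4, h5⟩ := exists_coprime (γ0 := r) hN (n_ne_zero Q hi)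
    refine ⟨α, γ, u, w, h5, fun j => smul_right_cancel hN hg0 ?_⟩
    rw [smul_smul, smul_smul, ← h3, ← h4, Algebra.smul_def, Algebra.smul_def, Algebra.commutes,
      ← Q.conj_mul_self, ← mul_assoc, h j i, mul_assoc, h1, Algebra.commutes]

/-- the first column of an isometry of two planes whose lower half is zero is the first column of
an invertible matrix -/
theorem complete [NoZeroDivisors Λ] (hN : N ≠ 0) (Q : QAlg N R Λ) (hQ : ∀ x, star x = Q.conj x)
    (g : (Matrix (Fin 2 ⊕ Fin 2) (Fin 2 ⊕ Fin 2) Λ)ˣ) (hg : g ∈ UG (-1) (Fin 2) Λ)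
    (hc : ∀ j, g.val (Sum.inr j) (Sum.inl 0) = 0) :
    ∃ A : (Matrix (Fin 2) (Fin 2) Λ)ˣ, ∀ j, A.val j 0 = g.val (Sum.inl j) (Sum.inl 0) := by
  have hD := Loc.isDomain N R hN
  have hnt : Nontrivial Λ := Q.inj.nontrivial
  have hg1 : g.val = Matrix.fromBlocks g.val.toBlocks₁₁ g.val.toBlocks₁₂ g.val.toBlocks₂₁
    g.val.toBlocks₂₂ := (Matrix.fromBlocks_toBlocks g.val).symm
  obtain ⟨e1, e2, -, -⟩ := (mem_UG_blocks hg1).1 hg
  have e3 := lower_rows (by norm_num) hg1 hg
  have hC : ∀ j, g.val.toBlocks₂₁ j 0 = 0 := hc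
  have hA : ∀ j, g.val.toBlocks₁₁ j 0 = g.val (Sum.inl j) (Sum.inl 0) := fun j => rfl
  have hi1 : g⁻¹.val = Matrix.fromBlocks g⁻¹.val.toBlocks₁₁ g⁻¹.val.toBlocks₁₂ g⁻¹.val.toBlocks₂₁
    g⁻¹.val.toBlocks₂₂ := (Matrix.fromBlocks_toBlocks g⁻¹.val).symm
  have e4 : g.val.toBlocks₂₁ * g⁻¹.val.toBlocks₁₂ + g.val.toBlocks₂₂ * g⁻¹.val.toBlocks₂₂ = 1 := by
    have h1 : g.val * g⁻¹.val = 1 := by rw [← Units.val_mul, mul_inv_cancel, Units.val_one]
    rw [hg1, hi1, Matrix.fromBlocks_multiply, ← Matrix.fromBlocks_one, Matrix.fromBlocks_inj] at h1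
    exact h1.2.2.2
  simp only [← hA]

  generalize g.val.toBlocks₁₁ = A at *
  generalize g.val.toBlocks₁₂ = B at *
  generalize g.val.toBlocks₂₁ = C at *
  generalize g.val.toBlocks₂₂ = D at *
  generalize g⁻¹.val.toBlocks₁₂ = Y at *
  generalize g⁻¹.val.toBlocks₂₂ = W at *
  rw [neg_smul, one_smul] at e1 e2 e3
  -- the equations
  have f1 : Q.conj (A 0 0) * C 0 1 + Q.conj (A 1 0) * C 1 1 = 0 := by
    have := congrFun (congrFun e1 0) 1
    simp only [Matrix.add_apply, Matrix.neg_apply, Matrix.mul_apply, Matrix.conjTranspose_apply,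
      Fin.sum_univ_two, hC, Q.conj_zero, zero_mul, add_zero, neg_zero, Matrix.zero_apply, hQ] at this
    exact this
  have f2 : Q.conj (A 0 0) * D 0 0 + Q.conj (A 1 0) * D 1 0 = 1 := by
    have := congrFun (congrFun e2 0) 0
    simp only [Matrix.add_apply, Matrix.neg_apply, Matrix.mul_apply, Matrix.conjTranspose_apply,
      Fin.sum_univ_two, hC, Q.conj_zero, zero_mul, add_zero, neg_zero, Matrix.one_apply_eq, hQ]
      at this
    exact this
  have f3 : Q.conj (A 0 0) * D 0 1 + Q.conj (A 1 0) * D 1 1 = 0 := by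
    have := congrFun (congrFun e2 0) 1
    simp only [Matrix.add_apply, Matrix.neg_apply, Matrix.mul_apply, Matrix.conjTranspose_apply,
      Fin.sum_univ_two, hC, Q.conj_zero, zero_mul, add_zero, neg_zero, hQ] at this
    rw [this]
    simp
  have f4 : ∀ i j, C i 1 * Q.conj (D j 1) = D i 1 * Q.conj (C j 1) := by
    intro i j
    have := congrFun (congrFun e3 i) j
    simp only [Matrix.add_apply, Matrix.neg_apply, Matrix.mul_apply, Matrix.conjTranspose_apply,
      Fin.sum_univ_two, hC, Q.conj_zero, zero_mul, mul_zero, zero_add, Matrix.zero_apply, hQ] at this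
    exact sub_eq_zero.1 (by rw [sub_eq_add_neg]; exact this)
  have f5 : ∀ i j, C i 1 * Y 1 j + (D i 0 * W 0 j + D i 1 * W 1 j) =
      (1 : Matrix (Fin 2) (Fin 2) Λ) i j := by
    intro i j
    have := congrFun (congrFun e4 i) j
    simp only [Matrix.add_apply, Matrix.mul_apply, Fin.sum_univ_two, hC, zero_mul, zero_add] at this
    exact this
  obtain ⟨α, γ, u, w, h1, h2⟩ := proportional hN Q (fun i => C i 1) (fun i => D i 1) f4
  have h2 : ∀ j, α • C j 1 = γ • D j 1 := h2
  -- the second column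
  set z : Fin 2 → Λ := fun i => w • C i 1 + u • D i 1 with hz
  have h3 : ∀ i, C i 1 = γ • z i := by
    intro i
    rw [hz, smul_add, smul_comm γ u, ← h2 i, smul_smul, smul_smul, ← add_smul, mul_comm γ w,
      add_comm, h1, one_smul]
  have h4 : ∀ i, D i 1 = α • z i := by
    intro i
    rw [hz, smul_add, smul_comm α w, h2 i, smul_smul, smul_smul, ← add_smul, mul_comm α u,
      add_comm, h1, one_smul]
  have h5 : Q.conj (A 0 0) * z 0 + Q.conj (A 1 0) * z 1 = 0 := by
    simp only [hz, mul_add, mul_smul_comm]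
    calc _ = w • (Q.conj (A 0 0) * C 0 1 + Q.conj (A 1 0) * C 1 1) +
          u • (Q.conj (A 0 0) * D 0 1 + Q.conj (A 1 0) * D 1 1) := by
            rw [smul_add, smul_add]; abel
      _ = 0 := by rw [f1, f3, smul_zero, smul_zero, add_zero]
  set x : Fin 2 → Λ := fun j => γ • Y 1 j + α • W 1 j with hx
  have h6 : ∀ i j, D i 0 * W 0 j + z i * x j = (1 : Matrix (Fin 2) (Fin 2) Λ) i j := by
    intro i j
    rw [← f5 i j, h3 i, h4 i, hx]
    simp only [mul_add, mul_smul_comm, smul_mul_assoc]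
    abel
  -- the first row of the inverse
  have h7 : ∀ j, W 0 j = Q.conj (A j 0) := by
    intro j
    have e5 : (Q.conj (A 0 0) * D 0 0 + Q.conj (A 1 0) * D 1 0) * W 0 j +
        (Q.conj (A 0 0) * z 0 + Q.conj (A 1 0) * z 1) * x j =
        Q.conj (A 0 0) * (1 : Matrix (Fin 2) (Fin 2) Λ) 0 j +
          Q.conj (A 1 0) * (1 : Matrix (Fin 2) (Fin 2) Λ) 1 j := by
      rw [← h6 0 j, ← h6 1 j]
      noncomm_ring
    rw [f2, h5, one_mul, zero_mul, add_zero] at e5
    rw [e5]
    have hj : j = 0 ∨ j = 1 := by omega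
    rcases hj with rfl | rfl
    · rw [Matrix.one_apply_eq, Matrix.one_apply_ne (by decide), mul_one, mul_zero, add_zero]
    · rw [Matrix.one_apply_eq, Matrix.one_apply_ne (by decide), mul_one, mul_zero, zero_add]
  have hz0 : ∃ i, z i ≠ 0 := by
    by_contra hcon
    push Not at hcon
    have k1 := h6 0 0
    have k2 := h6 0 1
    have k3 := h6 1 1
    rw [hcon, zero_mul, add_zero] at k1 k2 k3
    rw [Matrix.one_apply_ne (by decide)] at k2
    rw [Matrix.one_apply_eq] at k1 k3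
    rcases mul_eq_zero.1 k2 with k4 | k4
    · rw [k4, zero_mul] at k1
      exact zero_ne_one k1
    · rw [k4, mul_zero] at k3
      exact zero_ne_one k3
  have hp : x 0 * D 0 0 + x 1 * D 1 0 = 0 ∧ x 0 * z 0 + x 1 * z 1 = 1 := by
    obtain ⟨i, hi⟩ := hz0
    have k0 : ∀ v : Fin 2 → Λ, D i 0 * (W 0 0 * v 0 + W 0 1 * v 1) +
        z i * (x 0 * v 0 + x 1 * v 1) = v i := by
      intro v
      have k1 : D i 0 * (W 0 0 * v 0 + W 0 1 * v 1) + z i * (x 0 * v 0 + x 1 * v 1) =
          (D i 0 * W 0 0 + z i * x 0) * v 0 + (D i 0 * W 0 1 + z i * x 1) * v 1 := by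
        noncomm_ring
      rw [k1, h6, h6]
      have hj : i = 0 ∨ i = 1 := by omega
      rcases hj with rfl | rfl
      · rw [Matrix.one_apply_eq, Matrix.one_apply_ne (by decide), one_mul, zero_mul, add_zero]
      · rw [Matrix.one_apply_eq, Matrix.one_apply_ne (by decide), one_mul, zero_mul, zero_add]
    constructor
    · have k1 := k0 (fun j => D j 0)
      rw [h7, h7, f2, mul_one] at k1
      exact (mul_eq_zero.1 (by simpa using k1)).resolve_left hi
    · have k1 := k0 z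
      rw [h7, h7, h5, mul_zero, zero_add] at k1
      exact mul_left_cancel₀ hi (by rw [k1, mul_one])
  -- the two matrices
  set X : Matrix (Fin 2) (Fin 2) Λ := Matrix.of ![fun j => Q.conj (A j 0), x] with hX
  set D2 : Matrix (Fin 2) (Fin 2) Λ := Matrix.of fun i => ![D i 0, z i] with hD2
  have hX0 : ∀ j, X 0 j = Q.conj (A j 0) := fun j => rfl
  have hX1 : ∀ j, X 1 j = x j := fun j => rfl
  have hD0 : ∀ i, D2 i 0 = D i 0 := fun i => rfl
  have hD1 : ∀ i, D2 i 1 = z i := fun i => rfl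
  have m1 : D2 * X = 1 := by
    ext i j
    rw [Matrix.mul_apply, Fin.sum_univ_two, hX0, hX1, hD0, hD1, ← h7, h6]
  have m2 : X * D2 = 1 := by
    ext i j
    rw [Matrix.mul_apply, Fin.sum_univ_two]
    fin_cases i <;> fin_cases j
    · simpa [hX0, hD0] using f2
    · simpa [hX0, hD1] using h5
    · simpa [hX1, hD0] using hp.1
    · simpa [hX1, hD1] using hp.2
  refine ⟨⟨Xᴴ, D2ᴴ, ?_, ?_⟩, fun j => ?_⟩
  · rw [← Matrix.conjTranspose_mul, m1, Matrix.conjTranspose_one]
  · rw [← Matrix.conjTranspose_mul, m2, Matrix.conjTranspose_one]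
  · show star (X 0 j) = A j 0
    rw [hX0, hQ, Q.conj_conj]

end Complete

end BWC
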