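import Pool.Agent.BWC.TransAll

/-!
# Type D: the formal part (any ring with involution, `ε = ± 1`)
-/

namespace BWC

open Matrix
open BW hiding star

section Formal

variable {ε : ℤ} {P : Type*} [Ring P] [StarRing P]

/-- for unimodular `a` and isotropic `(a; c)` one element of `U_P^-` kills `c` -/
theorem kill_c (hε : ε * ε = 1) {n : Type*} [DecidableEq n] [Fintype n] (a c y : n → P)
    (h : ∑ j, y j * a j = 1)
    (hiso : ∑ j, Star.star (a j) * c j + ε • ∑ j, Star.star (c j) * a j = 0) :
    ∃ C, Sk ε C ∧ (lo C).val *ᵥ Sum.elim a c = Sum.elim a 0 := by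
  set σ : P := ∑ j, Star.star (a j) * c j with hσ
  have h1 : Star.star σ = ∑ j, Star.star (c j) * a j := by
    rw [hσ, star_sum]
    refine Finset.sum_congr rfl fun j _ => ?_
    rw [star_mul, star_star]
  rw [← h1] at hiso
  have h2 : Star.star σ = -(ε • σ) := by
    have h3 : ε • σ + Star.star σ = 0 := by
      have h4 := congrArg (fun x => ε • x) hiso
      simp only [smul_add, smul_smul, hε, one_smul, smul_zero] at h4
      exact h4
    rw [add_comm] at h3
    exact eq_neg_of_add_eq_zero_left h3
  refine ⟨Matrix.of fun i j => -(c i * y j) + ε • (Star.star (y i) * Star.star (c j)) +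
    Star.star (y i) * σ * y j, ?_, ?_⟩
  · unfold Sk
    ext i j
    simp only [Matrix.conjTranspose_apply, Matrix.of_apply, Matrix.neg_apply, Matrix.smul_apply,
      star_add, star_neg, star_mul, star_star, star_smul, star_trivial, h2, smul_add, smul_smul,
      smul_neg, hε, one_smul, mul_neg, neg_mul, mul_smul_comm, smul_mul_assoc, mul_assoc]
    abel
  · rw [lo_mulVec]
    congr 1
    funext i
    rw [Pi.add_apply, Pi.zero_apply]
    have h3 : ((Matrix.of fun i j => -(c i * y j) + ε • (Star.star (y i) * Star.star (c j)) +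
        Star.star (y i) * σ * y j) *ᵥ a) i = -(c i * ∑ j, y j * a j) +
        Star.star (y i) * (ε • ∑ j, Star.star (c j) * a j) + Star.star (y i) * σ * ∑ j, y j * a j := by
      rw [Matrix.mulVec, dotProduct, Finset.mul_sum, Finset.smul_sum, Finset.mul_sum,
        Finset.mul_sum, ← Finset.sum_neg_distrib, ← Finset.sum_add_distrib,
        ← Finset.sum_add_distrib]
      refine Finset.sum_congr rfl fun j _ => ?_
      rw [Matrix.of_apply]
      simp only [add_mul, neg_mul, smul_mul_assoc, mul_smul_comm, mul_assoc]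
    rw [h3, h, ← h1, mul_one, mul_one]
    have h4 : Star.star (y i) * (ε • Star.star σ) + Star.star (y i) * σ =
        Star.star (y i) * (σ + ε • Star.star σ) := by rw [mul_add, add_comm]
    calc -c i + Star.star (y i) * (ε • Star.star σ) + Star.star (y i) * σ + c i
        = Star.star (y i) * (ε • Star.star σ) + Star.star (y i) * σ := by abel
      _ = 0 := by rw [h4, hiso, mul_zero]

/-- `v'` is obtained from `v` by an element of `EUL` -/
def RE (ε : ℤ) {n : Type*} [DecidableEq n] [Fintype n] (v v' : n ⊕ n → P) : Prop :=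
  ∃ e ∈ EUL ε n P, e.val *ᵥ v = v'

section
variable {n : Type*} [DecidableEq n] [Fintype n]

theorem RE.trans {v v' v'' : n ⊕ n → P} (h : RE ε v v') (h' : RE ε v' v'') : RE ε v v'' := by
  obtain ⟨e, he, rfl⟩ := h
  obtain ⟨e', he', rfl⟩ := h'
  exact ⟨e' * e, mul_mem he' he, by rw [val_mul_mulVec]⟩

theorem RE.refl (v : n ⊕ n → P) : RE ε v v := ⟨1, one_mem _, by simp⟩

theorem re_lev0 (i j : n) (h : i ≠ j) (y : P) (a : n → P) :
    RE ε (Sum.elim a (0 : n → P)) (Sum.elim (Function.update a i (a i + y * a j)) 0) := by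
  refine ⟨lev (el i j h y), lev_mem (el_mem i j h y), ?_⟩
  rw [lev_el_mulVec]
  congr 1
  rw [Pi.zero_apply, Pi.zero_apply, mul_zero, sub_zero]
  exact Function.update_eq_self j (0 : n → P)

theorem re_clear_list (i : n) (a : n → P) (hi : a i = 1) (l : List n) (hl : i ∉ l) :
    RE ε (Sum.elim a (0 : n → P)) (Sum.elim (fun j => if j ∈ l then 0 else a j) 0) := by
  induction l with
  | nil =>
    simp only [List.not_mem_nil, if_false]
    exact RE.refl _
  | cons j l ih =>
    have hij : j ≠ i := by
      rintro rfl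
      exact hl List.mem_cons_self
    have hil : i ∉ l := fun h => hl (List.mem_cons_of_mem _ h)
    have h1 := re_lev0 (ε := ε) j i hij (-(if j ∈ l then 0 else a j))
      (fun j => if j ∈ l then 0 else a j)
    have h2 : Function.update (fun j => if j ∈ l then 0 else a j) j
        ((if j ∈ l then 0 else a j) + -(if j ∈ l then 0 else a j) * (if i ∈ l then 0 else a i)) =
        fun j' => if j' ∈ j :: l then 0 else a j' := by
      funext j'
      by_cases hj : j' = j
      · subst hj
        rw [Function.update_self, if_neg hil, hi, mul_one, add_neg_cancel,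
          if_pos List.mem_cons_self]
      · rw [Function.update_of_ne hj]
        simp only [List.mem_cons, hj, false_or]
    rw [h2] at h1
    exact (ih hil).trans h1

theorem re_clear_all (i : n) (a : n → P) (hi : a i = 1) :
    RE ε (Sum.elim a (0 : n → P)) (Pi.single (Sum.inl i) 1) := by
  have h1 := re_clear_list (ε := ε) i a hi (Finset.univ.erase i).toList (by simp)
  have h2 : (Sum.elim (fun j => if j ∈ (Finset.univ.erase i).toList then 0 else a j) 0 :
      n ⊕ n → P) = Pi.single (Sum.inl i) 1 := by
    funext x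
    rcases x with x | x
    · by_cases hx : x = i
      · subst hx
        simp [hi]
      · rw [Sum.elim_inl, Pi.single_eq_of_ne (by simpa using hx), if_pos]
        simp [hx]
    · rw [Pi.single_eq_of_ne (by simp)]
      rfl
  rw [h2] at h1
  exact h1

theorem re_three_planes {i j k : n} (hik : i ≠ k) (hjk : j ≠ k) (a : n → P) (u u' : P)
    (h : u * a i + u' * a j = 1) :
    RE ε (Sum.elim a (0 : n → P)) (Pi.single (Sum.inl i) 1) := by
  have r1 := re_lev0 (ε := ε) k i hik.symm ((1 - a k) * u) a
  set a1 : n → P := Function.update a k (a k + (1 - a k) * u * a i) with ha1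
  have r2 := re_lev0 (ε := ε) k j hjk.symm ((1 - a k) * u') a1
  set a2 : n → P := Function.update a1 k (a1 k + (1 - a k) * u' * a1 j) with ha2
  have h1 : a2 k = 1 := by
    rw [ha2, Function.update_self, ha1, Function.update_self, Function.update_of_ne hjk]
    calc a k + (1 - a k) * u * a i + (1 - a k) * u' * a j
        = a k + (1 - a k) * (u * a i + u' * a j) := by noncomm_ring
      _ = 1 := by rw [h]; noncomm_ring
  have r3 := re_lev0 (ε := ε) i k hik (1 - a2 i) a2
  set a3 : n → P := Function.update a2 i (a2 i + (1 - a2 i) * a2 k) with ha3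
  have h2 : a3 i = 1 := by
    rw [ha3, Function.update_self, h1]
    noncomm_ring
  exact (((r1.trans r2).trans r3).trans (re_clear_all i a3 h2))

end

theorem reach_three (hε : ε * ε = 1) (k : ℕ) (a c : Fin (k + 3) → P) (u v : P)
    (h : u * a 0 + v * a 1 = 1)
    (hiso : ∑ j, Star.star (a j) * c j + ε • ∑ j, Star.star (c j) * a j = 0) :
    ∃ e ∈ EUL ε (Fin (k + 3)) P, e.val *ᵥ Sum.elim a c = Pi.single (Sum.inl 0) 1 := by
  obtain ⟨C, hC, h1⟩ := kill_c hε a c (Pi.single 0 u + Pi.single 1 v) (by
    change (Pi.single 0 u + Pi.single 1 v : Fin (k + 3) → P) ⬝ᵥ a = 1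
    rw [add_dotProduct, single_dotProduct, single_dotProduct, h]) hiso
  have r1 : RE ε (Sum.elim a c) (Sum.elim a (0 : Fin (k + 3) → P)) :=
    ⟨lo C, EU_le_EUL (lo_mem hC), h1⟩
  have h02 : (0 : Fin (k + 1 + 2)) ≠ (0 : Fin (k + 1)).succ.succ := (Fin.succ_ne_zero _).symm
  have h12 : (1 : Fin (k + 1 + 2)) ≠ (0 : Fin (k + 1)).succ.succ := one_ne_succ_succ 0
  exact r1.trans (re_three_planes h02 h12 a u v h)

end Formal

end BWC
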