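import Pool.Agent.BWC.Field

/-!
# Two planes over a field, with a scalar `0` or `1`
-/

namespace BWC

open Matrix

/-- field lemma: `pl` with `s ∈ {0, 1}` -/
theorem pl_one {F : Type*} [Field F] (a0 a1 c0 c1 x0 x1 w0 w1 : Matrix (Fin 2) (Fin 2) F)
    (h : x0 * a0 + x1 * a1 + w0 * c0 + w1 * c1 = 1) :
    ∃ (y : Matrix (Fin 2) (Fin 2) F) (s : ℤ), (s = 0 ∨ s = 1) ∧
      ∃ u v, u * (a0 + y * a1) + v * (a1 + (s : Matrix (Fin 2) (Fin 2) F) *
        (c1 - y.adjugate * c0)) = 1 := by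
  by_cases hK : ∀ x : Fin 2 → F, a0 *ᵥ x = 0 → a1 *ᵥ x = 0 → x = 0
  · obtain ⟨u, v, huv⟩ := left_inv a0 a1 hK
    exact ⟨0, 0, Or.inl rfl, u, v, by simpa using huv⟩
  push Not at hK
  obtain ⟨k, hk0, hk1, hk⟩ := hK
  -- a second basis vector
  obtain ⟨l, hl⟩ : ∃ l : Fin 2 → F, ∀ x : Fin 2 → F, ∃ α β : F, x = α • k + β • l := by
    by_cases h0 : k 0 = 0
    · have h1 : k 1 ≠ 0 := fun h1 => hk (by ext i; fin_cases i <;> assumption)
      refine ⟨![1, 0], fun x => ⟨x 1 / k 1, x 0, ?_⟩⟩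
      ext i; fin_cases i
      · simp [h0]
      · simp [h1]
    · refine ⟨![0, 1], fun x => ⟨x 0 / k 0, x 1 - x 0 / k 0 * k 1, ?_⟩⟩
      ext i; fin_cases i
      · simp [h0]
      · simp
  have hw : ∀ x : Fin 2 → F, a0 *ᵥ x = 0 → a1 *ᵥ x = 0 → c0 *ᵥ x = 0 → c1 *ᵥ x = 0 → x = 0 := by
    intro x h1 h2 h3 h4
    have h5 := congrArg (fun M => M *ᵥ x) h
    simp only [Matrix.add_mulVec, ← Matrix.mulVec_mulVec, h1, h2, h3, h4, Matrix.mulVec_zero,
      Matrix.one_mulVec, add_zero] at h5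
    exact h5.symm
  by_cases hL : a0 *ᵥ l = 0 ∧ a1 *ᵥ l = 0
  · -- `a0 = a1 = 0`
    have hz : ∀ M : Matrix (Fin 2) (Fin 2) F, M *ᵥ k = 0 → M *ᵥ l = 0 → M = 0 := by
      intro M h1 h2
      have h3 : ∀ x : Fin 2 → F, M *ᵥ x = 0 := by
        intro x
        obtain ⟨α, β, rfl⟩ := hl x
        rw [Matrix.mulVec_add, Matrix.mulVec_smul, Matrix.mulVec_smul, h1, h2, smul_zero,
          smul_zero, add_zero]
      ext i j
      have h4 := congrFun (h3 (Pi.single j 1)) i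
      simpa using h4
    have ha0 := hz a0 hk0 hL.1
    have ha1 := hz a1 hk1 hL.2
    subst ha0 ha1
    simp only [mul_zero, zero_add] at h
    have h' : w1 * c1 + w0 * c0 = 1 := by rw [← h, add_comm]
    obtain ⟨t, ht⟩ := sr1 c1 c0 w1 w0 h'
    refine ⟨-t.adjugate, 1, Or.inr rfl, ?_⟩
    have e : (-t.adjugate).adjugate = -t := by
      rw [Matrix.adjugate_fin_two, Matrix.adjugate_fin_two]
      ext i j; fin_cases i <;> fin_cases j <;> simp
    obtain ⟨w, hw'⟩ := ht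
    refine ⟨0, (w⁻¹ : (Matrix (Fin 2) (Fin 2) F)ˣ).val, ?_⟩
    rw [e, Matrix.neg_mul t, sub_neg_eq_add, zero_mul, zero_add, zero_add, Int.cast_one, one_mul,
      ← hw', Units.inv_mul]
  · have hp : a1 *ᵥ l ≠ 0 ∨ a0 *ᵥ l ≠ 0 := by
      by_contra hcon
      push Not at hcon
      exact hL ⟨hcon.2, hcon.1⟩
    have hr : c0 *ᵥ k ≠ 0 ∨ c1 *ᵥ k ≠ 0 := by
      by_contra hcon
      push Not at hcon
      exact hk (hw k hk0 hk1 hcon.1 hcon.2)
    obtain ⟨y, hy1, hy2⟩ := choose_y _ _ _ _ hp hr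
    refine ⟨y, 1, Or.inr rfl, left_inv _ _ fun x h1 h2 => ?_⟩
    obtain ⟨α, β, rfl⟩ := hl x
    have hβ : β = 0 := by
      by_contra hβ
      apply hy1
      rw [Matrix.mulVec_add, Matrix.mulVec_smul, Matrix.mulVec_smul, Matrix.add_mulVec,
        ← Matrix.mulVec_mulVec, hk0, hk1, Matrix.mulVec_zero, add_zero, smul_zero, zero_add,
        Matrix.add_mulVec, ← Matrix.mulVec_mulVec] at h1
      exact (smul_eq_zero.mp h1).resolve_left hβ
    subst hβ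
    rw [zero_smul, add_zero] at h2 ⊢
    rw [Int.cast_one, one_mul, Matrix.mulVec_smul, Matrix.add_mulVec, hk1, zero_add,
      Matrix.sub_mulVec, ← Matrix.mulVec_mulVec] at h2
    rw [(smul_eq_zero.mp h2).resolve_right hy2, zero_smul]

end BWC
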