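import Pool.Agent.BWC.Basic
import Pool.Agent.BWC.Crt
import Pool.Agent.BWD.PlOne

/-!
# Reach for `ε = -1`: the first two coordinates become unimodular
-/

namespace BWC

open Matrix
open BW hiding star

/-! ### The arithmetic step -/

section B2

variable {N : ℕ} {R Λ : Type*} [CommRing R] [IsLocalization.Away (N : ℤ) R] [Ring Λ] [Algebra R Λ]

/-- two planes modulo one prime, with an integer `s` -/
theorem planes_modD (hN : N ≠ 0) (Q : QAlg N R Λ) {p : ℕ} (hp : p.Prime) (hpN : ¬ p ∣ N)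
    (a0 a1 c0 c1 x0 x1 w0 w1 : Λ)
    (h : ∃ z, x0 * a0 + x1 * a1 + w0 * c0 + w1 * c1 = 1 + (p : Λ) * z) :
    ∃ (υ : Λ) (σ : ℤ), ∀ (y z : Λ) (s z' : ℤ), y = υ + (p : Λ) * z → s = σ + (p : ℤ) * z' →
      ∃ u v z'' : Λ, u * (a0 + y * a1) + v * (a1 + (s : Λ) * (c1 - Q.conj y * c0)) =
        1 + (p : Λ) * z'' := by
  have := Fact.mk hp
  obtain ⟨ρ, hs, hk, hdet⟩ := Q.fibre p hp hpN
  obtain ⟨z, hz⟩ := h
  obtain ⟨Y, σ, -, U, V, hUV⟩ := pl_one (ρ a0) (ρ a1) (ρ c0) (ρ c1) (ρ x0) (ρ x1) (ρ w0) (ρ w1)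
    (by
      have h1 := congrArg ρ hz
      rw [rho_add_mul, map_one] at h1
      rw [← h1]
      simp only [map_add, map_mul])
  obtain ⟨υ, rfl⟩ := hs Y
  obtain ⟨u, rfl⟩ := hs U
  obtain ⟨v, rfl⟩ := hs V
  refine ⟨υ, σ, fun y z s z' hy hs' => ?_⟩
  have hy' : ρ y = ρ υ := by rw [hy, rho_add_mul]
  have hs'' : ρ (s : Λ) = ((σ : ℤ) : Matrix (Fin 2) (Fin 2) (ZMod p)) := by
    have h1 : (s : Λ) = (σ : Λ) + (p : Λ) * (z' : Λ) := by rw [hs']; push_cast; rfl
    rw [h1, rho_add_mul, map_intCast]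
  obtain ⟨z'', hz''⟩ := hk (u * (a0 + y * a1) + v * (a1 + (s : Λ) * (c1 - Q.conj y * c0)) - 1) (by
    rw [map_sub, map_one, sub_eq_zero]
    simp only [map_add, map_mul, map_sub, rho_conj Q hN hp hpN hdet, hy', hs'']
    exact hUV)
  exact ⟨u, v, z'', by rw [← hz'', add_sub_cancel]⟩

/-- two planes, with an integer `s` -/
theorem two_planesD (hN : N ≠ 0) (Q : QAlg N R Λ) (a0 a1 c0 c1 x0 x1 w0 w1 : Λ)
    (h0 : Q.n a0 ≠ 0) (h : x0 * a0 + x1 * a1 + w0 * c0 + w1 * c1 = 1) :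
    ∃ (y : Λ) (s : ℤ), Q.n (a0 + y * a1) ≠ 0 ∧
      ∃ u v, u * (a0 + y * a1) + v * (a1 + (s : Λ) * (c1 - Q.conj y * c0)) = 1 := by
  classical
  obtain ⟨u, M, hM, hMN, hmu⟩ := Loc.exists_unit_mul hN h0
  have hex : ∀ p : ℕ, ∃ (υ : Λ) (σ : ℤ), p.Prime → ¬ p ∣ N →
      ∀ (y z : Λ) (s z' : ℤ), y = υ + (p : Λ) * z → s = σ + (p : ℤ) * z' →
      ∃ u v z'' : Λ, u * (a0 + y * a1) + v * (a1 + (s : Λ) * (c1 - Q.conj y * c0)) =
        1 + (p : Λ) * z'' := by
    intro p
    by_cases hp : p.Prime ∧ ¬ p ∣ N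
    · obtain ⟨υ, σ, hτ⟩ := planes_modD hN Q hp.1 hp.2 a0 a1 c0 c1 x0 x1 w0 w1
        ⟨0, by rw [mul_zero, add_zero, h]⟩
      exact ⟨υ, σ, fun _ _ => hτ⟩
    · exact ⟨0, 0, fun h1 h2 => absurd ⟨h1, h2⟩ hp⟩
  choose υ σ hυσ using hex
  -- an auxiliary prime
  obtain ⟨q, hq1, hq⟩ := Nat.exists_infinite_primes (N + M + 1)
  have hqN : ¬ q ∣ N := fun h => by
    have := Nat.le_of_dvd (Nat.pos_of_ne_zero hN) h
    omega
  have hqM : ¬ q ∣ M := fun h => by
    have := Nat.le_of_dvd hM h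
    omega
  obtain ⟨y, hy⟩ := exists_crt (Λ := Λ) (insert q M.primeFactors)
    (fun p hp => by
      rcases Finset.mem_insert.1 hp with rfl | hp
      · exact hq
      · exact Nat.prime_of_mem_primeFactors hp) (fun p => if p = q then 0 else υ p)
  have hyM : ∀ p : ℕ, p.Prime → p ∣ M → ∃ z, y = υ p + (p : Λ) * z := by
    intro p hp hpM
    obtain ⟨z, hz⟩ := hy p (Finset.mem_insert_of_mem (Nat.mem_primeFactors.mpr ⟨hp, hpM, hM.ne'⟩))
    rw [if_neg (by rintro rfl; exact hqM hpM)] at hz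
    exact ⟨z, hz⟩
  have hyq : ∃ z, y = (q : Λ) * z := by
    obtain ⟨z, hz⟩ := hy q (Finset.mem_insert_self _ _)
    rw [if_pos rfl, zero_add] at hz
    exact ⟨z, hz⟩
  have hn1 : Q.n (a0 + y * a1) ≠ 0 := by
    intro hn
    obtain ⟨ρ, -, -, hdet⟩ := Q.fibre q hq hqN
    obtain ⟨z, hz⟩ := hyq
    have h1 := Choice.det_rho Q hq hqN ρ hdet (a0 + y * a1)
    rw [hn, map_zero, hz, mul_assoc, rho_add_mul, Choice.det_rho Q hq hqN ρ hdet,
      Loc.phi_eq_zero_iff hq hqN, hmu] at h1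
    have h2 := (IsUnit.dvd_mul_left u.isUnit).mp h1
    rw [Loc.natCast_dvd_natCast hq hqN] at h2
    exact hqM h2
  obtain ⟨u1, M1, hM1, hM1N, hmu1⟩ := Loc.exists_unit_mul hN hn1
  obtain ⟨s, hs⟩ := exists_crt (Λ := ℤ) M1.primeFactors
    (fun p hp => Nat.prime_of_mem_primeFactors hp) (fun p => if p ∣ M then σ p else 0)
  refine ⟨y, s, hn1, ?_⟩
  have hone : (1 : Λ) ∈ Submodule.span Λ {a0 + y * a1, a1 + (s : Λ) * (c1 - Q.conj y * c0)} := by
    refine one_mem_of_primes hN _ (Q.n (a0 + y * a1)) hn1 ?_ fun p hp hpN hpd => ?_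
    · rw [← Q.conj_mul_self]
      exact Submodule.smul_mem _ _ (Submodule.subset_span (by simp))
    · have h1 : (p : R) ∣ (M1 : R) := by
        rw [hmu1] at hpd
        exact (IsUnit.dvd_mul_left u1.isUnit).mp hpd
      rw [Loc.natCast_dvd_natCast hp hpN] at h1
      obtain ⟨z', hz'⟩ := hs p (Nat.mem_primeFactors.mpr ⟨hp, h1, hM1.ne'⟩)
      by_cases hpM : p ∣ M
      · rw [if_pos hpM] at hz'
        obtain ⟨z, hz⟩ := hyM p hp hpM
        obtain ⟨u', v', z'', h2⟩ := hυσ p hp hpN y z s z' hz hz'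
        refine ⟨z'', ?_⟩
        rw [← h2, Submodule.mem_span_pair]
        exact ⟨u', v', rfl⟩
      · rw [if_neg hpM, zero_add] at hz'
        obtain ⟨ρ, hsurj, hk, hdet⟩ := Q.fibre p hp hpN
        refine one_mod hsurj hk
          (g := (a0 + y * a1) - y * (a1 + (s : Λ) * (c1 - Q.conj y * c0))) ?_ ?_
        · rw [Submodule.mem_span_pair]
          exact ⟨1, -y, by simp only [smul_eq_mul]; noncomm_ring⟩
        · have h2 : (a0 + y * a1) - y * (a1 + (s : Λ) * (c1 - Q.conj y * c0)) =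
              a0 - y * ((s : Λ) * (c1 - Q.conj y * c0)) := by
            rw [mul_add]; abel
          have h3 : ρ (s : Λ) = 0 := by
            have h4 := rho_add_mul ρ 0 (z' : Λ)
            rw [zero_add, map_zero] at h4
            have h5 : (s : Λ) = (p : Λ) * (z' : Λ) := by rw [hz']; push_cast; rfl
            rw [h5, h4]
          rw [h2, map_sub, map_mul, map_mul, h3, zero_mul, mul_zero, sub_zero,
            isUnit_rho Q hp hpN hdet, hmu, IsUnit.dvd_mul_left u.isUnit,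
            Loc.natCast_dvd_natCast hp hpN]
          exact hpM
  rw [Submodule.mem_span_pair] at hone
  obtain ⟨u', v', h1⟩ := hone
  exact ⟨u', v', h1⟩

end B2

/-! ### Moves -/

section Moves

variable {ε : ℤ} {n P : Type*} [DecidableEq n] [Fintype n] [Ring P] [StarRing P]

/-- unimodular columns -/
def Um {κ P : Type*} [Fintype κ] [Ring P] (v : κ → P) : Prop := ∃ r : κ → P, r ⬝ᵥ v = 1

theorem Um.mul {κ P : Type*} [Fintype κ] [DecidableEq κ] [Ring P] {v : κ → P} (h : Um v)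
    (g : (Matrix κ κ P)ˣ) : Um (g.val *ᵥ v) := by
  obtain ⟨r, hr⟩ := h
  refine ⟨r ᵥ* g⁻¹.val, ?_⟩
  rw [← Matrix.dotProduct_mulVec, Matrix.mulVec_mulVec, ← Units.val_mul, inv_mul_cancel,
    Units.val_one, Matrix.one_mulVec, hr]

/-- the moves `a_1 += λ_j a_j`, `j ≥ 2` -/
theorem gather_levE {k : ℕ} (lam : Fin k → P) (a c : Fin (k + 2) → P) (l : List (Fin k)) :
    ∃ e ∈ ball ε (Fin (k + 2)) P l.length, ∃ c' : Fin (k + 2) → P,
      e.val *ᵥ Sum.elim a c =
        Sum.elim (Function.update a 1 (a 1 + (l.map fun j => lam j * a j.succ.succ).sum)) c' ∧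
      c' 0 = c 0 ∧ c' 1 = c 1 ∧ ∀ j, ∃ μ, c' j = c j + μ * c 1 := by
  induction l with
  | nil =>
    refine ⟨1, one_mem_ball 0, c, ?_, rfl, rfl, fun j => ⟨0, by simp⟩⟩
    simp
  | cons j l ih =>
    obtain ⟨e, he, c', h1, h2, h3, h4⟩ := ih
    have hj : (1 : Fin (k + 2)) ≠ j.succ.succ := by
      intro h
      have := congrArg Fin.val h
      simp at this
    have hj0 : (0 : Fin (k + 2)) ≠ j.succ.succ := (Fin.succ_ne_zero _).symm
    refine ⟨lev (el 1 j.succ.succ hj (lam j)) * e, ?_,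
      Function.update c' j.succ.succ (c' j.succ.succ - Star.star (lam j) * c' 1), ?_, ?_, ?_,
      fun i => ?_⟩
    · rw [List.length_cons, Nat.add_comm l.length 1]
      exact ball_mul (lev_mem_ball _ _ _ _) he
    · rw [val_mul_mulVec, h1, lev_el_mulVec, Function.update_idem, Function.update_self,
        Function.update_of_ne hj.symm, List.map_cons, List.sum_cons]
      congr 2
      abel
    · rw [Function.update_of_ne hj0, h2]
    · rw [Function.update_of_ne hj, h3]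
    · by_cases hi : i = j.succ.succ
      · subst hi
        obtain ⟨μ, hμ⟩ := h4 j.succ.succ
        refine ⟨μ - Star.star (lam j), ?_⟩
        rw [Function.update_self, hμ, h3, sub_mul]
        abel
      · rw [Function.update_of_ne hi]
        exact h4 i

/-- the matrix of the moves `a_1 += w_j c_j`, `j ≥ 2` -/
def gE {k : ℕ} (ε : ℤ) (w : Fin k → P) : Matrix (Fin (k + 2)) (Fin (k + 2)) P :=
  ∑ j, (Matrix.single 1 j.succ.succ (w j) - ε • Matrix.single j.succ.succ 1 (Star.star (w j)))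

theorem Sk_gE (hε : ε * ε = 1) {k : ℕ} (w : Fin k → P) : Sk ε (gE ε w) := by
  unfold gE
  induction (Finset.univ : Finset (Fin k)) using Finset.induction_on with
  | empty => simpa using Sk.zero
  | insert j s hj ih =>
    rw [Finset.sum_insert hj]
    exact Sk.add (Sk_single hε _ _ _) ih

theorem gE_mulVec_zero {k : ℕ} (w : Fin k → P) (c : Fin (k + 2) → P) : (gE ε w *ᵥ c) 0 = 0 := by
  unfold gE
  rw [Matrix.sum_mulVec, Finset.sum_apply]
  refine Finset.sum_eq_zero fun j _ => ?_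
  rw [Matrix.sub_mulVec, Matrix.smul_mulVec, Matrix.single_mulVec, Matrix.single_mulVec,
    Pi.sub_apply, Pi.smul_apply,
    Function.update_of_ne (by intro h; have := congrArg Fin.val h; simp at this),
    Function.update_of_ne (Fin.succ_ne_zero _).symm]
  simp

theorem gE_mulVec_one {k : ℕ} (w : Fin k → P) (c : Fin (k + 2) → P) :
    (gE ε w *ᵥ c) 1 = ∑ j, w j * c j.succ.succ := by
  unfold gE
  rw [Matrix.sum_mulVec, Finset.sum_apply]
  refine Finset.sum_congr rfl fun j _ => ?_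
  rw [Matrix.sub_mulVec, Matrix.smul_mulVec, Matrix.single_mulVec, Matrix.single_mulVec,
    Pi.sub_apply, Pi.smul_apply, Function.update_self,
    Function.update_of_ne (by intro h; have := congrArg Fin.val h; simp at this)]
  simp

/-- `a_1 += ∑ λ_j a_j + ∑ w_j c_j` (`j ≥ 2`) up to left multiples of `c_1`; the entries `a_0`, `c_0`
and `c_1` do not change -/
theorem gatherE (hε : ε * ε = 1) {k : ℕ} (lam w : Fin k → P) (a c : Fin (k + 2) → P) :
    ∃ e ∈ ball ε (Fin (k + 2)) P (k + 1), ∃ (a' c' : Fin (k + 2) → P) (μ : P),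
      e.val *ᵥ Sum.elim a c = Sum.elim a' c' ∧ a' 0 = a 0 ∧
      a' 1 = a 1 + ∑ j, lam j * a j.succ.succ + ∑ j, w j * c j.succ.succ + μ * c 1 ∧
      c' 0 = c 0 ∧ c' 1 = c 1 := by
  obtain ⟨e, he, c', h1, h2, h3, h4⟩ := gather_levE (ε := ε) lam a c (List.finRange k)
  rw [List.length_finRange] at he
  choose μ hμ using h4
  refine ⟨up (gE ε w) * e, ?_,
    Function.update a 1 (a 1 + ((List.finRange k).map fun j => lam j * a j.succ.succ).sum) +
      gE ε w *ᵥ c', c', ∑ j : Fin k, w j * μ j.succ.succ, ?_, ?_, ?_, h2, h3⟩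
  · rw [Nat.add_comm k 1]
    exact ball_mul (up_mem_ball (Sk_gE hε w)) he
  · rw [val_mul_mulVec, h1, up_mulVec]
  · rw [Pi.add_apply, gE_mulVec_zero, add_zero, Function.update_of_ne (by simp)]
  · rw [Pi.add_apply, gE_mulVec_one, Function.update_self]
    have hl : ((List.finRange k).map fun j => lam j * a j.succ.succ).sum =
        ∑ j, lam j * a j.succ.succ := by
      rw [← List.ofFn_eq_map, List.sum_ofFn]
    rw [hl]
    simp only [hμ, mul_add, Finset.sum_add_distrib, Finset.sum_mul, mul_assoc]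
    abel

omit [Fintype n] in
theorem Sk_diag (i : n) {s : P} (hs : Star.star s = s) : Sk (-1) (Matrix.single i i s) := by
  unfold Sk
  rw [Matrix.conjTranspose_single, hs, neg_smul, one_smul, neg_neg]

/-- one move makes `a_0 ≠ 0` -/
theorem head_ne_zero {k : ℕ} (a c : Fin (k + 2) → P) (h : Sum.elim a c ≠ 0) :
    ∃ e ∈ ball (-1) (Fin (k + 2)) P 1, ∃ a' c' : Fin (k + 2) → P,
      e.val *ᵥ Sum.elim a c = Sum.elim a' c' ∧ a' 0 ≠ 0 := by
  by_cases h0 : a 0 = 0
  · by_cases h1 : ∃ j, a j ≠ 0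
    · obtain ⟨j, hj⟩ := h1
      have h0j : (0 : Fin (k + 2)) ≠ j := by rintro rfl; exact hj h0
      refine ⟨lev (el 0 j h0j 1), lev_mem_ball _ _ _ _, _, _, lev_el_mulVec _ _ _ _ _ _, ?_⟩
      rw [Function.update_self, h0, zero_add, one_mul]
      exact hj
    · have ha : a = 0 := by
        funext j
        by_contra hj
        exact h1 ⟨j, hj⟩
      have hc : ∃ j, c j ≠ 0 := by
        by_contra hc
        push Not at hc
        apply h
        rw [ha]
        funext x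
        rcases x with x | x
        · rfl
        · exact hc x
      obtain ⟨j, hj⟩ := hc
      by_cases hj0 : j = 0
      · subst hj0
        refine ⟨up (Matrix.single 0 0 1), up_mem_ball (Sk_diag 0 (star_one P)), _, _, up_mulVec _ _ _,
          ?_⟩
        rw [Pi.add_apply, h0, zero_add, Matrix.single_mulVec, Function.update_self, one_mul]
        exact hj
      · refine ⟨up (Matrix.single 0 j 1 - (-1 : ℤ) • Matrix.single j 0 (Star.star 1)),
          up_mem_ball (Sk_single (by norm_num) _ _ _), _, _, up_mulVec _ _ _, ?_⟩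
        rw [Pi.add_apply, h0, zero_add, Matrix.sub_mulVec, Matrix.smul_mulVec,
          Matrix.single_mulVec, Matrix.single_mulVec, Pi.sub_apply, Pi.smul_apply,
          Function.update_self, Function.update_of_ne (Ne.symm hj0), Pi.zero_apply, smul_zero,
          sub_zero, one_mul]
        exact hj
  · exact ⟨1, one_mem_ball 1, a, c, by rw [Units.val_one, Matrix.one_mulVec], h0⟩

end Moves

theorem reachD (k : ℕ) : ∃ K : ℕ, ∀ (N : ℕ) (R Λ : Type) [CommRing R]
    [IsLocalization.Away (N : ℤ) R] [Ring Λ] [StarRing Λ] [Algebra R Λ] [Module.Free R Λ]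
    [Module.Finite R Λ] [NoZeroDivisors Λ] (_ : N ≠ 0) (Q : QAlg N R Λ) (_ : ∀ x, star x = Q.conj x)
    (a c x w : Fin (k + 2) → Λ) (_ : ∑ j, x j * a j + ∑ j, w j * c j = 1),
    ∃ e ∈ ball (-1) (Fin (k + 2)) Λ K, ∃ (a' c' : Fin (k + 2) → Λ) (u v : Λ),
      e.val *ᵥ Sum.elim a c = Sum.elim a' c' ∧ u * a' 0 + v * a' 1 = 1 := by
  refine ⟨1 + (1 + ((k + 1) + 1)), ?_⟩
  intro N R Λ _ _ _ _ _ _ _ _ hN Q hQ a c x w h
  have hR1 : (1 : R) ≠ 0 := by
    intro h1
    have h2 : Function.Injective (algebraMap ℤ R) :=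
      IsLocalization.injective R (Submonoid.powers_le.2 (mem_nonZeroDivisors_of_ne_zero
        (Nat.cast_ne_zero.2 hN)))
    exact one_ne_zero (h2 (by rw [map_one, map_zero, h1]))
  have hΛ1 : (1 : Λ) ≠ 0 := by
    intro h1
    exact hR1 (Q.inj (by rw [map_one, map_zero, h1]))
  have hv : Um (Sum.elim a c) := ⟨Sum.elim x w, by
    rw [sumElim_dotProduct_sumElim]; exact h⟩
  have hne : Sum.elim a c ≠ 0 := by
    intro h0
    obtain ⟨r, hr⟩ := hv
    rw [h0, dotProduct_zero] at hr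
    exact hΛ1 hr.symm
  obtain ⟨e1, he1, a1, c1, h1, h10⟩ := head_ne_zero a c hne
  have hv1 : Um (Sum.elim a1 c1) := h1 ▸ hv.mul e1
  have hn1 : Q.n (a1 0) ≠ 0 := by
    intro h0
    have h2 := Q.mul_conj (a1 0)
    rw [h0, map_zero] at h2
    rcases mul_eq_zero.1 h2 with h3 | h3
    · exact h10 h3
    · apply h10
      have h4 : star (a1 0) = 0 := by rw [hQ]; exact h3
      exact star_eq_zero.1 h4
  obtain ⟨r, hr⟩ := hv1
  set x1 : Fin (k + 2) → Λ := r ∘ Sum.inl with hx1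
  set w1 : Fin (k + 2) → Λ := r ∘ Sum.inr with hw1
  have hr' : ∑ j, x1 j * a1 j + ∑ j, w1 j * c1 j = 1 := by
    rw [← hr]
    change _ = ∑ i, r i * Sum.elim a1 c1 i
    rw [Fintype.sum_sum_type]
    rfl
  set β : Λ := ∑ j : Fin k, x1 j.succ.succ * a1 j.succ.succ +
    ∑ j : Fin k, w1 j.succ.succ * c1 j.succ.succ with hβ
  have h2 : x1 0 * a1 0 + x1 1 * a1 1 + w1 0 * c1 0 + w1 1 * c1 1 + β = 1 := by
    rw [← hr', Fin.sum_univ_succ, Fin.sum_univ_succ, Fin.sum_univ_succ (fun j => w1 j * c1 j),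
      Fin.sum_univ_succ (fun j : Fin (k + 1) => w1 j.succ * c1 j.succ), hβ, Fin.succ_zero_eq_one]
    abel
  obtain ⟨t, x0', x1', w0', w1', h3⟩ := absorb hN Q _ _ _ _ β _ _ _ _ hn1 h2
  obtain ⟨e2, he2, a2, c2, μ, h4, h5, h6, h7, h8⟩ :=
    gatherE (ε := -1) (by norm_num) (fun j => t * x1 j.succ.succ) (fun j => t * w1 j.succ.succ) a1 c1
  have h9 : a2 1 = a1 1 + t * β + μ * c1 1 := by
    rw [h6, hβ, mul_add, Finset.mul_sum, Finset.mul_sum]
    simp only [mul_assoc]
    abel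
  obtain ⟨y, s, -, u, v, h11⟩ := two_planesD hN Q (a2 0) (a2 1) (c2 0) (c2 1) x0' x1' w0'
    (w1' - x1' * μ) (by rw [h5]; exact hn1) (by
      rw [← h3, h5, h7, h8, h9]
      noncomm_ring)
  have h01 : (0 : Fin (k + 2)) ≠ 1 := by simp
  have hs : Star.star (s : Λ) = (s : Λ) := star_intCast s
  refine ⟨up (Matrix.single 1 1 (s : Λ)) * (lev (el 0 1 h01 y) * (e2 * e1)), ?_,
    _, _, u, v, by
      rw [val_mul_mulVec, val_mul_mulVec, val_mul_mulVec, h1, h4, lev_el_mulVec, up_mulVec], ?_⟩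
  · exact ball_mul (up_mem_ball (Sk_diag 1 hs)) (ball_mul (lev_mem_ball _ _ _ _)
      (ball_mul he2 he1))
  · rw [Pi.add_apply, Pi.add_apply, Function.update_self, Matrix.single_mulVec,
      Function.update_of_ne h01, Function.update_of_ne h01.symm, Function.update_self,
      Function.update_self, hQ]
    simp only [Pi.zero_apply, add_zero]
    exact h11

end BWC
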