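import Pool.Agent.BWC.TClaim
import Pool.Agent.BW.TMem

/-!
# Bounded width, type `D`: `SL₂` of the centre

Every isometry (`ε = -1`) of one hyperbolic plane whose first column is central is elementary in
three planes (product rings).
-/

namespace BWC

open Matrix
open BW hiding star

/-! ### Dirichlet -/

theorem exists_prime_linear {N : ℕ} (hN : N ≠ 0) {R : Type*} [CommRing R]
    [IsLocalization.Away (N : ℤ) R] (α γ : R) (hγ : γ ≠ 0) (h : IsCoprime α γ) :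
    ∃ (p : ℕ) (k : R), p.Prime ∧ 5 ≤ p ∧ ¬ p ∣ N ∧ (p : R) = α + k * γ := by
  obtain ⟨u, M, hM, hMN, hu⟩ := Loc.exists_unit_mul hN hγ
  obtain ⟨ψ, hψ⟩ := Choice.exists_psi R hMN
  obtain ⟨x, y, hxy⟩ := h
  have h0 : ψ γ = 0 := by rw [hu, map_mul, map_natCast, ZMod.natCast_self, mul_zero]
  have h1 : IsUnit (ψ α) := by
    refine IsUnit.of_mul_eq_one (ψ x) ?_
    rw [← map_mul, mul_comm α x]
    have h2 := congrArg ψ hxy
    rw [map_add, map_mul ψ y, h0, mul_zero, add_zero, map_one] at h2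
    exact h2
  have : NeZero M := ⟨hM.ne'⟩
  obtain ⟨p, hpB, hp, hpe⟩ := Nat.forall_exists_prime_gt_and_eq_mod h1 (5 + N)
  have h2 : ψ ((p : R) - α) = 0 := by rw [map_sub, map_natCast, hpe, sub_self]
  obtain ⟨r, hr⟩ := hψ _ h2
  refine ⟨p, (u⁻¹ : Rˣ) * r, hp, by omega, fun hd => ?_, ?_⟩
  · have := Nat.le_of_dvd (Nat.pos_of_ne_zero hN) hd
    omega
  · rw [hu]
    have h3 : ((u⁻¹ : Rˣ) : R) * r * (u * (M : R)) = (M : R) * r := by
      have : ((u⁻¹ : Rˣ) : R) * (u : R) = 1 := by simp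
      linear_combination ((M : R) * r) * this
    rw [h3, ← hr]
    ring

section SL

variable {ι : Type*} {N : ι → ℕ} {R Λ : ι → Type*} [∀ i, CommRing (R i)] [∀ i, Ring (Λ i)]
  [∀ i, Algebra (R i) (Λ i)] (Q : ∀ i, QAlg (N i) (R i) (Λ i))

/-- the matrices `UU` are in `H` -/
theorem UU_mem_H [∀ i, IsLocalization.Away (N i : ℤ) (R i)] (hN : ∀ i, N i ≠ 0)
    (x : ∀ i, Λ i) (r α β : ∀ i, R i) (h : α * nn Q x + β * r = 1) :
    UU Q x r α β h ∈ H (∀ i, Λ i) := by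
  have d := (UU_data Q x r α β h).mul_W
  have e : (-(cen r) : ∀ i, Λ i) = cen (-r) := by
    funext i
    exact (map_neg (algebraMap (R i) (Λ i)) (r i)).symm
  rw [e] at d
  exact (Subgroup.mul_mem_cancel_right _ W_mem).1 (ttype_mem hN Q _ x (-r) d)

/-- matrices with central entries -/
def sl (α β γ δ : ∀ i, R i) (h : α * δ - β * γ = 1) :
    (Matrix (Unit ⊕ Unit) (Unit ⊕ Unit) (∀ i, Λ i))ˣ where
  val := Matrix.fromBlocks (cst (cen α)) (cst (cen β)) (cst (cen γ)) (cst (cen δ))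
  inv := Matrix.fromBlocks (cst (cen δ)) (cst (cen (-β))) (cst (cen (-γ))) (cst (cen α))
  val_inv := by
    have e1 : α * δ + β * -γ = 1 := by rw [← h]; ring
    have e2 : α * -β + β * α = 0 := by ring
    have e3 : γ * δ + δ * -γ = 0 := by ring
    have e4 : γ * -β + δ * α = 1 := by rw [← h]; ring
    have e0 : (cen (0 : ∀ i, R i) : ∀ i, Λ i) = 0 := by funext i; exact map_zero _
    rw [Matrix.fromBlocks_multiply]
    simp only [cst_mul, cst_add, ← cen_mul, ← cen_add]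
    rw [e1, e2, e3, e4, cen_one, e0, cst_one, cst_zero, Matrix.fromBlocks_one]
  inv_val := by
    have e1 : δ * α + -β * γ = 1 := by rw [← h]; ring
    have e2 : δ * β + -β * δ = 0 := by ring
    have e3 : -γ * α + α * γ = 0 := by ring
    have e4 : -γ * β + α * δ = 1 := by rw [← h]; ring
    have e0 : (cen (0 : ∀ i, R i) : ∀ i, Λ i) = 0 := by funext i; exact map_zero _
    rw [Matrix.fromBlocks_multiply]
    simp only [cst_mul, cst_add, ← cen_mul, ← cen_add]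
    rw [e1, e2, e3, e4, cen_one, e0, cst_one, cst_zero, Matrix.fromBlocks_one]

variable [∀ i, StarRing (Λ i)] (hQ : ∀ i x, star x = (Q i).conj x)

include hQ in
theorem sl_mem_UG (α β γ δ : ∀ i, R i) (h : α * δ - β * γ = 1) :
    (sl α β γ δ h : (Matrix (Unit ⊕ Unit) (Unit ⊕ Unit) (∀ i, Λ i))ˣ) ∈
      UG (-1) Unit (∀ i, Λ i) := by
  have hv : (sl α β γ δ h : (Matrix (Unit ⊕ Unit) (Unit ⊕ Unit) (∀ i, Λ i))ˣ).val =
    Matrix.fromBlocks (cst (cen α)) (cst (cen β)) (cst (cen γ)) (cst (cen δ)) := rfl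
  rw [mem_UG_blocks hv]
  have hneg : ∀ x : ∀ i, R i, (-1 : ℤ) • cst (cen x : ∀ i, Λ i) = cst (cen (-x)) := by
    intro x
    rw [neg_smul, one_smul]
    ext i j k
    exact (map_neg (algebraMap (R k) (Λ k)) (x k)).symm
  simp only [cst_conjTranspose, star_cen Q hQ, cst_mul, ← cen_mul, hneg, cst_add, ← cen_add]
  have e0 : (cen (0 : ∀ i, R i) : ∀ i, Λ i) = 0 := by funext i; exact map_zero _
  refine ⟨?_, ?_, ?_, ?_⟩
  · rw [← cst_zero, ← e0]; congr 2; ring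
  · rw [← cst_one, ← cen_one (R := R)]; congr 2; rw [← h]; ring
  · rw [← cst_one, ← cen_one (R := R), hneg]; congr 2; rw [← h]; ring
  · rw [← cst_zero, ← e0]; congr 2; ring

theorem mem_EU_of_one' {ε : ℤ} {P : Type*} [Ring P] [StarRing P]
    (g : (Matrix (Unit ⊕ Unit) (Unit ⊕ Unit) P)ˣ) (hg : g ∈ UG ε Unit P)
    (h1 : g.val (Sum.inl ()) (Sum.inl ()) = 1) (h2 : g.val (Sum.inr ()) (Sum.inl ()) = 0) :
    g ∈ EU ε Unit P := by
  refine Subgroup.mem_sup_left (mem_UP_of_col hg fun x j => ?_)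
  rcases x with x | x
  · rw [h1]; simp
  · rw [h2]; simp

include hQ in
theorem Sk_cen (r : ∀ i, R i) : Sk (-1) (cst (cen r : ∀ i, Λ i)) := by
  unfold Sk
  rw [cst_conjTranspose, star_cen Q hQ, neg_smul, one_smul, neg_neg]

include hQ in
/-- `{p; 1 + p t} = 1` -/
theorem mem_EU_of_congr (g : (Matrix (Unit ⊕ Unit) (Unit ⊕ Unit) (∀ i, Λ i))ˣ)
    (hg : g ∈ UG (-1) Unit (∀ i, Λ i)) (r t : ∀ i, R i)
    (h1 : g.val (Sum.inl ()) (Sum.inl ()) = cen r)
    (h2 : g.val (Sum.inr ()) (Sum.inl ()) = cen (1 + r * t)) : g ∈ EU (-1) Unit (∀ i, Λ i) := by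
  have hε : (-1 : ℤ) * (-1) = 1 := by norm_num
  have s1 := Sk_cen Q hQ (-t)
  have s2 := Sk_cen Q hQ (1 - r)
  have s3 := Sk_cen Q hQ (-1 : ∀ i, R i)
  obtain ⟨g1, hg1⟩ : ∃ g1, g1 = lo (cst (cen (-t))) * g := ⟨_, rfl⟩
  have u1 : g1 ∈ UG (-1) Unit (∀ i, Λ i) := by rw [hg1]; exact mul_mem (lo_mem_UG hε s1) hg
  have a1 : g1.val (Sum.inl ()) (Sum.inl ()) = cen r := by rw [hg1, lo_mul_inl, h1]
  have c1 : g1.val (Sum.inr ()) (Sum.inl ()) = cen (1 : ∀ i, R i) := by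
    rw [hg1, lo_mul_inr, h1, h2, ← cen_mul, ← cen_add]; congr 1; ring
  obtain ⟨g2, hg2⟩ : ∃ g2, g2 = up (cst (cen (1 - r))) * g1 := ⟨_, rfl⟩
  have u2 : g2 ∈ UG (-1) Unit (∀ i, Λ i) := by rw [hg2]; exact mul_mem (up_mem_UG s2) u1
  have a2 : g2.val (Sum.inl ()) (Sum.inl ()) = cen (1 : ∀ i, R i) := by
    rw [hg2, up_mul_inl, a1, c1, ← cen_mul, ← cen_add]; congr 1; ring
  have c2 : g2.val (Sum.inr ()) (Sum.inl ()) = cen (1 : ∀ i, R i) := by rw [hg2, up_mul_inr, c1]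
  obtain ⟨g3, hg3⟩ : ∃ g3, g3 = lo (cst (cen (-1 : ∀ i, R i))) * g2 := ⟨_, rfl⟩
  have u3 : g3 ∈ UG (-1) Unit (∀ i, Λ i) := by rw [hg3]; exact mul_mem (lo_mem_UG hε s3) u2
  have a3 : g3.val (Sum.inl ()) (Sum.inl ()) = 1 := by rw [hg3, lo_mul_inl, a2, cen_one]
  have c3 : g3.val (Sum.inr ()) (Sum.inl ()) = 0 := by
    rw [hg3, lo_mul_inr, a2, c2, ← cen_mul, ← cen_add]
    have : (1 : ∀ i, R i) + -1 * 1 = 0 := by ring
    rw [this]
    funext i
    exact map_zero _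
  have h3 := mem_EU_of_one' g3 u3 a3 c3
  rw [hg3] at h3
  have h4 := (Subgroup.mul_mem_cancel_left _ (lo_mem s3)).1 h3
  rw [hg2] at h4
  have h5 := (Subgroup.mul_mem_cancel_left _ (up_mem s2)).1 h4
  rw [hg1] at h5
  exact (Subgroup.mul_mem_cancel_left _ (lo_mem s1)).1 h5

omit [∀ i, StarRing (Λ i)] in
include Q in
/-- the entries of a central column are coprime -/
theorem coprime_col (g : (Matrix (Unit ⊕ Unit) (Unit ⊕ Unit) (∀ i, Λ i))ˣ) (α γ : ∀ i, R i)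
    (h1 : g.val (Sum.inl ()) (Sum.inl ()) = cen α)
    (h2 : g.val (Sum.inr ()) (Sum.inl ()) = cen γ) (i : ι) : IsCoprime (α i) (γ i) := by
  have h : g⁻¹.val (Sum.inl ()) (Sum.inl ()) * cen α +
      g⁻¹.val (Sum.inl ()) (Sum.inr ()) * cen γ = 1 := by
    have h3 : (g⁻¹.val * g.val) (Sum.inl ()) (Sum.inl ()) = 1 := by
      rw [← Units.val_mul, inv_mul_cancel]; simp
    rw [← h3, Matrix.mul_apply, Fintype.sum_sum_type, ← h1, ← h2]
    simp
  obtain ⟨f, hf⟩ := (Q i).one_prim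
  have h4 := congrFun h i
  have h5 : α i • (g⁻¹.val (Sum.inl ()) (Sum.inl ()) i) +
      γ i • (g⁻¹.val (Sum.inl ()) (Sum.inr ()) i) = (1 : Λ i) := by
    rw [Algebra.smul_def, Algebra.smul_def, Algebra.commutes, Algebra.commutes]
    exact h4
  have h6 := congrArg f h5
  rw [map_add, map_smul, map_smul, smul_eq_mul, smul_eq_mul, hf] at h6
  exact ⟨f (g⁻¹.val (Sum.inl ()) (Sum.inl ()) i), f (g⁻¹.val (Sum.inl ()) (Sum.inr ()) i), by
    rw [← h6]; ring⟩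

include hQ in
theorem sl_claim [∀ i, IsLocalization.Away (N i : ℤ) (R i)] (hN : ∀ i, N i ≠ 0)
    {n : Type*} [DecidableEq n] [Fintype n] (hn : 3 ≤ Fintype.card n) (x0 : n)
    (g : (Matrix (Unit ⊕ Unit) (Unit ⊕ Unit) (∀ i, Λ i))ˣ) (hg : g ∈ UG (-1) Unit (∀ i, Λ i))
    (α γ : ∀ i, R i) (h1 : g.val (Sum.inl ()) (Sum.inl ()) = cen α)
    (h2 : g.val (Sum.inr ()) (Sum.inl ()) = cen γ) : embU (pt x0) g ∈ EU (-1) n (∀ i, Λ i) := by
  classical
  have hε : (-1 : ℤ) * (-1) = 1 := by norm_num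
  have hcop := coprime_col Q g α γ h1 h2
  -- make `γ` non-zero
  obtain ⟨t0, ht0⟩ : ∃ t0 : ∀ i, R i, ∀ i, γ i + t0 i * α i ≠ 0 := by
    refine ⟨fun i => if γ i = 0 then 1 else 0, fun i => ?_⟩
    have := Loc.charZero (N i) (R i) (hN i)
    dsimp only
    split_ifs with h
    · rw [h, zero_add, one_mul]
      intro h3
      have h4 := hcop i
      rw [h, h3] at h4
      obtain ⟨x, y, h5⟩ := h4
      rw [mul_zero, mul_zero, add_zero] at h5
      exact zero_ne_one h5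
    · rwa [zero_mul, add_zero]
  obtain ⟨γ', hγ'⟩ : ∃ γ', γ' = γ + t0 * α := ⟨_, rfl⟩
  have hcop' : ∀ i, IsCoprime (α i) (γ' i) := by
    intro i
    rw [hγ']
    change IsCoprime (α i) (γ i + t0 i * α i)
    exact (hcop i).add_mul_right_right _
  choose p k hp h5 hpN hpk using fun i => exists_prime_linear (hN i) (α i) (γ' i)
    (by rw [hγ']; exact ht0 i) (hcop' i)
  have : ∀ i, Fact (p i).Prime := fun i => ⟨hp i⟩
  have s1 := Sk_cen Q hQ t0
  have s2 := Sk_cen Q hQ k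
  obtain ⟨g1, hg1⟩ : ∃ g1, g1 = up (cst (cen k)) * (lo (cst (cen t0)) * g) := ⟨_, rfl⟩
  have hg1' : g1 ∈ UG (-1) Unit (∀ i, Λ i) := by
    rw [hg1]; exact mul_mem (up_mem_UG s2) (mul_mem (lo_mem_UG hε s1) hg)
  have c0 : (lo (cst (cen t0)) * g).val (Sum.inr ()) (Sum.inl ()) = cen γ' := by
    rw [lo_mul_inr, h1, h2, ← cen_mul, ← cen_add, hγ']
  have a1 : g1.val (Sum.inl ()) (Sum.inl ()) = cen (pc R p) := by
    rw [hg1, up_mul_inl, lo_mul_inl, c0, h1, ← cen_mul, ← cen_add]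
    congr 1
    funext i
    exact (hpk i).symm
  have c1 : g1.val (Sum.inr ()) (Sum.inl ()) = cen γ' := by rw [hg1, up_mul_inr, c0]
  have key : embU (pt x0) g1 ∈ EU (-1) n (∀ i, Λ i) := by
    have hcop1 := coprime_col Q g1 (pc R p) γ' a1 c1
    choose ρ hs hk hd using fun i => (Q i).fibre (p i) (hp i) (hpN i)
    have hphi : ∀ i, Loc.phi (N i) (R i) (hp i) (hpN i) (p i : R i) = 0 := by
      intro i
      rw [Loc.phi_eq_zero_iff]
    have hg0 : ∀ i, Loc.phi (N i) (R i) (hp i) (hpN i) (γ' i) ≠ 0 := by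
      intro i h0
      obtain ⟨x, y, hxy⟩ := hcop1 i
      have h3 := congrArg (Loc.phi (N i) (R i) (hp i) (hpN i)) hxy
      change Loc.phi (N i) (R i) (hp i) (hpN i) (x * (p i : R i) + y * γ' i) = _ at h3
      rw [map_add, map_mul, map_mul, hphi, h0, mul_zero, mul_zero, add_zero, map_one] at h3
      exact zero_ne_one h3
    choose W hW using fun i => hs i
      !![(Loc.phi (N i) (R i) (hp i) (hpN i) (γ' i))⁻¹, 0; 0, 1]
    have hWn : ∀ i, ∃ t : R i, (Q i).n (W i) * γ' i = 1 + (p i : R i) * t := by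
      intro i
      have h3 : Loc.phi (N i) (R i) (hp i) (hpN i) ((Q i).n (W i) * γ' i - 1) = 0 := by
        rw [map_sub, map_mul, map_one, ← Choice.det_rho (Q i) (hp i) (hpN i) (ρ i) (hd i), hW i,
          Matrix.det_fin_two_of, mul_one, mul_zero, sub_zero, inv_mul_cancel₀ (hg0 i), sub_self]
      obtain ⟨t, ht⟩ := (Loc.phi_eq_zero_iff (hp i) (hpN i) _).1 h3
      exact ⟨t, by rw [← ht]; ring⟩
    choose t ht using hWn
    have hrel : γ' * nn Q W + (-t) * pc R p = 1 := by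
      funext i
      change γ' i * (Q i).n (W i) + -(t i) * (p i : R i) = 1
      linear_combination ht i
    have hUH := UU_mem_H Q hN W (pc R p) γ' (-t) hrel
    obtain ⟨A, hA⟩ : ∃ A, A = UU Q W (pc R p) γ' (-t) hrel := ⟨_, rfl⟩
    rw [← hA] at hUH
    have A00 : A.val 0 0 = cen (pc R p) := by rw [hA]; rfl
    have A01 : A.val 0 1 = W := by rw [hA]; rfl
    have A11' : A⁻¹.val 1 1 = cen (pc R p) := by rw [hA]; rfl
    have A01' : A⁻¹.val 0 1 = -W := by rw [hA]; rfl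
    have hdet : pc R p * (-t) - (-1) * (1 + pc R p * t) = 1 := by ring
    obtain ⟨g', hg'⟩ : ∃ g', g' = (sl (pc R p) (-1) (1 + pc R p * t) (-t) hdet :
      (Matrix (Unit ⊕ Unit) (Unit ⊕ Unit) (∀ i, Λ i))ˣ) := ⟨_, rfl⟩
    have hg'U : g' ∈ UG (-1) Unit (∀ i, Λ i) := by rw [hg']; exact sl_mem_UG Q hQ _ _ _ _ _
    have a2 : g'.val (Sum.inl ()) (Sum.inl ()) = cen (pc R p) := by rw [hg']; rfl
    have c2 : g'.val (Sum.inr ()) (Sum.inl ()) = cen (1 + pc R p * t) := by rw [hg']; rfl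
    obtain ⟨E1, hE1, E2, hE2, hr⟩ := rel hε A g1 g' hg1' hg'U (by rw [a1, A00])
      (by rw [a2, A11']) (by
        rw [c2, c1, A01, A01', neg_neg]
        funext i
        change algebraMap (R i) (Λ i) (1 + (p i : R i) * t i) =
          star (W i) * algebraMap (R i) (Λ i) (γ' i) * W i
        rw [← ht i, hQ, ← Algebra.commutes, mul_assoc, (Q i).conj_mul_self, ← map_mul, mul_comm])
    have hg'E := mem_EU_of_congr Q hQ g' hg'U _ _ a2 c2
    obtain ⟨e⟩ : Nonempty (Fin 3 ↪ n) :=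
      Function.Embedding.nonempty_of_card_le (by simpa using hn)
    obtain ⟨ψ, hψ⟩ : ∃ ψ : Fin 3 ↪ n, ψ 0 = x0 :=
      ⟨e.trans (Equiv.swap (e 0) x0).toEmbedding, by simp⟩
    let φ : Fin 2 ↪ n := (Fin.castLEEmb (by decide : 2 ≤ 3)).trans ψ
    have hφ : (pt (0 : Fin 2)).trans φ = pt x0 := by
      ext u
      exact hψ
    have hAE : embL φ A ∈ E n (∀ i, Λ i) := by
      have h3 : embL φ A = embL ψ (K A) := by
        rw [← embL_c2, embL_embL]
      rw [h3]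
      exact embL_mem_E ψ (mem_H.1 hUH)
    have h3 := congrArg (embU φ) hr
    rw [embU_embU, hφ, map_mul, map_mul, map_mul, embU_lev, embU_embU] at h3
    rw [h3, ← EUL_eq hε hn]
    exact mul_mem (mul_mem (mul_mem (lev_mem hAE) (embU_mem_EUL φ hE1))
      (EU_le_EUL (embU_mem_EU _ hg'E))) (embU_mem_EUL φ hE2)
  rw [hg1, map_mul, map_mul] at key
  exact (Subgroup.mul_mem_cancel_left _ (embU_mem_EU _ (lo_mem s1))).1
    ((Subgroup.mul_mem_cancel_left _ (embU_mem_EU _ (up_mem s2))).1 key)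

end SL

end BWC
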