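import Pool.Agent.BWD.Complete
import Pool.Agent.BWD.Formal
import Pool.Agent.BWD.SL
import Pool.Agent.BWD.Reach
import Pool.Agent.BWC.Fam

/-!
# Bounded width, type `D`: families over the product ring
-/

namespace BWC

open Matrix
open BW hiding star

section Gen

variable {ε : ℤ} {n P : Type*} [DecidableEq n] [Fintype n] [Ring P] [StarRing P]

/-- `lev A` normalizes the elementary group -/
theorem lev_conj_mem (A : (Matrix n n P)ˣ) {g : (Matrix (n ⊕ n) (n ⊕ n) P)ˣ}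
    (hg : g ∈ EU ε n P) : lev A * g * (lev A)⁻¹ ∈ EU ε n P := by
  have h1 : A.val * A⁻¹.val = 1 := by rw [← Units.val_mul, mul_inv_cancel, Units.val_one]
  have h2 : (A⁻¹.val)ᴴ * A.valᴴ = 1 := by
    rw [← Matrix.conjTranspose_mul, h1, Matrix.conjTranspose_one]
  have hinv : ((lev A)⁻¹).val = Matrix.fromBlocks A⁻¹.val 0 0 (A.val)ᴴ := rfl
  have key : EU ε n P ≤ (EU ε n P).comap (MulAut.conj (lev A)).toMonoidHom := by
    refine sup_le ?_ ?_
    · rintro _ ⟨B, hB, rfl⟩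
      change lev A * up B * (lev A)⁻¹ ∈ EU ε n P
      have e : lev A * up B * (lev A)⁻¹ = up (A.val * B * A.valᴴ) := by
        ext1
        rw [Units.val_mul, Units.val_mul, hinv, lev_val, up_val, up_val,
          Matrix.fromBlocks_multiply, Matrix.fromBlocks_multiply]
        simp [h1, h2]
      rw [e]
      refine up_mem ?_
      unfold Sk at *
      rw [Matrix.conjTranspose_mul, Matrix.conjTranspose_mul, Matrix.conjTranspose_conjTranspose,
        hB, Matrix.neg_mul, Matrix.mul_neg, ← Matrix.mul_assoc, Matrix.mul_smul, Matrix.smul_mul]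
    · rintro _ ⟨B, hB, rfl⟩
      change lev A * lo B * (lev A)⁻¹ ∈ EU ε n P
      have e : lev A * lo B * (lev A)⁻¹ = lo ((A⁻¹.val)ᴴ * B * A⁻¹.val) := by
        ext1
        rw [Units.val_mul, Units.val_mul, hinv, lev_val, lo_val, lo_val,
          Matrix.fromBlocks_multiply, Matrix.fromBlocks_multiply]
        simp [h1, h2]
      rw [e]
      refine lo_mem ?_
      unfold Sk at *
      rw [Matrix.conjTranspose_mul, Matrix.conjTranspose_mul, Matrix.conjTranspose_conjTranspose,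
        hB, Matrix.neg_mul, Matrix.mul_neg, ← Matrix.mul_assoc, Matrix.mul_smul, Matrix.smul_mul]
  exact key hg

/-- the columns of an isometry are isotropic -/
theorem col_iso {g : (Matrix (n ⊕ n) (n ⊕ n) P)ˣ} (hg : g ∈ UG ε n P) (j : n) :
    ∑ i, star (g.val (Sum.inl i) (Sum.inl j)) * g.val (Sum.inr i) (Sum.inl j) +
      ε • ∑ i, star (g.val (Sum.inr i) (Sum.inl j)) * g.val (Sum.inl i) (Sum.inl j) = 0 := by
  have hb : g.val = Matrix.fromBlocks g.val.toBlocks₁₁ g.val.toBlocks₁₂ g.val.toBlocks₂₁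
    g.val.toBlocks₂₂ := (Matrix.fromBlocks_toBlocks _).symm
  obtain ⟨h1, -, -, -⟩ := (mem_UG_blocks hb).1 hg
  have e1 := congrFun (congrFun h1 j) j
  rw [Matrix.add_apply, Matrix.smul_apply, Matrix.mul_apply, Matrix.mul_apply,
    Matrix.zero_apply] at e1
  simpa only [Matrix.conjTranspose_apply, Matrix.toBlocks₁₁, Matrix.toBlocks₂₁, Matrix.of_apply]
    using e1

omit [StarRing P] in
theorem col_uni (g : (Matrix (n ⊕ n) (n ⊕ n) P)ˣ) (j : n) :
    ∑ i, g⁻¹.val (Sum.inl j) (Sum.inl i) * g.val (Sum.inl i) (Sum.inl j) +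
      ∑ i, g⁻¹.val (Sum.inl j) (Sum.inr i) * g.val (Sum.inr i) (Sum.inl j) = 1 := by
  have h2 : (g⁻¹.val * g.val) (Sum.inl j) (Sum.inl j) = 1 := by
    rw [← Units.val_mul, inv_mul_cancel]; simp
  rw [← h2, Matrix.mul_apply, Fintype.sum_sum_type]

omit [StarRing P] in
/-- the first column of a product -/
theorem col_mul (e g : (Matrix (n ⊕ n) (n ⊕ n) P)ˣ) (j : n) :
    (fun s => (e * g).val s (Sum.inl j)) = e.val *ᵥ Sum.elim (fun i => g.val (Sum.inl i) (Sum.inl j))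
      (fun i => g.val (Sum.inr i) (Sum.inl j)) := by
  funext s
  rw [Units.val_mul, Matrix.mul_apply, Matrix.mulVec, dotProduct, Fintype.sum_sum_type,
    Fintype.sum_sum_type]
  rfl

end Gen

section FamD

variable {ι : Type*} {N : ι → ℕ} {R Λ : ι → Type} [∀ i, CommRing (R i)]
  [∀ i, IsLocalization.Away (N i : ℤ) (R i)] [∀ i, Ring (Λ i)] [∀ i, StarRing (Λ i)]
  [∀ i, Algebra (R i) (Λ i)] [∀ i, Module.Free (R i) (Λ i)] [∀ i, Module.Finite (R i) (Λ i)]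
  [∀ i, NoZeroDivisors (Λ i)]

/-- REACH over the product ring -/
theorem reachD_fam (hN : ∀ i, N i ≠ 0) (Q : ∀ i, QAlg (N i) (R i) (Λ i))
    (hQ : ∀ i x, star x = (Q i).conj x) (k : ℕ)
    (g : (Matrix (Fin (k + 2) ⊕ Fin (k + 2)) (Fin (k + 2) ⊕ Fin (k + 2)) (∀ i, Λ i))ˣ) :
    ∃ e ∈ EUL (-1) (Fin (k + 2)) (∀ i, Λ i), ∃ u v : ∀ i, Λ i,
      u * (e * g).val (Sum.inl 0) (Sum.inl 0) + v * (e * g).val (Sum.inl 1) (Sum.inl 0) = 1 := by
  obtain ⟨K, hK⟩ := reachD k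
  choose y hy a' c' u v h1 h2 using fun i => hK (N i) (R i) (Λ i) (hN i) (Q i) (hQ i) _ _ _ _
    (col_uni (comp i g) 0)
  obtain ⟨x, hx, hxy⟩ := ball_pi K y hy
  refine ⟨x, hx, u, v, ?_⟩
  have h3 : ∀ (i : ι) (s : Fin (k + 2)), (x * g).val (Sum.inl s) (Sum.inl 0) i = a' i s := by
    intro i s
    have h4 := congrFun (col_mul (comp i x) (comp i g) 0) (Sum.inl s)
    have h5 := congrFun (h1 i) (Sum.inl s)
    rw [← hxy i] at h5
    have h6 := h4.trans h5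
    rw [← map_mul] at h6
    exact h6
  funext i
  change u i * (x * g).val (Sum.inl 0) (Sum.inl 0) i + v i * (x * g).val (Sum.inl 1) (Sum.inl 0) i
    = 1
  rw [h3, h3]
  exact h2 i

/-- removing one plane, three planes at least -/
theorem redD_step (hN : ∀ i, N i ≠ 0) (Q : ∀ i, QAlg (N i) (R i) (Λ i))
    (hQ : ∀ i x, star x = (Q i).conj x) (k : ℕ)
    (g : (Matrix (Fin (k + 3) ⊕ Fin (k + 3)) (Fin (k + 3) ⊕ Fin (k + 3)) (∀ i, Λ i))ˣ)
    (hg : g ∈ UG (-1) (Fin (k + 3)) (∀ i, Λ i)) :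
    ∃ e ∈ EUL (-1) (Fin (k + 3)) (∀ i, Λ i), ∃ g' ∈ UG (-1) (Fin (k + 2)) (∀ i, Λ i),
      e * g = embU (Fin.succEmb (k + 2)) g' := by
  have hε : (-1 : ℤ) * (-1) = 1 := by norm_num
  obtain ⟨x, hx, u, v, huv⟩ := reachD_fam hN Q hQ (k + 1) g
  have hxg := mul_mem (EUL_le_UG hε hx) hg
  obtain ⟨y, hy, h1⟩ := reach_three hε k _ _ u v huv (col_iso hxg 0)
  have hcol : ∀ s, (y * (x * g)).val s (Sum.inl 0) = (1 : Matrix (Fin (k + 2 + 1) ⊕
      Fin (k + 2 + 1)) (Fin (k + 2 + 1) ⊕ Fin (k + 2 + 1)) (∀ i, Λ i)) s (Sum.inl 0) := by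
    intro s
    have h2 := congrFun (col_mul y (x * g) 0) s
    rw [h1] at h2
    refine Eq.trans h2 ?_
    rw [Matrix.one_apply, Pi.single_apply]
  obtain ⟨e, he, g', hg', h⟩ := stab_step hε (y * (x * g))
    (mul_mem (EUL_le_UG hε hy) hxg) hcol
  refine ⟨e * (y * x), mul_mem he (mul_mem hy hx), g', hg', ?_⟩
  rw [← h]
  simp only [mul_assoc]

/-- two planes: up to a matrix of `GL₂` of the Levi subgroup one plane remains -/
theorem redD_two (hN : ∀ i, N i ≠ 0) (Q : ∀ i, QAlg (N i) (R i) (Λ i))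
    (hQ : ∀ i x, star x = (Q i).conj x)
    (g : (Matrix (Fin 2 ⊕ Fin 2) (Fin 2 ⊕ Fin 2) (∀ i, Λ i))ˣ)
    (hg : g ∈ UG (-1) (Fin 2) (∀ i, Λ i)) :
    ∃ e ∈ EUL (-1) (Fin 2) (∀ i, Λ i), ∃ e' ∈ EUL (-1) (Fin 2) (∀ i, Λ i),
      ∃ A : (Matrix (Fin 2) (Fin 2) (∀ i, Λ i))ˣ,
      ∃ g' ∈ UG (-1) Unit (∀ i, Λ i), e' * (lev A)⁻¹ * e * g = embU (pt 1) g' := by
  have hε : (-1 : ℤ) * (-1) = 1 := by norm_num
  obtain ⟨x, hx, u, v, huv⟩ := reachD_fam hN Q hQ 0 g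
  have hxg := mul_mem (EUL_le_UG hε hx) hg
  obtain ⟨C, hC, h1⟩ := kill_c hε _ _ (fun i => if i = 0 then u else v)
    (by rw [Fin.sum_univ_two]; exact huv) (col_iso hxg (0 : Fin 2))
  obtain ⟨g1, hg1⟩ : ∃ g1, g1 = lo C * (x * g) := ⟨_, rfl⟩
  have hg1U : g1 ∈ UG (-1) (Fin 2) (∀ i, Λ i) := by
    rw [hg1]; exact mul_mem (lo_mem_UG hε hC) hxg
  have hc0 : ∀ j, g1.val (Sum.inr j) (Sum.inl 0) = 0 := by
    intro j
    have h2 := congrFun (col_mul (lo C) (x * g) 0) (Sum.inr j)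
    rw [h1] at h2
    rw [hg1]
    exact h2
  choose A hA using fun i => complete (hN i) (Q i) (hQ i) (comp i g1) (comp_mem_UG i hg1U)
    (fun j => congrFun (hc0 j) i)
  obtain ⟨A', hA'⟩ : ∃ A', A' = famU A := ⟨_, rfl⟩
  have hA1 : ∀ j, A'.val j 0 = g1.val (Sum.inl j) (Sum.inl 0) := by
    intro j
    funext i
    rw [hA']
    exact hA i j
  have hcol : ∀ s, ((lev A')⁻¹ * g1).val s (Sum.inl 0) = (1 : Matrix (Fin (1 + 1) ⊕
      Fin (1 + 1)) (Fin (1 + 1) ⊕ Fin (1 + 1)) (∀ i, Λ i)) s (Sum.inl 0) := by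
    intro s
    have h2 := congrFun (col_mul (lev A')⁻¹ g1 0) s
    have hinv : ((lev A')⁻¹).val = Matrix.fromBlocks A'⁻¹.val 0 0 (A'.val)ᴴ := rfl
    refine Eq.trans h2 ?_
    rw [hinv, Matrix.fromBlocks_mulVec]
    have e1 : (fun i => g1.val (Sum.inr i) (Sum.inl 0)) = (0 : Fin 2 → ∀ i, Λ i) := by
      funext j; exact hc0 j
    have e2 : (fun i => g1.val (Sum.inl i) (Sum.inl 0)) = fun i => A'.val i 0 := by
      funext j; exact (hA1 j).symm
    have e3 : A'⁻¹.val *ᵥ (fun i => A'.val i 0) = fun i => (1 : Matrix (Fin 2) (Fin 2) _) i 0 := by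
      funext j
      have : (A'⁻¹.val * A'.val) j 0 = (1 : Matrix (Fin 2) (Fin 2) (∀ i, Λ i)) j 0 := by
        rw [← Units.val_mul, inv_mul_cancel, Units.val_one]
      rw [← this, Matrix.mul_apply]
      rfl
    have e4 : (Sum.elim (fun i => g1.val (Sum.inl i) (Sum.inl 0))
        (fun i => g1.val (Sum.inr i) (Sum.inl 0)) ∘ Sum.inl : Fin 2 → ∀ i, Λ i) =
        fun i => A'.val i 0 := e2
    have e5 : (Sum.elim (fun i => g1.val (Sum.inl i) (Sum.inl 0))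
        (fun i => g1.val (Sum.inr i) (Sum.inl 0)) ∘ Sum.inr : Fin 2 → ∀ i, Λ i) = 0 := e1
    rw [e4, e5, e3, Matrix.mulVec_zero, Matrix.mulVec_zero, Matrix.zero_mulVec]
    rcases s with s | s
    · simp [Matrix.one_apply]
    · simp
  obtain ⟨e, he, g', hg', h⟩ := stab_step (k := 1) hε ((lev A')⁻¹ * g1)
    (mul_mem (inv_mem (lev_mem_UG A')) hg1U) hcol
  refine ⟨lo C * x, mul_mem (EU_le_EUL (lo_mem hC)) hx, e, he, A',
    embU ⟨fun _ => (), fun a b _ => Subsingleton.elim a b⟩ g', embU_mem_UG _ hg', ?_⟩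
  have h2 : embU (pt (1 : Fin 2)) (embU ⟨fun _ => (), fun a b _ => Subsingleton.elim a b⟩ g') =
      embU (Fin.succEmb 1) g' := by
    rw [embU_embU]
    congr 1
  rw [h2, ← h, hg1]
  simp only [mul_assoc]

/-- one plane: up to the Levi subgroup everything is elementary -/
theorem redD_one (hN : ∀ i, N i ≠ 0) (Q : ∀ i, QAlg (N i) (R i) (Λ i))
    (hQ : ∀ i x, star x = (Q i).conj x) {n : Type*} [DecidableEq n] [Fintype n]
    (hn : 3 ≤ Fintype.card n) (x0 : n)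
    (g : (Matrix (Unit ⊕ Unit) (Unit ⊕ Unit) (∀ i, Λ i))ˣ) (hg : g ∈ UG (-1) Unit (∀ i, Λ i)) :
    ∃ q : (Matrix Unit Unit (∀ i, Λ i))ˣ, ∃ e ∈ EU (-1) n (∀ i, Λ i),
      embU (pt x0) g = e * lev (embL (pt x0) q) := by
  choose α γ q h1 h2 using fun i => one_col (hN i) (Q i) (hQ i) (comp i g) (comp_mem_UG i hg)
  let q' : (Matrix Unit Unit (∀ i, Λ i))ˣ :=
    ⟨cst fun i => (q i).val, cst fun i => (q i)⁻¹.val, by
      rw [cst_mul, ← cst_one]; congr 1; funext i; exact (q i).mul_inv, by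
      rw [cst_mul, ← cst_one]; congr 1; funext i; exact (q i).inv_mul⟩
  refine ⟨q', embU (pt x0) (g * (lev q')⁻¹), ?_, ?_⟩
  · refine sl_claim Q hQ hN hn x0 _ (mul_mem hg (inv_mem (lev_mem_UG q'))) α γ ?_ ?_
    · have hinv : ((lev q')⁻¹).val = Matrix.fromBlocks q'⁻¹.val 0 0 (q'.val)ᴴ := rfl
      rw [Units.val_mul, hinv, Matrix.mul_apply, Fintype.sum_sum_type]
      simp only [Finset.univ_unique, PUnit.default_eq_unit, Finset.sum_singleton,
        Matrix.fromBlocks_apply₁₁, Matrix.fromBlocks_apply₂₁, Matrix.zero_apply, mul_zero, add_zero]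
      funext i
      change g.val (Sum.inl ()) (Sum.inl ()) i * (q i)⁻¹.val = _
      rw [show g.val (Sum.inl ()) (Sum.inl ()) i = _ from h1 i, mul_assoc, Units.mul_inv, mul_one]
      rfl
    · have hinv : ((lev q')⁻¹).val = Matrix.fromBlocks q'⁻¹.val 0 0 (q'.val)ᴴ := rfl
      rw [Units.val_mul, hinv, Matrix.mul_apply, Fintype.sum_sum_type]
      simp only [Finset.univ_unique, PUnit.default_eq_unit, Finset.sum_singleton,
        Matrix.fromBlocks_apply₁₁, Matrix.fromBlocks_apply₂₁, Matrix.zero_apply, mul_zero, add_zero]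
      funext i
      change g.val (Sum.inr ()) (Sum.inl ()) i * (q i)⁻¹.val = _
      rw [show g.val (Sum.inr ()) (Sum.inl ()) i = _ from h2 i, mul_assoc, Units.mul_inv, mul_one]
      rfl
  · rw [map_mul, map_inv, embU_lev, inv_mul_cancel_right]

/-- **reduction to the Levi subgroup**, type `D` -/
theorem redD (hN : ∀ i, N i ≠ 0) (Q : ∀ i, QAlg (N i) (R i) (Λ i))
    (hQ : ∀ i x, star x = (Q i).conj x) (k : ℕ)
    (g : (Matrix (Fin (k + 2) ⊕ Fin (k + 2)) (Fin (k + 2) ⊕ Fin (k + 2)) (∀ i, Λ i))ˣ)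
    (hg : g ∈ UG (-1) (Fin (k + 2)) (∀ i, Λ i)) :
    ∃ (φ : Fin 2 ↪ Fin (k + 2)), ∃ e ∈ EUL (-1) (Fin (k + 2)) (∀ i, Λ i),
      ∃ e' ∈ EUL (-1) (Fin (k + 2)) (∀ i, Λ i),
      ∃ A : (Matrix (Fin 2) (Fin 2) (∀ i, Λ i))ˣ, ∃ g' ∈ UG (-1) Unit (∀ i, Λ i),
        g = e * lev (embL φ A) * e' * embU (pt (φ 1)) g' := by
  induction k with
  | zero =>
    obtain ⟨e, he, e', he', A, g', hg', h⟩ := redD_two hN Q hQ g hg
    refine ⟨Function.Embedding.refl _, e⁻¹, inv_mem he, e'⁻¹, inv_mem he', A, g', hg', ?_⟩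
    have h1 : embL (Function.Embedding.refl (Fin 2)) A = A := by
      ext1
      change Pool.Agent.Helper24.BWR.emb (Function.Embedding.refl (Fin 2)) A.val = A.val
      rw [Pool.Agent.Helper24.BWR.emb_apply]
      have e1 : Pool.Agent.Helper24.BWR.pm (∀ i, Λ i) (Function.Embedding.refl (Fin 2)) = 1 := by
        ext a b
        simp [Pool.Agent.Helper24.BWR.pm, Matrix.one_apply]
      have e2 : Pool.Agent.Helper24.BWR.qm (∀ i, Λ i) (Function.Embedding.refl (Fin 2)) = 1 := by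
        ext a b
        simp [Pool.Agent.Helper24.BWR.qm, Matrix.one_apply, eq_comm]
      rw [e1, e2]
      simp
    rw [h1, Function.Embedding.refl_apply, ← h]
    group
  | succ k ih =>
    obtain ⟨e1, he1, g1, hg1, h1⟩ := redD_step hN Q hQ k g hg
    obtain ⟨φ, e, he, e', he', A, g', hg', h⟩ := ih g1 hg1
    refine ⟨φ.trans (Fin.succEmb (k + 2)), e1⁻¹ * embU (Fin.succEmb (k + 2)) e,
      mul_mem (inv_mem he1) (embU_mem_EUL _ he), embU (Fin.succEmb (k + 2)) e',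
      embU_mem_EUL _ he', A, g', hg', ?_⟩
    have h2 : g = e1⁻¹ * embU (Fin.succEmb (k + 2)) g1 := by rw [← h1]; group
    rw [h2, h, map_mul, map_mul, map_mul, embU_lev, embL_embL, embU_embU]
    simp only [mul_assoc]
    rfl

theorem redD' (hN : ∀ i, N i ≠ 0) (Q : ∀ i, QAlg (N i) (R i) (Λ i))
    (hQ : ∀ i x, star x = (Q i).conj x) (m : ℕ) (hm : 3 ≤ m)
    (g : (Matrix (Fin m ⊕ Fin m) (Fin m ⊕ Fin m) (∀ i, Λ i))ˣ)
    (hg : g ∈ UG (-1) (Fin m) (∀ i, Λ i)) :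
    ∃ (φ : Fin 2 ↪ Fin m), ∃ e ∈ EU (-1) (Fin m) (∀ i, Λ i),
      ∃ A : (Matrix (Fin 2) (Fin 2) (∀ i, Λ i))ˣ, g = e * lev (embL φ A) := by
  have hε : (-1 : ℤ) * (-1) = 1 := by norm_num
  obtain ⟨k, rfl⟩ : ∃ k, m = k + 2 := ⟨m - 2, by omega⟩
  have hn : 3 ≤ Fintype.card (Fin (k + 2)) := by simpa using hm
  obtain ⟨φ, e, he, e', he', A, g', hg', h⟩ := redD hN Q hQ k g hg
  rw [EUL_eq hε hn] at he he'
  obtain ⟨q, e'', he'', h2⟩ := redD_one hN Q hQ hn (φ 1) g' hg'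
  have h3 : embL (pt (φ 1)) q = embL φ (embL (pt 1) q) := by
    rw [embL_embL]; rfl
  refine ⟨φ, e * (lev (embL φ A) * (e' * e'') * (lev (embL φ A))⁻¹),
    mul_mem he (lev_conj_mem _ (mul_mem he' he'')), A * embL (pt 1) q, ?_⟩
  rw [h, h2, h3, map_mul, map_mul]
  group

end FamD

end BWC
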