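import Pool.Agent.BW.Nrd
import Mathlib.RingTheory.SimpleRing.Matrix

/-!
# The norm of `M₂(Λ)`
-/

namespace BWC

open Matrix
open BW hiding star

section Nrd2

variable {N : ℕ} {R Λ : Type*} [CommRing R] [IsLocalization.Away (N : ℤ) R] [Ring Λ] [Algebra R Λ]

omit [IsLocalization.Away (N : ℤ) R] [Ring Λ] [Algebra R Λ] [CommRing R] in
/-- if `A` is not scalar then `A ^ 2 - t A + n = 0` determines `t` and `n` -/
theorem ch_det {F : Type*} [Field F] (A : Matrix (Fin 2) (Fin 2) F) (t m : F)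
    (hA : ∀ c : F, A ≠ c • 1) (he : A * (t • 1 - A) = m • 1) : t = A.trace ∧ m = A.det := by
  have h1 : A * (A.trace • 1 - A) = A.det • (1 : Matrix (Fin 2) (Fin 2) F) := by
    have h := Matrix.mul_adjugate A
    have h0 : A.adjugate = A.trace • 1 - A := by
      rw [Matrix.adjugate_fin_two, Matrix.trace_fin_two]
      ext i j
      fin_cases i <;> fin_cases j <;> simp
    rwa [h0] at h
  have h2 : (t - A.trace) • A = (m - A.det) • (1 : Matrix (Fin 2) (Fin 2) F) := by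
    rw [sub_smul, sub_smul, ← h1, ← he, mul_sub, mul_sub, mul_smul_comm, mul_smul_comm, mul_one]
    abel
  have h3 : t = A.trace := by
    by_contra hne
    have h4 : t - A.trace ≠ 0 := sub_ne_zero.2 hne
    refine hA ((t - A.trace)⁻¹ * (m - A.det)) ?_
    rw [mul_smul, ← h2, smul_smul, inv_mul_cancel₀ h4, one_smul]
  refine ⟨h3, ?_⟩
  rw [h3] at h2
  rw [sub_self, zero_smul] at h2
  have := congrFun (congrFun h2 0) 0
  simp at this
  exact sub_eq_zero.1 this.symm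

omit [IsLocalization.Away (N : ℤ) R] in
/-- every ring homomorphism `Λ → M₂(𝔽_p)` has the kernel `p Λ` -/
theorem ker_any (Q : QAlg N R Λ) {p : ℕ} (hp : p.Prime) (hpN : ¬ p ∣ N)
    (ρ : Λ →+* Matrix (Fin 2) (Fin 2) (ZMod p)) (x : Λ) (hx : ρ x = 0) :
    ∃ y, x = (p : Λ) * y := by
  have hpF := Fact.mk hp
  obtain ⟨ρ₀, hs, hk, -⟩ := Q.fibre p hp hpN
  have hp0 : ((p : ℕ) : Matrix (Fin 2) (Fin 2) (ZMod p)) = 0 := by
    have h1 : ((p : ℕ) : Matrix (Fin 2) (Fin 2) (ZMod p)) =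
        algebraMap (ZMod p) (Matrix (Fin 2) (Fin 2) (ZMod p)) (p : ZMod p) := by
      rw [map_natCast]
    rw [h1, ZMod.natCast_self, map_zero]
  have hle : RingHom.ker ρ₀ ≤ RingHom.ker ρ := by
    intro z hz
    obtain ⟨y, rfl⟩ := hk z hz
    rw [RingHom.mem_ker, map_mul, map_natCast, hp0, zero_mul]
  obtain ⟨σ, hσ⟩ : ∃ σ : Matrix (Fin 2) (Fin 2) (ZMod p) →+* Matrix (Fin 2) (Fin 2) (ZMod p),
      ∀ z, σ (ρ₀ z) = ρ z := by
    refine ⟨ρ₀.liftOfRightInverse (Function.surjInv hs) (Function.rightInverse_surjInv hs) ⟨ρ, hle⟩,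
      fun z => ?_⟩
    exact RingHom.liftOfRightInverse_comp_apply ρ₀ _ (Function.rightInverse_surjInv hs) ⟨ρ, hle⟩ z
  have hinj : Function.Injective σ := RingHom.injective σ
  apply hk
  apply hinj
  rw [hσ, hx, map_zero]

/-- every ring homomorphism `Λ → M₂(𝔽_p)` is compatible with the trace and the norm -/
theorem both_any (Q : QAlg N R Λ) {p : ℕ} (hp : p.Prime) (hpN : ¬ p ∣ N)
    (ρ : Λ →+* Matrix (Fin 2) (Fin 2) (ZMod p)) (x : Λ) :
    Loc.phi N R hp hpN (Q.T x) = (ρ x).trace ∧ Loc.phi N R hp hpN (Q.n x) = (ρ x).det := by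
  have hpF := Fact.mk hp
  have hN : N ≠ 0 := by
    rintro rfl
    exact hpN (dvd_zero p)
  by_cases hA : ∀ c : ZMod p, ρ x ≠ c • 1
  · refine ch_det (ρ x) _ _ hA ?_
    rw [← Choice.rho_algebraMap hp hpN ρ, ← Choice.rho_algebraMap hp hpN ρ, ← Q.mul_conj, map_mul,
      Choice.conj_eq Q, map_sub]
  · push Not at hA
    obtain ⟨c, hc⟩ := hA
    have h0 : ρ (x - algebraMap R Λ (c.val : R)) = 0 := by
      rw [map_sub, Choice.rho_algebraMap hp hpN, hc, map_natCast, ZMod.natCast_zmod_val, sub_self]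
    obtain ⟨y, hy⟩ := ker_any Q hp hpN ρ _ h0
    have hy' : (p : Λ) * y = (p : R) • y := by rw [Algebra.smul_def, map_natCast]
    have hx : x = algebraMap R Λ (c.val : R) + (p : R) • y := by
      rw [← hy', ← hy]; abel
    have hTx : Q.T x = 2 * (c.val : R) + p * Q.T y := by
      rw [hx, map_add, Choice.T_algebraMap Q hN, map_smul, smul_eq_mul]
    have hnx : Q.n x = (c.val : R) ^ 2 + p * Q.T (algebraMap R Λ (c.val : R) * Q.conj y) +
        p ^ 2 * Q.n y := by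
      rw [hx, Choice.n_add_smul Q hN, Algebra.algebraMap_eq_smul_one, Choice.n_smul Q,
        Choice.n_one Q hN, mul_one]
    constructor
    · rw [hTx, hc]
      simp only [map_add, map_mul, map_natCast, map_ofNat, ZMod.natCast_self, zero_mul, add_zero,
        ZMod.natCast_zmod_val, Matrix.trace_smul, Matrix.trace_one, Fintype.card_fin]
      push_cast
      rw [smul_eq_mul]; ring
    · rw [hnx, hc]
      simp only [map_add, map_mul, map_pow, map_natCast, ZMod.natCast_self, zero_mul, add_zero,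
        ZMod.natCast_zmod_val, Matrix.det_smul, Matrix.det_one, Fintype.card_fin, mul_one,
        ne_eq, OfNat.ofNat_ne_zero, not_false_eq_true, zero_pow]

/-- every ring homomorphism `Λ → M₂(𝔽_p)` is compatible with the norm -/
theorem det_any (Q : QAlg N R Λ) {p : ℕ} (hp : p.Prime) (hpN : ¬ p ∣ N)
    (ρ : Λ →+* Matrix (Fin 2) (Fin 2) (ZMod p)) (x : Λ) :
    (ρ x).det = Loc.phi N R hp hpN (Q.n x) := (both_any Q hp hpN ρ x).2.symm

theorem conj_any (Q : QAlg N R Λ) {p : ℕ} (hp : p.Prime) (hpN : ¬ p ∣ N)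
    (ρ : Λ →+* Matrix (Fin 2) (Fin 2) (ZMod p)) (x : Λ) : ρ (Q.conj x) = (ρ x).adjugate := by
  rw [Choice.conj_eq Q, map_sub, Choice.rho_algebraMap hp hpN, (both_any Q hp hpN ρ x).1,
    Matrix.adjugate_fin_two, Matrix.trace_fin_two]
  ext i j
  fin_cases i <;> fin_cases j <;> simp

/-- the reduced norm of `2 × 2` matrices -/
def nrd2 (Q : QAlg N R Λ) (X : Matrix (Fin 2) (Fin 2) Λ) : R :=
  Q.n (X 0 0) * Q.n (X 1 1) + Q.n (X 0 1) * Q.n (X 1 0) -
    Q.T (Q.conj (X 0 0) * X 0 1 * Q.conj (X 1 1) * X 1 0)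

omit [IsLocalization.Away (N : ℤ) R] [Ring Λ] [Algebra R Λ] [CommRing R] in
/-- the determinant of a `4 × 4` matrix in `2 × 2` blocks -/
theorem det_blocks {k : Type*} [CommRing k] (A B C D : Matrix (Fin 2) (Fin 2) k) :
    (Matrix.fromBlocks A B C D).det =
      A.det * D.det + B.det * C.det - (A.adjugate * B * D.adjugate * C).trace := by
  obtain ⟨a0, a1, a2, a3, rfl⟩ : ∃ α β γ δ, A = !![α, β; γ, δ] := ⟨_, _, _, _, Matrix.eta_fin_two A⟩
  obtain ⟨b0, b1, b2, b3, rfl⟩ : ∃ α β γ δ, B = !![α, β; γ, δ] := ⟨_, _, _, _, Matrix.eta_fin_two B⟩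
  obtain ⟨c0, c1, c2, c3, rfl⟩ : ∃ α β γ δ, C = !![α, β; γ, δ] := ⟨_, _, _, _, Matrix.eta_fin_two C⟩
  obtain ⟨d0, d1, d2, d3, rfl⟩ : ∃ α β γ δ, D = !![α, β; γ, δ] := ⟨_, _, _, _, Matrix.eta_fin_two D⟩
  have h1 : (Matrix.fromBlocks !![a0, a1; a2, a3] !![b0, b1; b2, b3] !![c0, c1; c2, c3]
      !![d0, d1; d2, d3]).det =
      (!![a0, a1, b0, b1; a2, a3, b2, b3; c0, c1, d0, d1; c2, c3, d2, d3] :
        Matrix (Fin 4) (Fin 4) k).det := by
    rw [← Matrix.det_submatrix_equiv_self (finSumFinEquiv : Fin 2 ⊕ Fin 2 ≃ Fin (2 + 2))]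
    congr 1
    ext i j
    rcases i with i | i <;> rcases j with j | j <;> fin_cases i <;> fin_cases j <;> rfl
  rw [h1]
  simp only [Matrix.adjugate_fin_two_of, Matrix.mul_fin_two, Matrix.trace_fin_two_of,
    Matrix.det_fin_two_of]
  simp [Matrix.det_succ_row_zero, Fin.sum_univ_succ, Fin.succAbove]
  ring

theorem nrdAt_eq (Q : QAlg N R Λ) {p : ℕ} (hp : p.Prime) (hpN : ¬ p ∣ N)
    (ρ : Λ →+* Matrix (Fin 2) (Fin 2) (ZMod p)) (X : Matrix (Fin 2) (Fin 2) Λ) :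
    nrdAt ρ X = Loc.phi N R hp hpN (nrd2 Q X) := by
  rw [nrdAt_fin_two, det_blocks, nrd2, map_sub, map_add, map_mul (Loc.phi N R hp hpN),
    map_mul (Loc.phi N R hp hpN), (both_any Q hp hpN ρ _).1, ← det_any Q hp hpN ρ,
    ← det_any Q hp hpN ρ, ← det_any Q hp hpN ρ, ← det_any Q hp hpN ρ, map_mul, map_mul, map_mul,
    conj_any Q hp hpN, conj_any Q hp hpN]

omit [Ring Λ] [Algebra R Λ] in
theorem nrd2_ext (hN : N ≠ 0) {r s : R}
    (h : ∀ p (hp : p.Prime) (hpN : ¬ p ∣ N), Loc.phi N R hp hpN r = Loc.phi N R hp hpN s) :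
    r = s := by
  rw [← sub_eq_zero]
  refine Loc.eq_zero_of_eventually hN _ 0 ?_
  intro p hp _ hpN
  rw [← Loc.phi_eq_zero_iff hp hpN, map_sub, h p hp hpN, sub_self]

theorem nrd2_mul (hN : N ≠ 0) (Q : QAlg N R Λ) (X Y : Matrix (Fin 2) (Fin 2) Λ) :
    nrd2 Q (X * Y) = nrd2 Q X * nrd2 Q Y := by
  refine nrd2_ext hN fun p hp hpN => ?_
  obtain ⟨ρ, -, -, -⟩ := Q.fibre p hp hpN
  rw [← nrdAt_eq Q hp hpN ρ, map_mul, map_mul, nrdAt_eq Q hp hpN ρ, nrdAt_eq Q hp hpN ρ]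

theorem nrd2_one (hN : N ≠ 0) (Q : QAlg N R Λ) : nrd2 Q (1 : Matrix (Fin 2) (Fin 2) Λ) = 1 := by
  refine nrd2_ext hN fun p hp hpN => ?_
  obtain ⟨ρ, -, -, -⟩ := Q.fibre p hp hpN
  rw [← nrdAt_eq Q hp hpN ρ, map_one, map_one]

theorem nrd2_isUnit (hN : N ≠ 0) (Q : QAlg N R Λ) (A : (Matrix (Fin 2) (Fin 2) Λ)ˣ) :
    IsUnit (nrd2 Q A.val) := by
  refine IsUnit.of_mul_eq_one (nrd2 Q A⁻¹.val) ?_
  rw [← nrd2_mul hN, ← Units.val_mul, mul_inv_cancel, Units.val_one, nrd2_one hN]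

theorem mem_SL1_of_nrd2 (Q : QAlg N R Λ) (A : (Matrix (Fin 2) (Fin 2) Λ)ˣ)
    (h : nrd2 Q A.val = 1) : A ∈ SL1 N (Fin 2) Λ := by
  intro p hp hpN ρ
  rw [nrdAt_eq Q hp hpN ρ, h, map_one]

end Nrd2

end BWC
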