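import Pool.Agent.BW.Loc

/-!
# The units of `ℤ[1/N]` modulo squares
-/

namespace BWC

open BW

/-- `R^× / R^{×2}` is finite -/
theorem units_mod_squares (N : ℕ) (hN : N ≠ 0) (R : Type*) [CommRing R]
    [IsLocalization.Away (N : ℤ) R] : ∃ F : Finset ℤ, ∀ u : R, IsUnit u →
      ∃ c ∈ F, ∃ v w : R, v * w = 1 ∧ u = (c : R) * v ^ 2 := by
  classical
  refine ⟨N.divisors.image (fun d : ℕ => (d : ℤ)) ∪ N.divisors.image (fun d : ℕ => -(d : ℤ)), ?_⟩
  intro u hu
  have hC := Loc.charZero N R hN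
  have hNu : IsUnit (N : R) := Loc.isUnit_natCast N R
  obtain ⟨u', huu⟩ := hu.exists_right_inv
  obtain ⟨a, k, ha⟩ := Loc.exists_int N u
  obtain ⟨b, l, hb⟩ := Loc.exists_int N u'
  have hab : a * b = (N : ℤ) ^ (k + l) := by
    have h1 : ((a * b : ℤ) : R) = (((N : ℤ) ^ (k + l) : ℤ) : R) := by
      push_cast
      rw [← ha, ← hb, pow_add]
      calc u * (N : R) ^ k * (u' * (N : R) ^ l) = (u * u') * ((N : R) ^ k * (N : R) ^ l) := by ring
        _ = _ := by rw [huu, one_mul]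
    exact Loc.intCast_injective N R hN h1
  have h0 : a.natAbs ∣ N ^ (k + l) := by
    have h1 := congrArg Int.natAbs hab
    rw [Int.natAbs_mul, Int.natAbs_pow, Int.natAbs_natCast] at h1
    exact Dvd.intro _ h1
  have hM0 : a.natAbs * N ^ k ∣ N ^ (k + l + k + 1) := by
    refine (mul_dvd_mul h0 (dvd_refl (N ^ k))).trans ?_
    rw [← pow_add]
    exact pow_dvd_pow N (by omega)
  obtain ⟨s, t, hst, hs⟩ := Nat.sq_mul_squarefree (a.natAbs * N ^ k)
  have hsN : s ∣ N := by
    rw [← hs.dvd_pow_iff_dvd (n := k + l + k + 1) (by omega)]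
    exact (Dvd.intro_left _ hst).trans hM0
  have htN : t ∣ N ^ (k + l + k + 1) :=
    ((Dvd.intro_left _ (sq t).symm).trans (Dvd.intro _ hst)).trans hM0
  have htu : IsUnit (t : R) := Loc.isUnit_of_dvd_pow N R htN
  obtain ⟨t', ht'⟩ := htu.exists_right_inv
  obtain ⟨M, hM⟩ := hNu.exists_right_inv
  have hMk : (N : R) ^ k * M ^ k = 1 := by rw [← mul_pow, hM, one_pow]
  have huM : u = (a : R) * M ^ k := by
    rw [← ha, mul_assoc, hMk, mul_one]
  have hst' : (t : R) ^ 2 * (s : R) = (a.natAbs : R) * (N : R) ^ k := by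
    have h1 := congrArg (fun x : ℕ => (x : R)) hst
    push_cast at h1
    exact h1
  rcases Int.natAbs_eq a with h | h
  · refine ⟨(s : ℤ), Finset.mem_union_left _ (Finset.mem_image.2
      ⟨s, Nat.mem_divisors.2 ⟨hsN, hN⟩, rfl⟩), (t : R) * M ^ k, t' * (N : R) ^ k, ?_, ?_⟩
    · calc (t : R) * M ^ k * (t' * (N : R) ^ k) = ((t : R) * t') * ((N : R) ^ k * M ^ k) := by ring
        _ = 1 := by rw [ht', hMk, one_mul]
    · have h1 : (a : R) = (a.natAbs : R) := by
        conv_lhs => rw [h]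
        exact Int.cast_natCast _
      rw [huM, h1, Int.cast_natCast]
      calc (a.natAbs : R) * M ^ k = (a.natAbs : R) * M ^ k * ((N : R) ^ k * M ^ k) := by
            rw [hMk, mul_one]
        _ = ((a.natAbs : R) * (N : R) ^ k) * (M ^ k) ^ 2 := by ring
        _ = _ := by rw [← hst']; ring
  · refine ⟨-(s : ℤ), Finset.mem_union_right _ (Finset.mem_image.2
      ⟨s, Nat.mem_divisors.2 ⟨hsN, hN⟩, rfl⟩), (t : R) * M ^ k, t' * (N : R) ^ k, ?_, ?_⟩
    · calc (t : R) * M ^ k * (t' * (N : R) ^ k) = ((t : R) * t') * ((N : R) ^ k * M ^ k) := by ring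
        _ = 1 := by rw [ht', hMk, one_mul]
    · have h1 : (a : R) = -(a.natAbs : R) := by
        conv_lhs => rw [h]
        rw [Int.cast_neg, Int.cast_natCast]
      rw [huM, h1, Int.cast_neg, Int.cast_natCast]
      calc -(a.natAbs : R) * M ^ k = -(a.natAbs : R) * M ^ k * ((N : R) ^ k * M ^ k) := by
            rw [hMk, mul_one]
        _ = -(((a.natAbs : R) * (N : R) ^ k) * (M ^ k) ^ 2) := by ring
        _ = _ := by rw [← hst']; ring

end BWC
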