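import Pool.Agent.BWD.Fam
import Pool.Agent.BWD.Nrd2
import Pool.Agent.BWD.Units

/-!
# Bounded width, type `D`: the elementary group of the hyperbolic skew-hermitian form
-/

set_option linter.unusedSectionVars false

namespace BWC

open Matrix
open BW hiding star

theorem exists_extend {n : Type*} [DecidableEq n] [Fintype n] (hn : 3 ≤ Fintype.card n)
    (φ : Fin 2 ↪ n) : ∃ ψ : Fin 3 ↪ n, (Fin.castLEEmb (by decide : 2 ≤ 3)).trans ψ = φ := by
  obtain ⟨x, hx⟩ : ∃ x : n, x ∉ Finset.univ.image φ := by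
    by_contra hcon
    push Not at hcon
    have h1 : (Finset.univ : Finset n) ⊆ Finset.univ.image φ := fun x _ => hcon x
    have h2 := (Finset.card_le_card h1).trans Finset.card_image_le
    rw [Finset.card_univ, Finset.card_univ, Fintype.card_fin] at h2
    omega
  have hx' : ∀ a, φ a ≠ x := by
    intro a h
    exact hx (Finset.mem_image.2 ⟨a, Finset.mem_univ _, h⟩)
  refine ⟨⟨![φ 0, φ 1, x], ?_⟩, ?_⟩
  · intro a b hab
    have h01 : φ 0 ≠ φ 1 := fun h => absurd (φ.injective h) (by decide)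
    fin_cases a <;> fin_cases b <;> simp_all [eq_comm]
  · ext a
    fin_cases a <;> rfl

section SLpart

variable {ι : Type*} {N : ι → ℕ} {R Λ : ι → Type*} [∀ i, CommRing (R i)]
  [∀ i, IsLocalization.Away (N i : ℤ) (R i)] [∀ i, Ring (Λ i)] [∀ i, StarRing (Λ i)]
  [∀ i, Algebra (R i) (Λ i)] [∀ i, Module.Free (R i) (Λ i)] [∀ i, Module.Finite (R i) (Λ i)]

theorem lev_SL_mem {ε : ℤ} (hε : ε * ε = 1) (hN : ∀ i, N i ≠ 0)
    (Q : ∀ i, QAlg (N i) (R i) (Λ i)) {n : Type*} [DecidableEq n] [Fintype n]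
    (hn : 3 ≤ Fintype.card n) (φ : Fin 2 ↪ n) (A : (Matrix (Fin 2) (Fin 2) (∀ i, Λ i))ˣ)
    (hA : ∀ i, comp i A ∈ SL1 (N i) (Fin 2) (Λ i)) : lev (embL φ A) ∈ EU ε n (∀ i, Λ i) := by
  obtain ⟨ψ, hψ⟩ := exists_extend hn φ
  rw [← EUL_eq hε hn]
  refine lev_mem ?_
  rw [← hψ, ← embL_embL, embL_c2]
  exact embL_mem_E ψ (mem_H.1 (mem_H_of_SLfam hN Q A hA))

/-- `diag(λ, 1)`, `λ` a central unit -/
def dg (v w : ∀ i, R i) (h : v * w = 1) : (Matrix (Fin 2) (Fin 2) (∀ i, Λ i))ˣ where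
  val := !![cen v, 0; 0, 1]
  inv := !![cen w, 0; 0, 1]
  val_inv := by
    rw [Matrix.mul_fin_two, ← cen_mul, h, cen_one, Matrix.one_fin_two]; simp
  inv_val := by
    rw [Matrix.mul_fin_two, ← cen_mul, mul_comm, h, cen_one, Matrix.one_fin_two]; simp

theorem lev_dg_mem (hN : ∀ i, N i ≠ 0)
    (Q : ∀ i, QAlg (N i) (R i) (Λ i)) (hQ : ∀ i x, star x = (Q i).conj x) {n : Type*}
    [DecidableEq n] [Fintype n] (hn : 3 ≤ Fintype.card n) (φ : Fin 2 ↪ n) (v w : ∀ i, R i)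
    (h : v * w = 1) :
    lev (embL φ (dg (Λ := Λ) v w h)) ∈ EU (-1) n (∀ i, Λ i) := by
  let q : (Matrix Unit Unit (∀ i, Λ i))ˣ :=
    ⟨cst (cen v), cst (cen w), by rw [cst_mul, ← cen_mul, h, cen_one, cst_one],
      by rw [cst_mul, ← cen_mul, mul_comm, h, cen_one, cst_one]⟩
  have h1 : dg (Λ := Λ) v w h = embL (pt (0 : Fin 2)) q := by
    ext1
    change _ = Pool.Agent.Helper24.BWR.emb (pt (0 : Fin 2)) q.val
    rw [Pool.Agent.Helper24.BWR.emb_apply]
    change !![cen v, 0; 0, 1] = _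
    ext a b
    fin_cases a <;> fin_cases b <;>
      simp [Pool.Agent.Helper24.BWR.pm, Pool.Agent.Helper24.BWR.qm, Matrix.mul_apply, q, cst]
  rw [h1, embL_embL, ← embU_lev]
  refine sl_claim Q hQ hN hn (φ 0) (lev q) (lev_mem_UG q) v 0 rfl ?_
  change (0 : ∀ i, Λ i) = cen (0 : ∀ i, R i)
  funext i
  exact (map_zero _).symm

theorem nrd2_dg (Q : ∀ i, QAlg (N i) (R i) (Λ i)) (v w : ∀ i, R i) (h : v * w = 1) (i : ι) :
    nrd2 (Q i) (comp (Λ := Λ) i (dg v w h)).val = v i ^ 2 := by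
  unfold nrd2
  have e00 : (comp (Λ := Λ) i (dg v w h)).val 0 0 = algebraMap (R i) (Λ i) (v i) := rfl
  have e01 : (comp (Λ := Λ) i (dg v w h)).val 0 1 = 0 := rfl
  have e10 : (comp (Λ := Λ) i (dg v w h)).val 1 0 = 0 := rfl
  have e11 : (comp (Λ := Λ) i (dg v w h)).val 1 1 = 1 := rfl
  rw [e00, e01, e10, e11, (Q i).n_algebraMap, (Q i).n_one, (Q i).n_zero, mul_zero, mul_zero,
    map_zero]
  ring

/-- `lev A` is elementary if the reduced norm of `A` is a square of a unit -/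
theorem lev_sq_mem (hN : ∀ i, N i ≠ 0)
    (Q : ∀ i, QAlg (N i) (R i) (Λ i)) (hQ : ∀ i x, star x = (Q i).conj x) {n : Type*}
    [DecidableEq n] [Fintype n] (hn : 3 ≤ Fintype.card n) (φ : Fin 2 ↪ n)
    (A : (Matrix (Fin 2) (Fin 2) (∀ i, Λ i))ˣ) (v w : ∀ i, R i) (h : v * w = 1)
    (hA : ∀ i, nrd2 (Q i) (comp i A).val = v i ^ 2) : lev (embL φ A) ∈ EU (-1) n (∀ i, Λ i) := by
  have hε : (-1 : ℤ) * (-1) = 1 := by norm_num
  have h1 := lev_dg_mem hN Q hQ hn φ v w h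
  have h2 : lev (embL φ ((dg (Λ := Λ) v w h)⁻¹ * A)) ∈ EU (-1) n (∀ i, Λ i) := by
    refine lev_SL_mem hε hN Q hn φ _ fun i => mem_SL1_of_nrd2 (Q i) _ ?_
    have e : (dg (Λ := Λ) v w h)⁻¹ = dg (Λ := Λ) w v (by rw [mul_comm]; exact h) := by
      ext1; rfl
    rw [map_mul, Units.val_mul, nrd2_mul (hN i), e, nrd2_dg, hA]
    have := congrFun h i
    change v i * w i = 1 at this
    rw [← mul_pow, mul_comm, this, one_pow]
  have h3 : embL φ A = embL φ (dg (Λ := Λ) v w h) * embL φ ((dg (Λ := Λ) v w h)⁻¹ * A) := by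
    rw [← map_mul, mul_inv_cancel_left]
  rw [h3, map_mul]
  exact mul_mem h1 h2

/-- two families with norms in the same classes modulo squares -/
theorem lev_class_mem (hN : ∀ i, N i ≠ 0)
    (Q : ∀ i, QAlg (N i) (R i) (Λ i)) (hQ : ∀ i x, star x = (Q i).conj x) {n : Type*}
    [DecidableEq n] [Fintype n] (hn : 3 ≤ Fintype.card n) (φ : Fin 2 ↪ n)
    (A B : (Matrix (Fin 2) (Fin 2) (∀ i, Λ i))ˣ) (c v w v' w' : ∀ i, R i) (h : ∀ i, v i * w i = 1)
    (h' : ∀ i, v' i * w' i = 1)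
    (hA : ∀ i, nrd2 (Q i) (comp i A).val = c i * v i ^ 2)
    (hB : ∀ i, nrd2 (Q i) (comp i B).val = c i * v' i ^ 2) :
    lev (embL φ A) * (lev (embL φ B))⁻¹ ∈ EU (-1) n (∀ i, Λ i) := by
  rw [← map_inv, ← map_mul, ← map_inv, ← map_mul]
  refine lev_sq_mem hN Q hQ hn φ (A * B⁻¹) (v * w') (w * v') ?_ fun i => ?_
  · funext i
    change (v i * w' i) * (w i * v' i) = 1
    linear_combination (v' i * w' i) * h i + h' i
  · have h1 : nrd2 (Q i) (comp i (A * B⁻¹)).val * nrd2 (Q i) (comp i B).val =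
        nrd2 (Q i) (comp i A).val := by
      rw [← nrd2_mul (hN i), ← Units.val_mul, ← map_mul, inv_mul_cancel_right]
    have h2 := nrd2_isUnit (hN i) (Q i) (comp i B)
    rw [hA, hB] at h1
    rw [hB] at h2
    refine h2.mul_right_cancel ?_
    change _ = (v i * w' i) ^ 2 * _
    rw [h1]
    linear_combination (-(c i * v i ^ 2 * (v' i * w' i + 1))) * h' i

end SLpart

section CompLemmas

theorem emb_map {m n : Type*} [DecidableEq m] [Fintype m] [DecidableEq n] [Fintype n]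
    {P P' : Type*} [Ring P] [Ring P'] (φ : m ↪ n) (f : P →+* P') (M : Matrix m m P) :
    (Pool.Agent.Helper24.BWR.emb φ M).map f = Pool.Agent.Helper24.BWR.emb φ (M.map f) := by
  rw [Pool.Agent.Helper24.BWR.emb_apply, Pool.Agent.Helper24.BWR.emb_apply]
  have h1 : (Pool.Agent.Helper24.BWR.pm P φ).map f = Pool.Agent.Helper24.BWR.pm P' φ := by
    ext a b
    simp [Pool.Agent.Helper24.BWR.pm, apply_ite f]
  have h2 : (Pool.Agent.Helper24.BWR.qm P φ).map f = Pool.Agent.Helper24.BWR.qm P' φ := by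
    ext a b
    simp [Pool.Agent.Helper24.BWR.qm, apply_ite f]
  rw [← h1, ← h2]
  have h3 : (M - 1).map f = M.map f - 1 := by
    change f.mapMatrix (M - 1) = f.mapMatrix M - 1
    rw [map_sub, map_one]
  have h4 : (Pool.Agent.Helper24.BWR.pm P φ * (M - 1) * Pool.Agent.Helper24.BWR.qm P φ).map f =
      (Pool.Agent.Helper24.BWR.pm P φ).map f * (M.map f - 1) *
        (Pool.Agent.Helper24.BWR.qm P φ).map f := by
    rw [Matrix.map_mul, Matrix.map_mul, h3]
  rw [← h4]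
  change f.mapMatrix (1 + _) = _
  rw [map_add, map_one]
  rfl

variable {ι : Type*} {Λ : ι → Type*} [∀ i, Ring (Λ i)]

theorem ext_comp {m : Type*} [DecidableEq m] [Fintype m] {x y : (Matrix m m (∀ i, Λ i))ˣ}
    (h : ∀ i, comp i x = comp i y) : x = y := by
  ext a b i
  have := congrArg (fun z : (Matrix m m (Λ i))ˣ => z.val a b) (h i)
  exact this

theorem comp_mem_EU [∀ i, StarRing (Λ i)] {ε : ℤ} {n : Type*} [DecidableEq n] [Fintype n] (i : ι)
    {x : (Matrix (n ⊕ n) (n ⊕ n) (∀ i, Λ i))ˣ} (hx : x ∈ EU ε n (∀ i, Λ i)) :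
    comp i x ∈ EU ε n (Λ i) := by
  have : EU ε n (∀ i, Λ i) ≤ (EU ε n (Λ i)).comap (comp i) :=
    sup_le (fun x hx => Subgroup.mem_sup_left (comp_mem_UP i hx))
      (fun x hx => Subgroup.mem_sup_right (comp_mem_UM i hx))
  exact this hx

end CompLemmas

section Final

variable {n : Type*} [DecidableEq n] [Fintype n]

/-- elements of `EUL` are in some ball -/
theorem exists_ball {ε : ℤ} {P : Type*} [Ring P] [StarRing P]
    {x : (Matrix (n ⊕ n) (n ⊕ n) P)ˣ} (hx : x ∈ EUL ε n P) : ∃ K, x ∈ ball ε n P K := by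
  have key : ∀ x ∈ EUL ε n P, ∃ K, x ∈ ball ε n P K := by
    have hEUL : EUL ε n P = Subgroup.closure {x | x ∈ UP ε n P ∨ x ∈ UM ε n P ∨
        ∃ (i j : n) (h : i ≠ j) (y : P), x = lev (el i j h y)} := by
      refine le_antisymm ?_ ?_
      · refine sup_le (sup_le ?_ ?_) ?_
        · intro x hx; exact Subgroup.subset_closure (Or.inl hx)
        · intro x hx; exact Subgroup.subset_closure (Or.inr (Or.inl hx))
        · rw [E, Subgroup.map_le_iff_le_comap, Subgroup.closure_le]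
          rintro _ ⟨i, j, h, y, rfl⟩
          exact Subgroup.subset_closure (Or.inr (Or.inr ⟨i, j, h, y, rfl⟩))
      · rw [Subgroup.closure_le]
        rintro x (hx | hx | ⟨i, j, h, y, rfl⟩)
        · exact EU_le_EUL (Subgroup.mem_sup_left hx)
        · exact EU_le_EUL (Subgroup.mem_sup_right hx)
        · exact lev_mem (el_mem _ _ _ _)
    intro x hx
    rw [hEUL] at hx
    induction hx using Subgroup.closure_induction with
    | mem x hx => exact ⟨1, [x], le_rfl, by simpa using hx, by simp⟩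
    | one => exact ⟨0, one_mem_ball 0⟩
    | mul x y _ _ hx hy =>
      obtain ⟨K, hK⟩ := hx
      obtain ⟨L, hL⟩ := hy
      exact ⟨K + L, ball_mul hK hL⟩
    | inv x _ hx =>
      obtain ⟨K, l, h1, h2, rfl⟩ := hx
      refine ⟨K, (l.map fun x => x⁻¹).reverse, by simpa using h1, fun x hx => ?_,
        (List.prod_inv_reverse l).symm⟩
      rw [List.mem_reverse, List.mem_map] at hx
      obtain ⟨y, hy, rfl⟩ := hx
      rcases h2 y hy with h | h | ⟨i, j, h, z, rfl⟩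
      · exact Or.inl (inv_mem h)
      · exact Or.inr (Or.inl (inv_mem h))
      · exact Or.inr (Or.inr ⟨i, j, h, -z, by rw [← map_inv, el_inv]⟩)
  exact key x hx

/-- a family with finitely many values, all of them elementary -/
theorem finite_family {ε : ℤ} (hε : ε * ε = 1) (hn : 3 ≤ Fintype.card n) {ι : Type*} {Λ : Type*}
    [Ring Λ] [StarRing Λ]
    (x : ι → (Matrix (n ⊕ n) (n ⊕ n) Λ)ˣ) (hx : ∀ i, x i ∈ EU ε n Λ) (hfin : (Set.range x).Finite) :
    ∃ y ∈ EU ε n (ι → Λ), ∀ i, comp (Λ := fun _ => Λ) i y = x i := by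
  classical
  choose! K hK using fun (z : (Matrix (n ⊕ n) (n ⊕ n) Λ)ˣ) (hz : z ∈ EU ε n Λ) =>
    exists_ball (EU_le_EUL hz)
  obtain ⟨B, hB⟩ := (hfin.image K).bddAbove
  obtain ⟨y, hy, hyx⟩ := ball_pi (ε := ε) (Λ := fun _ : ι => Λ) B x (fun i =>
    ball_mono (hB ⟨x i, ⟨i, rfl⟩, rfl⟩) (hK (x i) (hx i)))
  rw [EUL_eq hε hn] at hy
  exact ⟨y, hy, hyx⟩


section Const

variable {ι : Type*} {N : ℕ} {R Λ : Type} [CommRing R] [IsLocalization.Away (N : ℤ) R] [Ring Λ]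
  [StarRing Λ] [Algebra R Λ] [Module.Free R Λ] [Module.Finite R Λ]

/-- for one algebra only finitely many classes are needed -/
theorem lev_finite (hN : N ≠ 0) (Q : QAlg N R Λ) (hQ : ∀ x, star x = Q.conj x)
    (hn : 3 ≤ Fintype.card n) (φ : Fin 2 ↪ n) (A : ι → (Matrix (Fin 2) (Fin 2) Λ)ˣ) :
    ∃ j : ι → ι, (Set.range j).Finite ∧
      lev (embL φ (famU (Λ := fun _ : ι => Λ) A)) *
        (lev (embL φ (famU (Λ := fun _ : ι => Λ) fun i => A (j i))))⁻¹ ∈ EU (-1) n (ι → Λ) := by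
  classical
  obtain ⟨F, hF⟩ := units_mod_squares N hN R
  choose c hc v w hvw hu using fun i : ι => hF _ (nrd2_isUnit hN Q (A i))
  let j : ι → ι := fun i => (⟨i, rfl⟩ : ∃ j : ι, c j = c i).choose
  have hj : ∀ i, c (j i) = c i := fun i => (⟨i, rfl⟩ : ∃ j : ι, c j = c i).choose_spec
  have hjc : ∀ i i', c i = c i' → j i = j i' := by
    intro i i' h
    simp only [j]
    congr 1
    funext k
    rw [h]
  refine ⟨j, ?_, ?_⟩
  · rcases isEmpty_or_nonempty ι with hι | ⟨⟨i0⟩⟩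
    · exact Set.toFinite _
    · have h1 : Set.range j ⊆ (fun c0 : ℤ => if h : ∃ i, c i = c0 then j h.choose else
          i0) '' (F : Set ℤ) := by
        rintro _ ⟨i, rfl⟩
        refine ⟨c i, hc i, ?_⟩
        have h : ∃ i', c i' = c i := ⟨i, rfl⟩
        dsimp only
        rw [dif_pos h]
        exact hjc _ _ h.choose_spec
      exact (F.finite_toSet.image _).subset h1
  · refine lev_class_mem (N := fun _ : ι => N) (R := fun _ : ι => R) (Λ := fun _ : ι => Λ)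
      (fun _ => hN) (fun _ => Q) (fun _ => hQ) hn φ _ _ (fun i => (c i : R)) v w
      (fun i => v (j i)) (fun i => w (j i)) hvw (fun i => hvw (j i)) (fun i => ?_) (fun i => ?_)
    · rw [comp_famU]
      exact hu i
    · rw [comp_famU, ← hj i]
      exact hu (j i)

/-- the elementary group of one algebra: a family of its elements is elementary -/
theorem family_mem (hN : N ≠ 0) (Q : QAlg N R Λ) (hQ : ∀ x, star x = Q.conj x)
    [NoZeroDivisors Λ] (m : ℕ) (hm : 3 ≤ m)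
    (x : ι → (Matrix (Fin m ⊕ Fin m) (Fin m ⊕ Fin m) Λ)ˣ) (hx : ∀ i, x i ∈ EU (-1) (Fin m) Λ) :
    famU (Λ := fun _ : ι => Λ) x ∈ EU (-1) (Fin m) (ι → Λ) := by
  have hε : (-1 : ℤ) * (-1) = 1 := by norm_num
  have hn : 3 ≤ Fintype.card (Fin m) := by simpa using hm
  obtain ⟨g, hg⟩ : ∃ g, g = famU (Λ := fun _ : ι => Λ) x := ⟨_, rfl⟩
  have hgx : ∀ i, comp (Λ := fun _ : ι => Λ) i g = x i := fun i => by rw [hg, comp_famU]
  rw [← hg]
  have hgU : g ∈ UG (-1) (Fin m) (ι → Λ) :=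
    mem_UG_of_comp (Λ := fun _ : ι => Λ) fun i => by rw [hgx]; exact EU_le_UG hε (hx i)
  obtain ⟨φ, e, he, A, hgA⟩ := redD' (N := fun _ : ι => N) (R := fun _ : ι => R)
    (Λ := fun _ : ι => Λ) (fun _ => hN) (fun _ => Q) (fun _ => hQ) m hm g hgU
  obtain ⟨j, hj, hjA⟩ := lev_finite hN Q hQ hn φ
    (fun i : ι => comp (Λ := fun _ : ι => Λ) i A)
  have hA : famU (Λ := fun _ : ι => Λ) (fun i : ι => comp (Λ := fun _ : ι => Λ) i A) = A := by
    ext1; rfl
  rw [hA] at hjA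
  obtain ⟨B, hB⟩ : ∃ B, B = famU (Λ := fun _ : ι => Λ)
    (fun i : ι => comp (Λ := fun _ : ι => Λ) (j i) A) := ⟨_, rfl⟩
  rw [← hB] at hjA
  have hcl : ∀ (C : (Matrix (Fin 2) (Fin 2) (ι → Λ))ˣ) (i : ι),
      comp (Λ := fun _ : ι => Λ) i (lev (embL φ C)) =
        lev (embL φ (comp (Λ := fun _ : ι => Λ) i C)) := by
    intro C i
    rw [comp_lev]
    congr 1
    ext1
    change (Pool.Agent.Helper24.BWR.emb φ C.val).map (Pi.evalRingHom (fun _ : ι => Λ) i) =
      Pool.Agent.Helper24.BWR.emb φ (C.val.map (Pi.evalRingHom (fun _ : ι => Λ) i))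
    exact emb_map φ (Pi.evalRingHom (fun _ : ι => Λ) i) C.val
  have hlev : ∀ i, lev (embL φ (comp (Λ := fun _ : ι => Λ) i A)) ∈ EU (-1) (Fin m) Λ := by
    intro i
    have h1 := congrArg (comp (Λ := fun _ : ι => Λ) i) hgA
    rw [map_mul, hgx, hcl] at h1
    have h2 : comp (Λ := fun _ : ι => Λ) i e ∈ EU (-1) (Fin m) Λ := comp_mem_EU i he
    have h3 := hx i
    rw [h1] at h3
    exact (Subgroup.mul_mem_cancel_left _ h2).1 h3
  obtain ⟨y, hy, hyx⟩ := finite_family hε hn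
    (fun i => lev (embL φ (comp (Λ := fun _ : ι => Λ) (j i) A))) (fun i => hlev (j i)) (by
      refine (hj.image fun k => lev (embL φ (comp (Λ := fun _ : ι => Λ) k A))).subset ?_
      rintro _ ⟨i, rfl⟩
      exact ⟨j i, ⟨i, rfl⟩, rfl⟩)
  have hyB : y = lev (embL φ B) := by
    refine ext_comp fun i => ?_
    rw [hyx, hcl, hB, comp_famU]
  rw [← hyB] at hjA
  rw [hgA]
  exact mul_mem he ((Subgroup.mul_mem_cancel_right _ (inv_mem hy)).1 hjA)

end Const

open Pointwise in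
/-- **type `D`**: the elementary subgroup of the isometry group of the hyperbolic skew-hermitian
form has bounded width -/
theorem mainD (m : ℕ) (hm : 3 ≤ m) (N : ℕ) (hN : N ≠ 0) (R Λ : Type) [CommRing R]
    [IsLocalization.Away (N : ℤ) R] [Ring Λ] [NoZeroDivisors Λ] [StarRing Λ] [Algebra R Λ]
    (haz : IsQuaternionAzumaya N R Λ) (hst : ∀ x : Λ, ∃ t : R, x + star x = algebraMap R Λ t) :
    ∃ L : ℕ, ((UP (-1) (Fin m) Λ : Set (Matrix (Fin m ⊕ Fin m) (Fin m ⊕ Fin m) Λ)ˣ) *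
        (UM (-1) (Fin m) Λ : Set (Matrix (Fin m ⊕ Fin m) (Fin m ⊕ Fin m) Λ)ˣ)) ^ L =
      (EU (-1) (Fin m) Λ : Set (Matrix (Fin m ⊕ Fin m) (Fin m ⊕ Fin m) Λ)ˣ) := by
  have := haz.free
  have := haz.finite hN
  obtain ⟨Q⟩ := haz.qalg hN
  have hQ : ∀ x : Λ, star x = Q.conj x := star_eq_conj hN Q hst
  have h1 := family_mem (ι := {x // x ∈ EU (-1) (Fin m) Λ}) hN Q hQ m hm (fun i => i.1)
    (fun i => i.2)
  obtain ⟨L, hL⟩ := EU_bounded (Λ := fun _ : {x // x ∈ EU (-1) (Fin m) Λ} => Λ) _ h1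
  refine ⟨L, Set.Subset.antisymm ?_ fun g hg => ?_⟩
  · have h3 : ∀ (K : ℕ), ((UP (-1) (Fin m) Λ : Set (Matrix (Fin m ⊕ Fin m) (Fin m ⊕ Fin m) Λ)ˣ) *
        (UM (-1) (Fin m) Λ : Set (Matrix (Fin m ⊕ Fin m) (Fin m ⊕ Fin m) Λ)ˣ)) ^ K ⊆
      (EU (-1) (Fin m) Λ : Set (Matrix (Fin m ⊕ Fin m) (Fin m ⊕ Fin m) Λ)ˣ) := by
      intro K
      induction K with
      | zero =>
        intro g hg
        rw [pow_zero, Set.mem_one] at hg
        rw [hg]
        exact one_mem _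
      | succ K ih =>
        intro g hg
        rw [pow_succ] at hg
        obtain ⟨a, ha, b, ⟨u, hu, v, hv, rfl⟩, rfl⟩ := hg
        exact mul_mem (ih ha) (mul_mem (Subgroup.mem_sup_left hu) (Subgroup.mem_sup_right hv))
    exact h3 L
  · have h3 := hL ⟨g, hg⟩
    rw [comp_famU] at h3
    exact h3

end Final

end BWC
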