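import Mathlib

/-!
# Primes with a given nonresidue, and the sign of the multiplication by a nonsquare
-/

namespace BWC.SN

open NumberTheorySymbols

/-- `(n / p) = 1` if `p` is `1` modulo `8` and modulo `n` -/
theorem jac_one (n : ℕ) (hn : n ≠ 0) (p : ℕ) (hp : p % 8 = 1) (hpn : p ≡ 1 [MOD n]) :
    J(n | p) = 1 := by
  obtain ⟨k, t, ht, rfl⟩ := Nat.exists_eq_two_pow_mul_odd hn
  have hodd : Odd p := by rw [Nat.odd_iff]; omega
  have h2 : J(2 | p) = 1 := by
    rw [jacobiSym.at_two hodd, ZMod.χ₈_nat_eq_if_mod_eight]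
    simp only [hp]
    have : p % 2 ≠ 0 := by omega
    simp [this]
  have h4 : p % 4 = 1 := by omega
  have ht1 : J(t | p) = 1 := by
    rw [← jacobiSym.quadratic_reciprocity_one_mod_four h4 ht, jacobiSym.mod_left]
    have h1 : (p : ℤ) % (t : ℤ) = (1 : ℤ) % (t : ℤ) := by
      have h3 : p ≡ 1 [MOD t] := hpn.of_mul_left _
      have := (Int.natCast_modEq_iff.2 h3)
      exact_mod_cast this
    rw [h1, ← jacobiSym.mod_left, jacobiSym.one_left]
  rw [Nat.cast_mul, Nat.cast_pow, Nat.cast_ofNat, jacobiSym.mul_left, jacobiSym.pow_left, h2,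
    one_pow, one_mul, ht1]

/-- a prime, as large as we like, modulo which `c = ± s` is not a square -/
theorem exists_nonres (s : ℕ) (hs : Squarefree s) (c : ℤ) (hc : c = s ∨ c = -s) (hc1 : c ≠ 1)
    (M : ℕ) (hM : M ≠ 0) :
    ∃ p : ℕ, p.Prime ∧ ¬ p ∣ M ∧ p ≠ 2 ∧ ¬ IsSquare ((c : ℤ) : ZMod p) := by
  -- Dirichlet
  have key : ∀ (m a : ℕ), m ≠ 0 → Nat.Coprime a m → ∃ p : ℕ, p.Prime ∧ ¬ p ∣ M ∧ p ≠ 2 ∧
      p ≡ a [MOD m] := by
    intro m a hm ha
    have : NeZero m := ⟨hm⟩
    obtain ⟨p, hp1, hp2, hp3⟩ := Nat.forall_exists_prime_gt_and_eq_mod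
      ((ZMod.isUnit_iff_coprime a m).2 ha) (M + 2)
    refine ⟨p, hp2, fun h => ?_, by omega, (ZMod.natCast_eq_natCast_iff _ _ _).1 hp3⟩
    have := Nat.le_of_dvd (Nat.pos_of_ne_zero hM) h
    omega
  have hs0 : s ≠ 0 := hs.ne_zero
  by_cases hq : ∃ q : ℕ, q.Prime ∧ q ≠ 2 ∧ q ∣ s
  · obtain ⟨q, hq, hq2, t, rfl⟩ := hq
    have := Fact.mk hq
    have ht0 : t ≠ 0 := right_ne_zero_of_mul hs0
    have hqt : Nat.Coprime (8 * t) q := by
      rw [Nat.coprime_comm, Nat.coprime_mul_iff_right]
      constructor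
      · rw [show (8 : ℕ) = 2 ^ 3 from rfl]
        exact Nat.Coprime.pow_right 3 ((Nat.coprime_primes hq Nat.prime_two).2 hq2)
      · exact (Nat.squarefree_mul_iff.1 hs).1
    obtain ⟨u, hu⟩ := FiniteField.exists_nonsquare (F := ZMod q) (by
      rw [ZMod.ringChar_zmod_n]; exact hq2)
    obtain ⟨a, ha1, ha2⟩ := Nat.chineseRemainder hqt 1 u.val
    have ha : Nat.Coprime a (8 * t * q) := by
      rw [Nat.coprime_mul_iff_right]
      constructor
      · rw [Nat.Coprime, ha1.gcd_eq, Nat.gcd_one_left]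
      · rw [Nat.coprime_comm, hq.coprime_iff_not_dvd]
        intro h
        apply hu
        have h1 : (a : ZMod q) = u := by
          rw [← ZMod.natCast_zmod_val u]
          exact (ZMod.natCast_eq_natCast_iff _ _ _).2 ha2
        rw [← h1, (ZMod.natCast_eq_zero_iff a q).2 h]
        exact ⟨0, by simp⟩
    obtain ⟨p, hp, hpM, hp2, hpa⟩ := key (8 * t * q) a
      (mul_ne_zero (mul_ne_zero (by norm_num) ht0) hq.ne_zero) ha
    have := Fact.mk hp
    refine ⟨p, hp, hpM, hp2, ?_⟩
    have hpt : p ≡ 1 [MOD 8 * t] := (hpa.of_mul_right _).trans ha1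
    have hpq : p ≡ u.val [MOD q] := (hpa.of_mul_left _).trans ha2
    have hp8 : p % 8 = 1 := (hpt.of_mul_right _)
    have hp4 : p % 4 = 1 := by omega
    have hodd : Odd p := by rw [Nat.odd_iff]; omega
    have h1 : J(t | p) = 1 := jac_one t ht0 p hp8 (hpt.of_mul_left _)
    have h2 : J(q | p) = -1 := by
      rw [← jacobiSym.quadratic_reciprocity_one_mod_four hp4 (hq.odd_of_ne_two hq2),
        ← jacobiSym.legendreSym.to_jacobiSym, legendreSym.eq_neg_one_iff]
      have h3 : (((p : ℕ) : ℤ) : ZMod q) = u := by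
        rw [Int.cast_natCast, ← ZMod.natCast_zmod_val u]
        exact (ZMod.natCast_eq_natCast_iff _ _ _).2 hpq
      rw [h3]
      exact hu
    have h3 : J(c | p) = -1 := by
      have h4 : J(-1 | p) = 1 := by
        rw [jacobiSym.at_neg_one hodd, ZMod.χ₄_nat_one_mod_four hp4]
      rcases hc with rfl | rfl
      · rw [Nat.cast_mul, jacobiSym.mul_left, h1, h2, mul_one]
      · rw [← neg_one_mul, jacobiSym.mul_left, h4, Nat.cast_mul, jacobiSym.mul_left, h1, h2,
          mul_one, one_mul]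
    rwa [← jacobiSym.legendreSym.to_jacobiSym, legendreSym.eq_neg_one_iff] at h3
  · -- `s` is `1` or `2`
    push Not at hq
    have hs2 : s = 1 ∨ s = 2 := by
      have h1 : s ∣ 2 := by
        rw [← Nat.prod_primeFactors_of_squarefree hs]
        have h2 : s.primeFactors ⊆ {2} := by
          intro q hq'
          rw [Finset.mem_singleton]
          by_contra h
          exact hq q (Nat.prime_of_mem_primeFactors hq') h (Nat.dvd_of_mem_primeFactors hq')
        calc ∏ p ∈ s.primeFactors, p ∣ ∏ p ∈ ({2} : Finset ℕ), p :=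
              Finset.prod_dvd_prod_of_subset _ _ _ h2
          _ = 2 := by simp
      exact (Nat.dvd_prime Nat.prime_two).1 h1
    rcases hs2 with rfl | rfl
    · have hc' : c = -1 := by
        rcases hc with h | h
        · exact absurd h hc1
        · exact h
      obtain ⟨p, hp, hpM, hp2, hpa⟩ := key 4 3 (by norm_num) (by norm_num)
      have := Fact.mk hp
      refine ⟨p, hp, hpM, hp2, ?_⟩
      rw [hc', Int.cast_neg, Int.cast_one, ZMod.exists_sq_eq_neg_one_iff]
      have h4 : p % 4 = 3 := hpa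
      simp [h4]
    · rcases hc with h | h
      · obtain ⟨p, hp, hpM, hp2, hpa⟩ := key 8 3 (by norm_num) (by norm_num)
        have := Fact.mk hp
        refine ⟨p, hp, hpM, hp2, ?_⟩
        have h8 : p % 8 = 3 := hpa
        rw [h]
        push_cast
        rw [ZMod.exists_sq_eq_two_iff hp2]
        omega
      · obtain ⟨p, hp, hpM, hp2, hpa⟩ := key 8 5 (by norm_num) (by norm_num)
        have := Fact.mk hp
        refine ⟨p, hp, hpM, hp2, ?_⟩
        have h8 : p % 8 = 5 := hpa
        rw [h]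
        push_cast
        rw [ZMod.exists_sq_eq_neg_two_iff hp2]
        omega

/-- the multiplication by a nonsquare is an odd permutation of the units -/
theorem sign_mulLeft_nonsquare {F : Type*} [Field F] [Fintype F] [DecidableEq F]
    (hF : ringChar F ≠ 2) (c : Fˣ) (hc : ¬ IsSquare c) :
    Equiv.Perm.sign (Equiv.mulLeft c) = -1 := by
  set T : Fˣ →* Equiv.Perm Fˣ := MulAction.toPermHom Fˣ Fˣ with hT
  have hTm : ∀ g : Fˣ, Equiv.mulLeft g = T g := fun g => by ext x; rfl
  obtain ⟨g, hg⟩ := IsCyclic.exists_generator (α := Fˣ)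
  have hcard : Even (Fintype.card Fˣ) := by
    rw [Fintype.card_units]
    have h1 := FiniteField.odd_card_of_char_ne_two hF
    obtain ⟨k, hk⟩ := Nat.odd_iff.2 h1
    exact ⟨k, by omega⟩
  have hg1 : g ≠ 1 := by
    rintro rfl
    have h1 : Fintype.card Fˣ = 1 := by
      rw [Fintype.card_eq_one_iff]
      refine ⟨1, fun y => ?_⟩
      obtain ⟨k, hk⟩ := hg y
      rw [← hk]
      simp
    rw [h1] at hcard
    exact absurd hcard (by decide)
  have hcyc : (T g).IsCycle := by
    refine ⟨1, ?_, fun y _ => ?_⟩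
    · change g * 1 ≠ 1
      rwa [mul_one]
    · obtain ⟨k, hk⟩ := hg y
      refine ⟨k, ?_⟩
      rw [← map_zpow]
      change g ^ k * 1 = y
      rw [mul_one]
      exact hk
  have hsupp : (T g).support = Finset.univ := by
    ext x
    simp only [Equiv.Perm.mem_support, Finset.mem_univ, iff_true]
    change g * x ≠ x
    intro h
    exact hg1 (mul_eq_right.1 h)
  have hsg : Equiv.Perm.sign (T g) = -1 := by
    rw [hcyc.sign, hsupp, Finset.card_univ, hcard.neg_one_pow]
  obtain ⟨k, hk⟩ := hg c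
  have hk' : g ^ k = c := hk
  have hkodd : Odd k := by
    by_contra h
    rw [Int.not_odd_iff_even] at h
    obtain ⟨l, hl⟩ := h
    exact hc ⟨g ^ l, by rw [← zpow_add, ← hl, hk']⟩
  rw [hTm, ← hk', map_zpow, map_zpow, hsg, hkodd.neg_one_zpow]

end BWC.SN
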