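import Pool.Agent.BWD.SpinMain
import Pool.Agent.BWP.Main
import Pool.Agent.BWP.PairG

/-!
# All pairs of opposite parabolic subgroups, type `D`
-/

set_option autoImplicit false
set_option linter.unusedSectionVars false
set_option linter.unusedSimpArgs false

namespace BWC.SN

open Matrix
open BW hiding star
open BWP
open scoped Pointwise

section Nilp

variable {k P : Type*} [DecidableEq k] [Fintype k] [Ring P] [StarRing P] {J e e' : Matrix k k P}

/-- the elements of the radical are unipotent -/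
theorem UR_nilp (h : Idem J e e') {g : (Matrix k k P)ˣ} (hg : g ∈ UR h) :
    (g.val - 1) ^ 3 = 0 := by
  obtain ⟨-, g1, g2, g3⟩ := hg
  set X := g.val - 1 with hX
  have h1 : X * (1 - e') = e * (X * (1 - e')) := one_sub_of (by rw [← mul_assoc]; exact g3)
  have h2 : X * (X * (1 - e')) = 0 := by rw [h1, ← mul_assoc, g1, zero_mul]
  have h3 : X * X = X * X * e' := by
    have : X * (X * (1 - e')) = X * X - X * X * e' := by noncomm_ring
    rw [this, sub_eq_zero] at h2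
    exact h2
  have h4 : X ^ 3 = X * X * X := by rw [pow_succ, pow_two]
  rw [h4, h3, mul_assoc, g2, mul_zero]

end Nilp

section One

variable {N : ℕ} {R Λ : Type} [CommRing R] [IsLocalization.Away (N : ℤ) R] [Ring Λ]
  [StarRing Λ] [Algebra R Λ] [Module.Free R Λ] [Module.Finite R Λ] [NoZeroDivisors Λ]
  {r : Type*} [DecidableEq r] [Fintype r]

/-- unipotent isometries are elementary -/
theorem mem_EG_of_nilp (hN : N ≠ 0) (Q : QAlg N R Λ) (hQ : ∀ x, star x = Q.conj x) (m : ℕ)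
    (hm : 3 ≤ m) {A D D' : Matrix r r Λ} (hD : D = A + (-1 : ℤ) • Aᴴ) (hDD : D * D' = 1)
    (hDD' : D' * D = 1) (g : (Matrix ((Fin m ⊕ Fin m) ⊕ r) ((Fin m ⊕ Fin m) ⊕ r) Λ)ˣ)
    (hg : g ∈ isom (JG (-1) (Fin m) D)) (K : ℕ) (hK : (g.val - 1) ^ K = 0) :
    g ∈ EG (-1) (Fin m) D := by
  have h := mem_EG_of_theta (ι := Unit) (N := fun _ => N) (R := fun _ => R) (Λ := fun _ => Λ)
    (fun _ => hN) (fun _ => Q) (fun _ => hQ) m hm (A := fun _ => A) (D := fun _ => D)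
    (D' := fun _ => D') (fun _ => hD) (fun _ => hDD) (fun _ => hDD') (famU fun _ => g)
    (fun i => by rw [comp_famU]; exact hg) (fun i p _ ρ hρ hp2 hpN => by
      refine theta_nilp hp2 hρ _ 1 _ K ?_
      have : comp i (famU (Λ := fun _ : Unit => Λ) fun _ => g) = g := comp_famU _ _
      change ((comp i (famU (Λ := fun _ : Unit => Λ) fun _ => g)).val - 1) ^ K = 0
      rw [this]
      exact hK)
  have h2 := comp_mem_EG (Λ := fun _ : Unit => Λ) (fun _ => D) () h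
  rw [comp_famU] at h2
  exact h2

end One

section Dat

/-- the data of `N`, of a quaternion Azumaya algebra without zero divisors over `ℤ[1/N]` with its
canonical involution, of an even unimodular skew-hermitian form, of a pair of opposite isotropic
summands and of an element of the elementary group -/
structure DatD (m s : ℕ) where
  /-- the integer `N` -/
  N : ℕ
  hN : N ≠ 0
  /-- the ring `ℤ[1/N]` -/
  R : Type
  /-- the algebra -/
  Λ : Type
  cR : CommRing R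
  rΛ : Ring Λ
  sΛ : StarRing Λ
  alg : Algebra R Λ
  loc : IsLocalization.Away (N : ℤ) R
  az : IsQuaternionAzumaya N R Λ
  st : ∀ x : Λ, ∃ t : R, x + star x = algebraMap R Λ t
  dom : NoZeroDivisors Λ
  /-- half of the Gram matrix of `V₀` -/
  A : Matrix (Fin s) (Fin s) Λ
  hu : IsUnit (A - Aᴴ)
  /-- the idempotent of `W` -/
  e : Matrix ((Fin m ⊕ Fin m) ⊕ Fin s) ((Fin m ⊕ Fin m) ⊕ Fin s) Λ
  /-- the idempotent of `W'` -/
  e' : Matrix ((Fin m ⊕ Fin m) ⊕ Fin s) ((Fin m ⊕ Fin m) ⊕ Fin s) Λ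
  hid : Idem (JG (-1) (Fin m) (A - Aᴴ)) e e'
  h0 : e ≠ 0
  /-- the element -/
  g : (Matrix ((Fin m ⊕ Fin m) ⊕ Fin s) ((Fin m ⊕ Fin m) ⊕ Fin s) Λ)ˣ
  hg : g ∈ EG (-1) (Fin m) (A - Aᴴ)

attribute [instance] DatD.cR DatD.rΛ DatD.sΛ DatD.alg DatD.loc DatD.dom

theorem sub_star_eq {s : ℕ} {Λ : Type*} [Ring Λ] [StarRing Λ] (A : Matrix (Fin s) (Fin s) Λ) :
    A - Aᴴ = A + (-1 : ℤ) • Aᴴ := by
  rw [neg_one_zsmul, sub_eq_add_neg]

/-- **the stabilizers of isotropic summands**: one number `L` for all pairs -/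
theorem width_URD (m s : ℕ) (hm : 3 ≤ m) : ∃ L : ℕ, ∀ (N : ℕ), N ≠ 0 → ∀ (R Λ : Type) [CommRing R]
    [IsLocalization.Away (N : ℤ) R] [Ring Λ] [NoZeroDivisors Λ] [StarRing Λ] [Algebra R Λ],
    IsQuaternionAzumaya N R Λ → (∀ x : Λ, ∃ t : R, x + star x = algebraMap R Λ t) →
    ∀ A : Matrix (Fin s) (Fin s) Λ, IsUnit (A - Aᴴ) →
    ∀ (e e' : Matrix ((Fin m ⊕ Fin m) ⊕ Fin s) ((Fin m ⊕ Fin m) ⊕ Fin s) Λ)
      (h : Idem (JG (-1) (Fin m) (A - Aᴴ)) e e'), e ≠ 0 →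
      ((UR h : Set (Matrix ((Fin m ⊕ Fin m) ⊕ Fin s) ((Fin m ⊕ Fin m) ⊕ Fin s) Λ)ˣ) *
        (UR h.swap : Set (Matrix ((Fin m ⊕ Fin m) ⊕ Fin s) ((Fin m ⊕ Fin m) ⊕ Fin s) Λ)ˣ)) ^ L =
        (EG (-1) (Fin m) (A - Aᴴ) :
          Set (Matrix ((Fin m ⊕ Fin m) ⊕ Fin s) ((Fin m ⊕ Fin m) ⊕ Fin s) Λ)ˣ) := by
  have hε : (-1 : ℤ) * (-1) = 1 := by norm_num
  have hn : 2 ≤ Fintype.card (Fin m) := by simp; omega
  have hfree : ∀ i : DatD m s, Module.Free i.R i.Λ := fun i => i.az.free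
  have hfin : ∀ i : DatD m s, Module.Finite i.R i.Λ := fun i => i.az.finite i.hN
  have Q : ∀ i : DatD m s, QAlg i.N i.R i.Λ := fun i => (i.az.qalg i.hN).some
  have hQ : ∀ (i : DatD m s) (x : i.Λ), star x = (Q i).conj x :=
    fun i x => star_eq_conj i.hN (Q i) i.st x
  obtain ⟨D, hDdef⟩ : ∃ D, D = fam (fun i : DatD m s => i.A - (i.A)ᴴ) := ⟨_, rfl⟩
  have hD : D = fam (fun i : DatD m s => i.A) + (-1 : ℤ) • (fam fun i : DatD m s => i.A)ᴴ := by
    rw [hDdef]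
    refine cm_ext fun i => ?_
    rw [cm_add, cm_smul, cm_ct, cm_fam, cm_fam]
    exact sub_star_eq _
  choose u hu using fun i : DatD m s => i.hu
  have hDD : D * fam (fun i => (u i)⁻¹.val) = 1 := by
    rw [hDdef]
    refine cm_ext fun i => ?_
    rw [cm_mul, cm_one, cm_fam, cm_fam, ← hu i]
    exact (u i).mul_inv
  have hDD' : fam (fun i => (u i)⁻¹.val) * D = 1 := by
    rw [hDdef]
    refine cm_ext fun i => ?_
    rw [cm_mul, cm_one, cm_fam, cm_fam, ← hu i]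
    exact (u i).inv_mul
  have hJ : (JG (-1) (Fin m) D)ᴴ = (-1 : ℤ) • JG (-1) (Fin m) D := PG.JG_star hε hD
  have hcJ : ∀ i : DatD m s, cm i (JG (-1) (Fin m) D) = JG (-1) (Fin m) (i.A - (i.A)ᴴ) := by
    intro i
    rw [JG_cm, hDdef, cm_fam]
  have hid : Idem (JG (-1) (Fin m) D) (fam fun i : DatD m s => i.e)
      (fam fun i : DatD m s => i.e') :=
    idem_pi fun i => by
      rw [hcJ, cm_fam, cm_fam]
      exact i.hid
  obtain ⟨w, w', h1, h2, h3, h4, h5⟩ := exists_pair (N := fun i : DatD m s => i.N)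
    (R := fun i : DatD m s => i.R) (fun i => i.hN) Q hQ (Or.inr rfl) hn hD hDD hDD' hid
    (fun i => by rw [cm_fam]; exact i.h0) (big_UR hε hJ hid)
  have hR : Reach (-1) (Fin m) D := fun a c x w z t h =>
    reachGD (N := fun i : DatD m s => i.N) (R := fun i : DatD m s => i.R) hn (fun i => i.hN) Q hQ
      hD a c x w z t h
  have hle := PG.EG_le_of_pair (H := UR hid ⊔ UR hid.swap) hε hD hR h1 h2 h3 h4 h5
  have h6 : famU (fun i : DatD m s => i.g) ∈ EG (-1) (Fin m) D := by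
    have hi : ∀ i : DatD m s, comp i (famU (fun i : DatD m s => i.g)) ∈
        isom (JG (-1) (Fin m) (i.A - (i.A)ᴴ)) := by
      intro i
      rw [comp_famU]
      exact EG_le _ _ _ i.hg
    have h := mem_EG_of_theta (N := fun i : DatD m s => i.N) (R := fun i : DatD m s => i.R)
      (fun i => i.hN) Q hQ m hm (A := fun i => i.A) (D := fun i => i.A - (i.A)ᴴ)
      (D' := fun i => (u i)⁻¹.val) (fun i => sub_star_eq _)
      (fun i => by rw [← hu i]; exact (u i).mul_inv) (fun i => by rw [← hu i]; exact (u i).inv_mul)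
      (famU (fun i : DatD m s => i.g)) hi (fun i p _ ρ hρ hp2 hpN => by
        refine theta_EG hp2 hρ _ 1 _ ?_
        change comp i (famU (fun i : DatD m s => i.g)) ∈ _
        rw [comp_famU]
        exact i.hg)
    rw [hDdef]
    exact h
  have h7 := hle h6
  generalize hX : famU (fun i : DatD m s => i.g) = X at h7
  obtain ⟨L, hL⟩ := exists_pow_of_mem_sup h7
  refine ⟨L, fun N hN R Λ _ _ _ _ _ _ haz hst A' hDu e e' h h0 =>
    Set.Subset.antisymm ?_ fun g hg => ?_⟩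
  · have : Module.Free R Λ := haz.free
    have : Module.Finite R Λ := haz.finite hN
    have Q' : QAlg N R Λ := (haz.qalg hN).some
    have hQ' : ∀ x : Λ, star x = Q'.conj x := fun x => star_eq_conj hN Q' hst x
    obtain ⟨u', hu'⟩ := hDu
    have h8 : ∀ g : (Matrix ((Fin m ⊕ Fin m) ⊕ Fin s) ((Fin m ⊕ Fin m) ⊕ Fin s) Λ)ˣ,
        g ∈ isom (JG (-1) (Fin m) (A' - A'ᴴ)) → (g.val - 1) ^ 3 = 0 →
        g ∈ EG (-1) (Fin m) (A' - A'ᴴ) := fun g hg h3 =>
      mem_EG_of_nilp hN Q' hQ' m hm (D' := u'⁻¹.val) (sub_star_eq _)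
        (by rw [← hu']; exact u'.mul_inv) (by rw [← hu']; exact u'.inv_mul) g hg 3 h3
    have a1 : UR h ≤ EG (-1) (Fin m) (A' - A'ᴴ) := fun g hg => h8 g hg.1 (UR_nilp h hg)
    have a2 : UR h.swap ≤ EG (-1) (Fin m) (A' - A'ᴴ) :=
      fun g hg => h8 g hg.1 (UR_nilp h.swap hg)
    exact pow_subset_group a1 a2 L
  · obtain ⟨i, hi⟩ : ∃ i : DatD m s, i = ⟨N, hN, R, Λ, inferInstance, inferInstance,
      inferInstance, inferInstance, inferInstance, haz, hst, inferInstance, A', hDu, e, e', h, h0,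
      g, hg⟩ := ⟨_, rfl⟩
    subst hi
    have h8 := map_mem_pow (comp (⟨N, hN, R, Λ, inferInstance, inferInstance,
      inferInstance, inferInstance, inferInstance, haz, hst, inferInstance, A', hDu, e, e', h, h0,
      g, hg⟩ : DatD m s))
      (fun x hx => comp_mem_UR hid _ h (hcJ _) rfl rfl hx)
      (fun x hx => comp_mem_UR hid.swap _ h.swap (hcJ _) rfl rfl hx) L hL
    rw [← hX, comp_famU] at h8
    exact h8

/-- **all parabolics, type `D`**: `e` is a grading `V = ⊕ V_i` with `V_i` orthogonal to `V_j`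
unless `j = rev i` (all pairs of opposite parabolic subgroups), not concentrated in the middle -/
theorem all_parabolicsD (m s : ℕ) (hm : 3 ≤ m) : ∃ L : ℕ, ∀ N : ℕ, N ≠ 0 → ∀ (R Λ : Type)
    [CommRing R] [IsLocalization.Away (N : ℤ) R] [Ring Λ] [NoZeroDivisors Λ] [StarRing Λ]
    [Algebra R Λ],
    IsQuaternionAzumaya N R Λ → (∀ x : Λ, ∃ t : R, x + star x = algebraMap R Λ t) →
    ∀ A : Matrix (Fin s) (Fin s) Λ, IsUnit (A - Aᴴ) →
    ∃ E : Subgroup (Matrix ((Fin m ⊕ Fin m) ⊕ Fin s) ((Fin m ⊕ Fin m) ⊕ Fin s) Λ)ˣ,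
    ∀ (l : ℕ) (e : Fin l → Matrix ((Fin m ⊕ Fin m) ⊕ Fin s) ((Fin m ⊕ Fin m) ⊕ Fin s) Λ),
      CompleteOrthogonalIdempotents e →
      (∀ i, (e i)ᴴ * JG (-1) (Fin m) (A - Aᴴ) = JG (-1) (Fin m) (A - Aᴴ) * e (Fin.rev i)) →
      (∃ i, e i ≠ 0 ∧ Fin.rev i ≠ i) →
      Subgroup.closure (Rad (JG (-1) (Fin m) (A - Aᴴ)) e ∪
        Rad (JG (-1) (Fin m) (A - Aᴴ)) (fun i => e (Fin.rev i))) = E ∧
      (Rad (JG (-1) (Fin m) (A - Aᴴ)) e *
        Rad (JG (-1) (Fin m) (A - Aᴴ)) (fun i => e (Fin.rev i))) ^ L =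
        (E : Set (Matrix ((Fin m ⊕ Fin m) ⊕ Fin s) ((Fin m ⊕ Fin m) ⊕ Fin s) Λ)ˣ) := by
  have hε : (-1 : ℤ) * (-1) = 1 := by norm_num
  obtain ⟨L, hL⟩ := width_URD m s hm
  refine ⟨L, fun N hN R Λ _ _ _ _ _ _ haz hst A hDu => ⟨EG (-1) (Fin m) (A - Aᴴ),
    fun l e he ha h0 => ?_⟩⟩
  have : Module.Free R Λ := haz.free
  have : Module.Finite R Λ := haz.finite hN
  have Q' : QAlg N R Λ := (haz.qalg hN).some
  have hQ' : ∀ x : Λ, star x = Q'.conj x := fun x => star_eq_conj hN Q' hst x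
  obtain ⟨u', hu'⟩ := id hDu
  have h8 : ∀ (g : (Matrix ((Fin m ⊕ Fin m) ⊕ Fin s) ((Fin m ⊕ Fin m) ⊕ Fin s) Λ)ˣ) (K : ℕ),
      g ∈ isom (JG (-1) (Fin m) (A - Aᴴ)) → (g.val - 1) ^ K = 0 →
      g ∈ EG (-1) (Fin m) (A - Aᴴ) := fun g K hg h3 =>
    mem_EG_of_nilp hN Q' hQ' m hm (D' := u'⁻¹.val) (sub_star_eq _)
      (by rw [← hu']; exact u'.mul_inv) (by rw [← hu']; exact u'.inv_mul) g hg K h3
  have he' : CompleteOrthogonalIdempotents (fun i => e (Fin.rev i)) := BW.AP.rev he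
  have hsub : ∀ x ∈ Rad (JG (-1) (Fin m) (A - Aᴴ)) e, x ∈ EG (-1) (Fin m) (A - Aᴴ) := by
    intro x hx
    obtain ⟨K, hK⟩ := grad_nilp e he _ hx.2
    exact h8 x K hx.1 hK
  have hsub' : ∀ x ∈ Rad (JG (-1) (Fin m) (A - Aᴴ)) (fun i => e (Fin.rev i)),
      x ∈ EG (-1) (Fin m) (A - Aᴴ) := by
    intro x hx
    obtain ⟨K, hK⟩ := grad_nilp _ he' _ hx.2
    exact h8 x K hx.1 hK
  have hpow : (Rad (JG (-1) (Fin m) (A - Aᴴ)) e *
      Rad (JG (-1) (Fin m) (A - Aᴴ)) (fun i => e (Fin.rev i))) ^ L =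
      (EG (-1) (Fin m) (A - Aᴴ) :
        Set (Matrix ((Fin m ⊕ Fin m) ⊕ Fin s) ((Fin m ⊕ Fin m) ⊕ Fin s) Λ)ˣ) := by
    refine Set.Subset.antisymm ?_ ?_
    · intro x hx
      have h1 := map_mem_pow (MonoidHom.id _)
        (A' := (EG (-1) (Fin m) (A - Aᴴ) :
          Set (Matrix ((Fin m ⊕ Fin m) ⊕ Fin s) ((Fin m ⊕ Fin m) ⊕ Fin s) Λ)ˣ))
        (B' := (EG (-1) (Fin m) (A - Aᴴ) :
          Set (Matrix ((Fin m ⊕ Fin m) ⊕ Fin s) ((Fin m ⊕ Fin m) ⊕ Fin s) Λ)ˣ))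
        hsub hsub' L hx
      exact pow_subset_group le_rfl le_rfl L h1
    · obtain ⟨J', -, hJJ'⟩ := JG_inv (n := Fin m) hε u'.mul_inv u'.inv_mul
      rw [hu'] at hJJ'
      obtain ⟨i₀, hi₀, hlt, hlow, hhigh⟩ := exists_low hJJ' ha h0
      have hid := grad_idem he ha hlt.ne
      rw [← hL N hN R Λ haz hst A hDu (e i₀) (e (Fin.rev i₀)) hid hi₀]
      refine Set.pow_subset_pow_left (Set.mul_subset_mul (UR_le_Rad he hid hlow hhigh) ?_)
      have h1 : Idem (JG (-1) (Fin m) (A - Aᴴ)) ((fun i => e (Fin.rev i)) i₀)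
          ((fun i => e (Fin.rev i)) (Fin.rev i₀)) := by
        simp only [Fin.rev_rev]
        exact hid.swap
      have h2 := UR_le_Rad he' h1 (fun j hj => hhigh _ (Fin.rev_lt_rev.2 hj))
        (fun j hj => hlow _ (by rw [← Fin.rev_rev i₀]; exact Fin.rev_lt_rev.2 hj))
      intro x hx
      refine h2 ?_
      simp only [SetLike.mem_coe, mem_UR, Fin.rev_rev] at hx ⊢
      exact hx
  refine ⟨le_antisymm ?_ ?_, hpow⟩
  · rw [Subgroup.closure_le]
    rintro x (hx | hx)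
    · exact hsub x hx
    · exact hsub' x hx
  · intro x hx
    have h1 : x ∈ (Rad (JG (-1) (Fin m) (A - Aᴴ)) e *
      Rad (JG (-1) (Fin m) (A - Aᴴ)) (fun i => e (Fin.rev i))) ^ L := by rw [hpow]; exact hx
    have h2 := map_mem_pow (MonoidHom.id _)
      (A' := (Subgroup.closure (Rad (JG (-1) (Fin m) (A - Aᴴ)) e ∪
        Rad (JG (-1) (Fin m) (A - Aᴴ)) (fun i => e (Fin.rev i))) :
        Set (Matrix ((Fin m ⊕ Fin m) ⊕ Fin s) ((Fin m ⊕ Fin m) ⊕ Fin s) Λ)ˣ))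
      (B' := (Subgroup.closure (Rad (JG (-1) (Fin m) (A - Aᴴ)) e ∪
        Rad (JG (-1) (Fin m) (A - Aᴴ)) (fun i => e (Fin.rev i))) :
        Set (Matrix ((Fin m ⊕ Fin m) ⊕ Fin s) ((Fin m ⊕ Fin m) ⊕ Fin s) Λ)ˣ))
      (fun x hx => Subgroup.subset_closure (Or.inl hx))
      (fun x hx => Subgroup.subset_closure (Or.inr hx)) L h1
    exact pow_subset_group le_rfl le_rfl L h2

end Dat

end BWC.SN
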