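import Pool.Agent.BWC.KReachG
import Pool.Agent.BWD.Reach

/-!
# Reaching a unimodular first half in `H^n ⊥ V₀`, `ε = -1` (type `D`)

No hypothesis on zero divisors is needed.
-/

set_option autoImplicit false
set_option linter.unusedSectionVars false

namespace BWC

open Matrix
open BW hiding star

/-! ### `EUL = EU` for `ε = -1` -/

section Lev

variable {n P : Type*} [DecidableEq n] [Fintype n] [Ring P] [StarRing P]

/-- the identity behind `lev_el_memD` -/
theorem lev_el_eqD (y : P) (i j : n) (h : i ≠ j) : lev (el i j h y) =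
      up (Matrix.single i i 1) *
        lo (Matrix.single i j y + Matrix.single j i (Star.star y)) *
      up (-Matrix.single i i 1) *
        lo (-(Matrix.single i j y + Matrix.single j i (Star.star y) +
          Matrix.single j j (Star.star y * y))) := by
  have s1 : ∀ (a b c d : n) (u v : P), b ≠ c →
      Matrix.single a b u * Matrix.single c d v = 0 := fun a b c d u v hbc =>
    Matrix.single_mul_single_of_ne _ _ _ _ hbc _
  have e1 : (el i j h y).val = 1 + Matrix.single i j y := rfl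
  have e2 : ((el i j h y)⁻¹).val = 1 - Matrix.single i j y := rfl
  have h1 : Matrix.single i i 1 * (Matrix.single i j y + Matrix.single j i (Star.star y)) =
      Matrix.single i j y := by
    rw [mul_add, s1 i i j i _ _ h, Matrix.single_mul_single_same, add_zero, one_mul]
  have h2 : (Matrix.single i j y + Matrix.single j i (Star.star y)) * Matrix.single i i 1 =
      Matrix.single j i (Star.star y) := by
    rw [add_mul, s1 i j i i _ _ h.symm, Matrix.single_mul_single_same, zero_add, mul_one]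
  have h3 : Matrix.single i j y * Matrix.single i i 1 = 0 := s1 _ _ _ _ _ _ h.symm
  have h4 : Matrix.single j i (Star.star y) *
      (Matrix.single i j y + Matrix.single j i (Star.star y) +
        Matrix.single j j (Star.star y * y)) =
      Matrix.single j j (Star.star y * y) := by
    rw [mul_add, mul_add, s1 j i j i _ _ h, s1 j i j j _ _ h, Matrix.single_mul_single_same,
      add_zero, add_zero]
  apply Units.ext
  rw [Units.val_mul, Units.val_mul, Units.val_mul, lev_val, up_val, up_val, lo_val, lo_val]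
  simp only [Matrix.fromBlocks_multiply]
  rw [e1, e2, Matrix.conjTranspose_sub, Matrix.conjTranspose_one, Matrix.conjTranspose_single]
  simp only [mul_one, one_mul, mul_zero, add_zero, zero_add, mul_neg, neg_mul, add_mul, h1, h2, h3,
    h4]
  congr 1
  · simp
  · simp
  · abel
  · abel

theorem lev_el_memD (y : P) (i j : n) (h : i ≠ j) : lev (el i j h y) ∈ EU (-1) n P := by
  have h1 : Sk (-1) (Matrix.single i i (1 : P)) := Sk_diag i (star_one P)
  have h2 : Sk (-1) (Matrix.single i j y + Matrix.single j i (Star.star y)) := by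
    unfold Sk
    rw [Matrix.conjTranspose_add, Matrix.conjTranspose_single, Matrix.conjTranspose_single,
      star_star, neg_smul, one_smul, neg_neg, add_comm]
  have h3 : Sk (-1) (Matrix.single j j (Star.star y * y)) :=
    Sk_diag j (by rw [star_mul, star_star])
  rw [lev_el_eqD y i j h]
  exact mul_mem (mul_mem (mul_mem (up_mem h1) (lo_mem h2)) (up_mem h1.neg)) (lo_mem (h2.add h3).neg)

variable (n P) in
/-- `EUL = EU` for `ε = -1`, any number of planes -/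
theorem EUL_eqD : EUL (-1) n P = EU (-1) n P := by
  refine le_antisymm (sup_le le_rfl ?_) EU_le_EUL
  rw [Subgroup.map_le_iff_le_comap, E, Subgroup.closure_le]
  rintro _ ⟨i, j, h, x, rfl⟩
  exact lev_el_memD x i j h

end Lev

section Comp

variable {N : ℕ} {R Λ : Type*} [CommRing R] [IsLocalization.Away (N : ℤ) R] [Ring Λ] [Algebra R Λ]

/-- first round: the first coordinate gets a non-zero norm -/
theorem reach1D (hN : N ≠ 0) (Q : QAlg N R Λ) (a0 a1 c0 c1 β x0 x1 w0 w1 : Λ)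
    (h : x0 * a0 + x1 * a1 + w0 * c0 + w1 * c1 + β = 1) :
    ∃ t : Λ, ∀ κ : Λ, ∃ (y : Λ) (s : ℤ) (t' : Λ),
      Q.n ((a0 + y * (a1 + t * β + κ * c1)) +
        t' * ((a1 + t * β + κ * c1) + (s : Λ) * (c1 - Q.conj y * c0))) ≠ 0 := by
  obtain ⟨q, hq1, hq⟩ := Nat.exists_infinite_primes (N + 1)
  have hqN : ¬ q ∣ N := fun h => by
    have := Nat.le_of_dvd (Nat.pos_of_ne_zero hN) h
    omega
  have := Fact.mk hq
  obtain ⟨t, ht⟩ := absorb_mod Q hq hqN a0 a1 c0 c1 β x0 x1 w0 w1 h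
  refine ⟨t, fun κ => ?_⟩
  obtain ⟨z, hz⟩ := ht t 0 (by rw [mul_zero, add_zero])
  rw [mem4] at hz
  obtain ⟨x0', x1', w0', w1', h1⟩ := hz
  obtain ⟨y, s, hys⟩ := planes_modD hN Q hq hqN a0 (a1 + t * β + κ * c1) c0 c1 x0' x1' w0'
    (w1' - x1' * κ) ⟨z, by rw [← h1]; noncomm_ring⟩
  obtain ⟨u, v, z'', huv⟩ := hys y 0 s 0 (by rw [mul_zero, add_zero]) (by rw [mul_zero, add_zero])
  obtain ⟨ρ, hsu, hk, hdet⟩ := Q.fibre q hq hqN
  obtain ⟨T', hT'⟩ := sr1 (ρ (a0 + y * (a1 + t * β + κ * c1)))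
    (ρ ((a1 + t * β + κ * c1) + (s : Λ) * (c1 - Q.conj y * c0))) (ρ u) (ρ v) (by
      rw [← map_mul, ← map_mul, ← map_add, huv, rho_add_mul, map_one])
  obtain ⟨t', rfl⟩ := hsu T'
  rw [← map_mul, ← map_add, isUnit_rho Q hq hqN hdet] at hT'
  exact ⟨y, s, t', fun h0 => hT' (by rw [h0]; exact dvd_zero _)⟩

/-- second round: the first two coordinates become unimodular -/
theorem reach2D (hN : N ≠ 0) (Q : QAlg N R Λ) (a0 a1 c0 c1 β x0 x1 w0 w1 : Λ)
    (h0 : Q.n a0 ≠ 0) (h : x0 * a0 + x1 * a1 + w0 * c0 + w1 * c1 + β = 1) :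
    ∃ t : Λ, ∀ κ : Λ, ∃ (y : Λ) (s : ℤ),
      ∃ u v, u * (a0 + y * (a1 + t * β + κ * c1)) +
        v * ((a1 + t * β + κ * c1) + (s : Λ) * (c1 - Q.conj y * c0)) = 1 := by
  obtain ⟨t, x0', x1', w0', w1', h1⟩ := absorb hN Q a0 a1 c0 c1 β x0 x1 w0 w1 h0 h
  refine ⟨t, fun κ => ?_⟩
  obtain ⟨y, s, -, u, v, huv⟩ := two_planesD hN Q a0 (a1 + t * β + κ * c1) c0 c1 x0' x1' w0'
    (w1' - x1' * κ) h0 (by rw [← h1]; noncomm_ring)
  exact ⟨y, s, u, v, huv⟩

end Comp

section Family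

variable {ι : Type*} {N : ι → ℕ} {R Λ : ι → Type*} [∀ i, CommRing (R i)]
  [∀ i, IsLocalization.Away (N i : ℤ) (R i)] [∀ i, Ring (Λ i)] [∀ i, StarRing (Λ i)]
  [∀ i, Algebra (R i) (Λ i)] {n r : Type*} [DecidableEq n] [Fintype n] [DecidableEq r] [Fintype r]

theorem star_of_int (s : ι → ℤ) : Star.star (fun i => (s i : Λ i) : ∀ i, Λ i) =
    -((-1 : ℤ) • (fun i => (s i : Λ i) : ∀ i, Λ i)) := by
  rw [neg_smul, one_smul, neg_neg]
  funext i
  exact star_intCast (s i)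

/-- **reach**, `ε = -1`: a vector `(a; c; z)` of `H^n ⊥ V₀` with `x · a + w · c + h(τ, z) = 1` can be
moved by an elementary isometry, fixing all vectors of `V₀` orthogonal to `τ`, to a vector whose
first half is unimodular -/
theorem reachGD (hn2 : 2 ≤ Fintype.card n) (hN : ∀ i, N i ≠ 0) (Q : ∀ i, QAlg (N i) (R i) (Λ i))
    (hQ : ∀ i x, Star.star x = (Q i).conj x) {A D : Matrix r r (∀ i, Λ i)}
    (hD : D = A + (-1 : ℤ) • Aᴴ) (a c x w : n → ∀ i, Λ i) (z τ : r → ∀ i, Λ i)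
    (h : x ⬝ᵥ a + w ⬝ᵥ c + star τ ⬝ᵥ (D *ᵥ z) = 1) :
    ∃ e ∈ EG (-1) n D,
      (∀ v : r → ∀ i, Λ i, star τ ⬝ᵥ (D *ᵥ v) = 0 →
        e.val *ᵥ Sum.elim (0 : n ⊕ n → ∀ i, Λ i) v = Sum.elim (0 : n ⊕ n → ∀ i, Λ i) v) ∧
      ∃ y : n → ∀ i, Λ i,
        (y ⬝ᵥ fun j => (e.val *ᵥ Sum.elim (Sum.elim a c) z) (Sum.inl (Sum.inl j))) = 1 := by
  have hε : (-1 : ℤ) * (-1) = 1 := by norm_num
  have hn := EUL_eqD n (∀ i, Λ i)
  obtain ⟨i0, i1, h01⟩ : ∃ i0 i1 : n, i0 ≠ i1 := Fintype.exists_pair_of_one_lt_card (by omega)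
  have hx : ∃ y, MR n D τ y ∧ y ⬝ᵥ Sum.elim (Sum.elim a c) z = 1 := by
    refine ⟨Sum.elim (Sum.elim x w) (star τ ᵥ* D), ⟨1, fun k => by simp⟩, ?_⟩
    rw [sumElim_dotProduct_sumElim, sumElim_dotProduct_sumElim, ← Matrix.dotProduct_mulVec, h]
  generalize Sum.elim (Sum.elim a c) z = X at hx ⊢
  -- first round
  obtain ⟨a0, a1, c0, c1, β, x0, x1, w0, w1, h, -, hr⟩ := roundG hε hn hD τ h01 X hx
  choose t ht using fun i => reach1D (hN i) (Q i) (a0 i) (a1 i) (c0 i) (c1 i) (β i) (x0 i) (x1 i)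
    (w0 i) (w1 i) (congrFun h i)
  obtain ⟨κ, hκ⟩ := hr t
  choose y s t' hn' using fun i => ht i (κ i)
  obtain ⟨e, he, e1, e2⟩ := hκ y (fun i => (s i : Λ i)) (star_of_int s)
  obtain ⟨e', he', a', c', f1, f2⟩ : ∃ e' ∈ EG (-1) n D ⊓ GT n D τ, ∃ (a' c' : n → ∀ i, Λ i),
      e'.val *ᵥ (e.val *ᵥ X) = Sum.elim (Sum.elim a' c') (fun k => (e.val *ᵥ X) (Sum.inr k)) ∧
      a' i0 = (e.val *ᵥ X) (Sum.inl (Sum.inl i0)) + t' * (e.val *ᵥ X) (Sum.inl (Sum.inl i1)) := by
    obtain ⟨e', he', a', c', f1, f2⟩ := lastG hε hn D τ h01 t'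
      (fun k => (e.val *ᵥ X) (Sum.inl (Sum.inl k))) (fun k => (e.val *ᵥ X) (Sum.inl (Sum.inr k)))
      (fun k => (e.val *ᵥ X) (Sum.inr k))
    refine ⟨e', he', a', c', ?_, f2⟩
    rw [← f1]
    congr 1
    ext j; rcases j with (j | j) | j <;> rfl
  have hn2 : ∀ i, (Q i).n (a' i0 i) ≠ 0 := fun i => by
    rw [f2, e1, e2]
    have := hn' i
    rw [← hQ] at this
    exact this
  -- second round
  have hx' : ∃ y, MR n D τ y ∧ y ⬝ᵥ ((e' * e).val *ᵥ X) = 1 :=
    unimod_mulG (mul_mem he'.2 he.2) hx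
  have hx'' : (e' * e).val *ᵥ X = Sum.elim (Sum.elim a' c') (fun k => (e.val *ᵥ X) (Sum.inr k)) := by
    rw [Units.val_mul, ← Matrix.mulVec_mulVec, f1]
  obtain ⟨b0, b1, g0, g1, β', y0, y1, v0, v1, h', hb0, hr'⟩ := roundG hε hn hD τ h01 _ hx'
  have hb0' : b0 = a' i0 := by rw [hb0, hx'']; rfl
  choose τ' hτ using fun i => reach2D (hN i) (Q i) (b0 i) (b1 i) (g0 i) (g1 i) (β' i) (y0 i) (y1 i)
    (v0 i) (v1 i) (by rw [hb0']; exact hn2 i) (congrFun h' i)
  obtain ⟨κ', hκ'⟩ := hr' τ'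
  choose y' s' u v huv using fun i => hτ i (κ' i)
  obtain ⟨e'', he'', k1, k2⟩ := hκ' y' (fun i => (s' i : Λ i)) (star_of_int s')
  have hmem : e'' * (e' * e) ∈ EG (-1) n D ⊓ GT n D τ := mul_mem he'' (mul_mem he' he)
  refine ⟨e'' * (e' * e), hmem.1, fun v hv => hmem.2.1 v hv, Pi.single i0 u + Pi.single i1 v, ?_⟩
  rw [add_dotProduct, single_dotProduct, single_dotProduct]
  have k3 : (e'' * (e' * e)).val *ᵥ X = e''.val *ᵥ ((e' * e).val *ᵥ X) := by
    rw [Units.val_mul, ← Matrix.mulVec_mulVec]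
  rw [k3, k1, k2]
  funext i
  have := huv i
  rw [← hQ] at this
  exact this

end Family

end BWC
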