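import Pool.Agent.BW.APSys
import Pool.Agent.BWD.NonRes
import Pool.Agent.BWD.Units

/-!
# Auxiliary results for the spinor norm by permutation signs
-/

namespace BWC.SN

open BW Matrix

/-- a unit of `ℤ[1/N]` is `c v ^ 2` with `c = ± s`, `s` squarefree, `s ∣ N` -/
theorem unit_eq (N : ℕ) (hN : N ≠ 0) (R : Type*) [CommRing R] [IsLocalization.Away (N : ℤ) R]
    (u : R) (hu : IsUnit u) : ∃ (s : ℕ) (c : ℤ), Squarefree s ∧ (c = s ∨ c = -s) ∧
      ∃ v w : R, v * w = 1 ∧ u = (c : R) * v ^ 2 := by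
  have hC := Loc.charZero N R hN
  have hNu : IsUnit (N : R) := Loc.isUnit_natCast N R
  obtain ⟨u', huu⟩ := hu.exists_right_inv
  obtain ⟨a, k, ha⟩ := Loc.exists_int N u
  obtain ⟨b, l, hb⟩ := Loc.exists_int N u'
  have hab : a * b = (N : ℤ) ^ (k + l) := by
    have h1 : ((a * b : ℤ) : R) = (((N : ℤ) ^ (k + l) : ℤ) : R) := by
      push_cast
      rw [← ha, ← hb, pow_add]
      calc u * (N : R) ^ k * (u' * (N : R) ^ l) = (u * u') * ((N : R) ^ k * (N : R) ^ l) := by ring
        _ = _ := by rw [huu, one_mul]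
    exact Loc.intCast_injective N R hN h1
  have h0 : a.natAbs ∣ N ^ (k + l) := by
    have h1 := congrArg Int.natAbs hab
    rw [Int.natAbs_mul, Int.natAbs_pow, Int.natAbs_natCast] at h1
    exact Dvd.intro _ h1
  have hM0 : a.natAbs * N ^ k ∣ N ^ (k + l + k + 1) := by
    refine (mul_dvd_mul h0 (dvd_refl (N ^ k))).trans ?_
    rw [← pow_add]
    exact pow_dvd_pow N (by omega)
  obtain ⟨s, t, hst, hs⟩ := Nat.sq_mul_squarefree (a.natAbs * N ^ k)
  have htN : t ∣ N ^ (k + l + k + 1) :=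
    ((Dvd.intro_left _ (sq t).symm).trans (Dvd.intro _ hst)).trans hM0
  have htu : IsUnit (t : R) := Loc.isUnit_of_dvd_pow N R htN
  obtain ⟨t', ht'⟩ := htu.exists_right_inv
  obtain ⟨M, hM⟩ := hNu.exists_right_inv
  have hMk : (N : R) ^ k * M ^ k = 1 := by rw [← mul_pow, hM, one_pow]
  have huM : u = (a : R) * M ^ k := by
    rw [← ha, mul_assoc, hMk, mul_one]
  have hst' : (t : R) ^ 2 * (s : R) = (a.natAbs : R) * (N : R) ^ k := by
    have h1 := congrArg (fun x : ℕ => (x : R)) hst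
    push_cast at h1
    exact h1
  rcases Int.natAbs_eq a with h | h
  · refine ⟨s, (s : ℤ), hs, Or.inl rfl, (t : R) * M ^ k, t' * (N : R) ^ k, ?_, ?_⟩
    · calc (t : R) * M ^ k * (t' * (N : R) ^ k) = ((t : R) * t') * ((N : R) ^ k * M ^ k) := by ring
        _ = 1 := by rw [ht', hMk, one_mul]
    · have h1 : (a : R) = (a.natAbs : R) := by
        conv_lhs => rw [h]
        exact Int.cast_natCast _
      rw [huM, h1, Int.cast_natCast]
      calc (a.natAbs : R) * M ^ k = (a.natAbs : R) * M ^ k * ((N : R) ^ k * M ^ k) := by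
            rw [hMk, mul_one]
        _ = ((a.natAbs : R) * (N : R) ^ k) * (M ^ k) ^ 2 := by ring
        _ = _ := by rw [← hst']; ring
  · refine ⟨s, -(s : ℤ), hs, Or.inr rfl, (t : R) * M ^ k, t' * (N : R) ^ k, ?_, ?_⟩
    · calc (t : R) * M ^ k * (t' * (N : R) ^ k) = ((t : R) * t') * ((N : R) ^ k * M ^ k) := by ring
        _ = 1 := by rw [ht', hMk, one_mul]
    · have h1 : (a : R) = -(a.natAbs : R) := by
        conv_lhs => rw [h]
        rw [Int.cast_neg, Int.cast_natCast]
      rw [huM, h1, Int.cast_neg, Int.cast_natCast]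
      calc -(a.natAbs : R) * M ^ k = -(a.natAbs : R) * M ^ k * ((N : R) ^ k * M ^ k) := by
            rw [hMk, mul_one]
        _ = -(((a.natAbs : R) * (N : R) ^ k) * (M ^ k) ^ 2) := by ring
        _ = _ := by rw [← hst']; ring

/-- (1) a unit which is a square modulo all odd primes is the square of a unit -/
theorem square_of_local {N : ℕ} (hN : N ≠ 0) (R : Type*) [CommRing R]
    [IsLocalization.Away (N : ℤ) R] (u : R) (hu : IsUnit u)
    (h : ∀ (p : ℕ) (hp : p.Prime) (hpN : ¬ p ∣ N), p ≠ 2 → IsSquare (Loc.phi N R hp hpN u)) :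
    ∃ v w : R, v * w = 1 ∧ u = v ^ 2 := by
  obtain ⟨s, c, hs, hc, v, w, hvw, rfl⟩ := unit_eq N hN R u hu
  by_cases hc1 : c = 1
  · subst hc1
    exact ⟨v, w, hvw, by rw [Int.cast_one, one_mul]⟩
  · exfalso
    obtain ⟨p, hp, hpN, hp2, hsq⟩ := exists_nonres s hs c hc hc1 N hN
    apply hsq
    obtain ⟨y, hy⟩ := h p hp hpN hp2
    have h1 : Loc.phi N R hp hpN v * Loc.phi N R hp hpN w = 1 := by rw [← map_mul, hvw, map_one]
    rw [map_mul, map_intCast, map_pow] at hy
    refine ⟨y * Loc.phi N R hp hpN w, ?_⟩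
    calc (c : ZMod p) = c * (Loc.phi N R hp hpN v * Loc.phi N R hp hpN w) ^ 2 := by
          rw [h1, one_pow, mul_one]
      _ = (c * Loc.phi N R hp hpN v ^ 2) * (Loc.phi N R hp hpN w) ^ 2 := by ring
      _ = _ := by rw [hy]; ring

section emb

open Pool.Agent.Helper24.BWR

variable {m n Λ : Type*} [DecidableEq m] [Fintype m] [DecidableEq n] [Fintype n] [Ring Λ]

omit [DecidableEq m] [Fintype n] in
theorem pm_mul_of_range (φ : m ↪ n) (M : Matrix m m Λ) (a b : m) :
    (pm Λ φ * M * qm Λ φ) (φ a) (φ b) = M a b := by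
  rw [Matrix.mul_apply, Finset.sum_eq_single b]
  · rw [Matrix.mul_apply, Finset.sum_eq_single a]
    · simp [qm, pm]
    · intro c _ hc
      have : ¬ φ a = φ c := fun h => hc (φ.injective h).symm
      simp [pm, this]
    · intro h
      exact absurd (Finset.mem_univ _) h
  · intro c _ hc
    have : ¬ φ b = φ c := fun h => hc (φ.injective h).symm
    simp [qm, this]
  · intro h
    exact absurd (Finset.mem_univ _) h

omit [DecidableEq m] [Fintype n] in
theorem pm_mul_of_left (φ : m ↪ n) (M : Matrix m m Λ) {i : n} (hi : i ∉ Set.range φ) (j : n) :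
    (pm Λ φ * M * qm Λ φ) i j = 0 := by
  rw [Matrix.mul_assoc, Matrix.mul_apply]
  refine Finset.sum_eq_zero fun a _ => ?_
  have : ¬ i = φ a := fun h => hi ⟨a, h.symm⟩
  simp [pm, this]

omit [DecidableEq m] [Fintype n] in
theorem pm_mul_of_right (φ : m ↪ n) (M : Matrix m m Λ) (i : n) {j : n} (hj : j ∉ Set.range φ) :
    (pm Λ φ * M * qm Λ φ) i j = 0 := by
  rw [Matrix.mul_apply]
  refine Finset.sum_eq_zero fun a _ => ?_
  have : ¬ j = φ a := fun h => hj ⟨a, h.symm⟩
  simp [qm, this]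

/-- (2) the reduced norm of a block embedding -/
theorem nrdAt_emb {k : Type*} [CommRing k] (ρ : Λ →+* Matrix (Fin 2) (Fin 2) k) (φ : m ↪ n)
    (A : Matrix m m Λ) : nrdAt ρ (emb φ A) = nrdAt ρ A := by
  classical
  let e : m ⊕ ((Set.range φ)ᶜ : Set n) ≃ n :=
    ((Equiv.ofInjective φ φ.injective).sumCongr (Equiv.refl _)).trans
      (Equiv.Set.sumCompl (Set.range φ))
  have e1 : ∀ a, e (Sum.inl a) = φ a := fun a => by simp [e]
  have e2 : ∀ b, e (Sum.inr b) = b := fun b => by simp [e]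
  have h : (emb φ A).submatrix e e = Matrix.fromBlocks A 0 0
      (1 : Matrix ((Set.range φ)ᶜ : Set n) ((Set.range φ)ᶜ : Set n) Λ) := by
    ext a b
    rw [Matrix.submatrix_apply, emb_apply, Matrix.add_apply]
    rcases a with a | a <;> rcases b with b | b
    · rw [e1, e1, pm_mul_of_range, Matrix.fromBlocks_apply₁₁, Matrix.sub_apply]
      have h1 : (1 : Matrix n n Λ) (φ a) (φ b) = (1 : Matrix m m Λ) a b := by
        rw [Matrix.one_apply, Matrix.one_apply]
        simp only [φ.injective.eq_iff]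
      rw [h1]
      abel
    · rw [e1, e2, pm_mul_of_right _ _ _ b.2, add_zero, Matrix.fromBlocks_apply₁₂,
        Matrix.zero_apply, Matrix.one_apply_ne]
      exact fun h => b.2 ⟨a, h⟩
    · rw [e1, e2, pm_mul_of_left _ _ a.2, add_zero, Matrix.fromBlocks_apply₂₁,
        Matrix.zero_apply, Matrix.one_apply_ne]
      exact fun h => a.2 ⟨b, h.symm⟩
    · rw [e2, e2, pm_mul_of_left _ _ a.2, add_zero, Matrix.fromBlocks_apply₂₂,
        Matrix.one_apply, Matrix.one_apply]
      simp only [Subtype.coe_inj]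
  have h2 := nrdAt_submatrix ρ e (emb φ A)
  rw [h, nrdAt_fromBlocks, map_one, mul_one] at h2
  exact h2.symm

end emb

/-- (3) elements of the unipotent radicals are unipotent -/
theorem U_nilp {k P : Type*} [DecidableEq k] [Fintype k] [Ring P] (f : k → ℤ)
    (X : (Matrix k k P)ˣ) (hX : X ∈ U f) : ∃ K : ℕ, (X.val - 1) ^ K = 0 := by
  set Y : Matrix k k P := X.val - 1 with hY
  have hY0 : ∀ i j, ¬ f i < f j → Y i j = 0 := by
    intro i j hij
    rw [hY, Matrix.sub_apply, mem_U.1 hX i j hij, sub_self]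
  have key : ∀ (K : ℕ) (i j : k), ¬ f i + K ≤ f j → (Y ^ K) i j = 0 := by
    intro K
    induction K with
    | zero =>
      intro i j hij
      rw [pow_zero, Matrix.one_apply_ne]
      rintro rfl
      apply hij
      simp
    | succ K ih =>
      intro i j hij
      rw [pow_succ, Matrix.mul_apply]
      refine Finset.sum_eq_zero fun l _ => ?_
      by_cases h : f i + K ≤ f l
      · rw [hY0 l j (fun h' => hij (by push_cast; omega)), mul_zero]
      · rw [ih i l h, zero_mul]
  refine ⟨2 * ∑ i, (f i).natAbs + 1, ?_⟩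
  ext i j
  rw [Matrix.zero_apply]
  apply key
  have h1 : (f i).natAbs ≤ ∑ i, (f i).natAbs :=
    Finset.single_le_sum (f := fun i => (f i).natAbs) (fun _ _ => Nat.zero_le _)
      (Finset.mem_univ i)
  have h2 : (f j).natAbs ≤ ∑ i, (f i).natAbs :=
    Finset.single_le_sum (f := fun i => (f i).natAbs) (fun _ _ => Nat.zero_le _)
      (Finset.mem_univ j)
  push_cast
  have h3 : ((f i).natAbs : ℤ) ≤ (∑ i, ((f i).natAbs : ℤ)) := by exact_mod_cast h1
  have h4 : ((f j).natAbs : ℤ) ≤ (∑ i, ((f i).natAbs : ℤ)) := by exact_mod_cast h2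
  have h5 : -((f i).natAbs : ℤ) ≤ f i := by omega
  have h6 : f j ≤ ((f j).natAbs : ℤ) := by omega
  simp only [Int.natCast_natAbs] at *
  omega

/-- (4) unipotent matrices have order a power of `p` in characteristic `p` -/
theorem unip_pow {p : ℕ} [Fact p.Prime] {κ : Type*} [DecidableEq κ] [Fintype κ]
    (Y : Matrix κ κ (ZMod p)) (K : ℕ) (hY : Y ^ K = 0) : ∃ j : ℕ, (1 + Y) ^ (p ^ j) = 1 := by
  rcases isEmpty_or_nonempty κ with h | h
  · exact ⟨0, Matrix.ext fun i => (h.false i).elim⟩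
  · refine ⟨K, ?_⟩
    have : CharP (Matrix κ κ (ZMod p)) p := inferInstance
    rw [add_pow_char_pow_of_commute (p := p) K (Commute.one_left Y), one_pow]
    have h1 : K ≤ p ^ K := (Nat.lt_pow_self (Fact.out : p.Prime).one_lt).le
    rw [← Nat.add_sub_of_le h1, pow_add, hY, zero_mul, add_zero]

/-- (5) strictly upper triangular elements for a grading are nilpotent -/
theorem grad_nilp {k P : Type*} [DecidableEq k] [Fintype k] [Ring P] {l : ℕ}
    (e : Fin l → Matrix k k P) (he : CompleteOrthogonalIdempotents e) (X : Matrix k k P)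
    (hX : ∀ i j, ¬ i < j → e i * X * e j = 0) : ∃ K : ℕ, X ^ K = 0 :=
  ⟨l, BW.AP.pow_eq_zero_of_strict he hX⟩

end BWC.SN
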