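import Mathlib

/-!
# The sign of the action of a Levi subgroup on a quadric over a finite field
-/

set_option autoImplicit false
set_option linter.unusedSectionVars false

namespace BWC.SN

open Matrix Equiv

section Sgn

variable {H V : Type*} [Group H] [Fintype V] [DecidableEq V]

/-- the signs of the permutations induced on an invariant subset -/
def sgn (α : H →* Perm V) (S : V → Prop) [DecidablePred S] (hS : ∀ h v, S (α h v) ↔ S v) :
    H →* ℤˣ where
  toFun h := Perm.sign ((α h).subtypePerm (hS h))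
  map_one' := by
    have h1 : (α 1).subtypePerm (hS 1) = 1 := by
      ext v
      change α 1 v.1 = v.1
      rw [map_one]
      rfl
    rw [h1, Perm.sign_one]
  map_mul' g h := by
    rw [← Perm.sign_mul]
    congr 1
    ext v
    change α (g * h) v.1 = α g (α h v.1)
    rw [map_mul]
    rfl

theorem sgn_apply (α : H →* Perm V) (S : V → Prop) [DecidablePred S]
    (hS : ∀ h v, S (α h v) ↔ S v) (h : H) :
    sgn α S hS h = Perm.sign ((α h).subtypePerm (hS h)) := rfl

theorem sgn_of_odd (f : H →* ℤˣ) (h : H) (q : ℕ) (hq : Odd q) (hh : h ^ q = 1) : f h = 1 := by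
  rcases Int.units_eq_one_or (f h) with h1 | h1
  · exact h1
  · have h2 := congrArg f hh
    rw [map_pow, h1, map_one, hq.neg_one_pow] at h2
    exact absurd h2 (by decide)

end Sgn

section Fib

variable {F : Type*} [Field F] [Fintype F] [DecidableEq F]

/-- `(x, y) ↦ (c x, c⁻¹ y)` -/
def f0 (c : Fˣ) : Perm (F × F) := (Units.mulLeft c).prodCongr (Units.mulLeft c⁻¹)

theorem f0_apply (c : Fˣ) (x : F × F) : f0 c x = (c * x.1, (c⁻¹ : Fˣ) * x.2) := rfl

theorem f0_mem (c : Fˣ) (a : F) (x : F × F) :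
    (2 * (f0 c x).1 * (f0 c x).2 = a) ↔ 2 * x.1 * x.2 = a := by
  have h : 2 * (f0 c x).1 * (f0 c x).2 = 2 * x.1 * x.2 := by
    rw [f0_apply]
    calc 2 * ((c : F) * x.1) * ((c⁻¹ : Fˣ) * x.2) = 2 * x.1 * x.2 * ((c : F) * (c⁻¹ : Fˣ)) := by
          ring
      _ = _ := by rw [Units.mul_inv, mul_one]
  rw [h]

theorem sign_hyp (c : Fˣ) (a : F) (ha : a ≠ 0) (h2 : (2 : F) ≠ 0) :
    Perm.sign ((f0 c).subtypePerm (p := fun x => 2 * x.1 * x.2 = a) (f0_mem c a)) =
      Perm.sign (Equiv.mulLeft c) := by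
  have hx : ∀ x : {x : F × F // 2 * x.1 * x.2 = a}, x.1.1 ≠ 0 := by
    intro x h0
    apply ha
    rw [← x.2, h0]
    ring
  refine Perm.sign_eq_sign_of_equiv _ _
    { toFun := fun x => Units.mk0 x.1.1 (hx x)
      invFun := fun u => ⟨(u.val, a * ((2 * u.val)⁻¹)), by
        have := mul_ne_zero h2 u.ne_zero
        field_simp⟩
      left_inv := ?_
      right_inv := ?_ } ?_
  · intro x
    have h1 := hx x
    have h3 := x.2
    apply Subtype.ext
    refine Prod.ext rfl ?_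
    change a * (2 * x.1.1)⁻¹ = x.1.2
    rw [← div_eq_mul_inv, div_eq_iff (mul_ne_zero h2 h1)]
    linear_combination -h3
  · intro u
    apply Units.ext
    rfl
  · intro x
    apply Units.ext
    rfl

variable {T : Type*} [Fintype T] [DecidableEq T]

/-- the constant family -/
def fT (T : Type*) (c : Fˣ) : Perm (T × (F × F)) := prodCongrRight fun _ : T => f0 c

theorem fT_apply (c : Fˣ) (x : T × (F × F)) : fT T c x = (x.1, f0 c x.2) := rfl

theorem fT_mem (c : Fˣ) (a : F) (b : T → F) (x : T × (F × F)) :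
    (2 * (fT T c x).2.1 * (fT T c x).2.2 + b (fT T c x).1 = a) ↔
      2 * x.2.1 * x.2.2 + b x.1 = a := by
  rw [fT_apply]
  have := f0_mem c (a - b x.1) x.2
  rw [eq_sub_iff_add_eq, eq_sub_iff_add_eq] at this
  exact this

/-- the fibration -/
theorem sign_fib (c : Fˣ) (a : F) (ha : a ≠ 0) (h2 : (2 : F) ≠ 0) (b : T → F) (τ : T → T)
    (hτ : ∀ t, τ (τ t) = t) (hb : ∀ t, b (τ t) = b t) (t0 : T) (h0 : ∀ t, τ t = t ↔ t = t0)
    (hb0 : b t0 = 0) :
    Perm.sign ((fT T c).subtypePerm (p := fun x => 2 * x.2.1 * x.2.2 + b x.1 = a)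
      (fT_mem c a b)) = Perm.sign (Equiv.mulLeft c) := by
  have hm : ∀ β : F, ∀ x : F × F, (2 * (f0 c x).1 * (f0 c x).2 + β = a) ↔
      2 * x.1 * x.2 + β = a := fun β x => by
    have := f0_mem c (a - β) x
    rw [eq_sub_iff_add_eq, eq_sub_iff_add_eq] at this
    exact this
  let s : F → ℤˣ := fun β =>
    Perm.sign ((f0 c).subtypePerm (p := fun x => 2 * x.1 * x.2 + β = a) (hm β))
  have h1 : Perm.ofSubtype ((fT T c).subtypePerm (p := fun x => 2 * x.2.1 * x.2.2 + b x.1 = a)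
      (fT_mem c a b)) = prodCongrRight fun t : T => Perm.ofSubtype
        ((f0 c).subtypePerm (p := fun x => 2 * x.1 * x.2 + b t = a) (hm (b t))) := by
    ext1 x
    by_cases hx : 2 * x.2.1 * x.2.2 + b x.1 = a
    · refine (Perm.ofSubtype_apply_of_mem
        (p := fun x : T × (F × F) => 2 * x.2.1 * x.2.2 + b x.1 = a) _ hx).trans ?_
      change _ = (x.1, Perm.ofSubtype
        ((f0 c).subtypePerm (p := fun y => 2 * y.1 * y.2 + b x.1 = a) (hm (b x.1))) x.2)
      rw [Perm.ofSubtype_apply_of_mem (p := fun y : F × F => 2 * y.1 * y.2 + b x.1 = a) _ hx]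
      rfl
    · refine (Perm.ofSubtype_apply_of_not_mem
        (p := fun x : T × (F × F) => 2 * x.2.1 * x.2.2 + b x.1 = a) _ hx).trans ?_
      change _ = (x.1, Perm.ofSubtype
        ((f0 c).subtypePerm (p := fun y => 2 * y.1 * y.2 + b x.1 = a) (hm (b x.1))) x.2)
      rw [Perm.ofSubtype_apply_of_not_mem (p := fun y : F × F => 2 * y.1 * y.2 + b x.1 = a) _ hx]
  rw [← Perm.sign_ofSubtype, h1, Perm.sign_prodCongrRight]
  have h3 : ∀ t, Perm.sign (Perm.ofSubtype
        ((f0 c).subtypePerm (p := fun x => 2 * x.1 * x.2 + b t = a) (hm (b t)))) = s (b t) :=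
    fun t => Perm.sign_ofSubtype _
  rw [Finset.prod_congr rfl fun t _ => h3 t]
  rw [← Finset.mul_prod_erase Finset.univ _ (Finset.mem_univ t0)]
  have h4 : ∏ t ∈ Finset.univ.erase t0, s (b t) = 1 := by
    refine Finset.prod_involution (fun t _ => τ t) ?_ ?_ ?_ ?_
    · intro t _
      rw [hb]
      exact Int.units_mul_self _
    · intro t ht _ h
      exact (Finset.mem_erase.1 ht).1 ((h0 t).1 h)
    · intro t ht
      refine Finset.mem_erase.2 ⟨fun h => (Finset.mem_erase.1 ht).1 ?_, Finset.mem_univ _⟩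
      rw [← hτ t, h]
      exact (h0 t0).2 rfl
    · intro t _
      exact hτ t
  rw [h4, mul_one, hb0]
  have h5 : s 0 = Perm.sign ((f0 c).subtypePerm (p := fun x => 2 * x.1 * x.2 = a)
      (f0_mem c a)) := by
    refine Perm.sign_eq_sign_of_equiv _ _ (Equiv.subtypeEquivRight fun x => ?_) ?_
    · rw [add_zero]
    · intro x
      rfl
  rw [h5]
  exact sign_hyp c a ha h2

end Fib

section Levi

variable {F : Type*} [Field F] [Fintype F] [DecidableEq F] {n ζ : Type*} [DecidableEq n]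
  [Fintype n] [DecidableEq ζ] [Fintype ζ]

/-- the action of the Levi subgroup: `(x, y, z) ↦ (M x, M⁻ᵀ y, z)` -/
def lv (F n ζ : Type*) [Field F] [DecidableEq n] [Fintype n] :
    (Matrix n n F)ˣ →* Perm ((n → F) × (n → F) × (ζ → F)) where
  toFun M :=
    { toFun := fun v => (M.val *ᵥ v.1, ((M⁻¹).val)ᵀ *ᵥ v.2.1, v.2.2)
      invFun := fun v => ((M⁻¹).val *ᵥ v.1, (M.val)ᵀ *ᵥ v.2.1, v.2.2)
      left_inv := fun v => by
        simp only [Matrix.mulVec_mulVec, ← Matrix.transpose_mul]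
        rw [Units.inv_mul, Matrix.transpose_one, Matrix.one_mulVec, Matrix.one_mulVec]
      right_inv := fun v => by
        simp only [Matrix.mulVec_mulVec, ← Matrix.transpose_mul]
        rw [Units.mul_inv, Matrix.transpose_one, Matrix.one_mulVec, Matrix.one_mulVec] }
  map_one' := by
    ext1 v
    change ((1 : Matrix n n F) *ᵥ v.1, (((1 : (Matrix n n F)ˣ)⁻¹).val)ᵀ *ᵥ v.2.1, v.2.2) = v
    rw [inv_one, Units.val_one, Matrix.transpose_one, Matrix.one_mulVec, Matrix.one_mulVec]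
  map_mul' M M' := by
    ext1 v
    change ((M * M').val *ᵥ v.1, (((M * M')⁻¹).val)ᵀ *ᵥ v.2.1, v.2.2) =
      (M.val *ᵥ (M'.val *ᵥ v.1), ((M⁻¹).val)ᵀ *ᵥ (((M'⁻¹).val)ᵀ *ᵥ v.2.1), v.2.2)
    rw [Matrix.mulVec_mulVec, Matrix.mulVec_mulVec, Units.val_mul, ← Matrix.transpose_mul,
      _root_.mul_inv_rev, Units.val_mul]

theorem lv_apply (M : (Matrix n n F)ˣ) (v : (n → F) × (n → F) × (ζ → F)) :
    lv F n ζ M v = (M.val *ᵥ v.1, ((M⁻¹).val)ᵀ *ᵥ v.2.1, v.2.2) := rfl

theorem lv_dot (M : (Matrix n n F)ˣ) (v : (n → F) × (n → F) × (ζ → F)) :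
    (lv F n ζ M v).1 ⬝ᵥ (lv F n ζ M v).2.1 = v.1 ⬝ᵥ v.2.1 := by
  rw [lv_apply]
  change (M.val *ᵥ v.1) ⬝ᵥ (((M⁻¹).val)ᵀ *ᵥ v.2.1) = v.1 ⬝ᵥ v.2.1
  rw [Matrix.dotProduct_mulVec, Matrix.vecMul_transpose, Matrix.mulVec_mulVec, Units.inv_mul,
    Matrix.one_mulVec]

theorem lv_mem (q0 : (ζ → F) → F) (a : F) (M : (Matrix n n F)ˣ)
    (v : (n → F) × (n → F) × (ζ → F)) :
    (2 * ((lv F n ζ M v).1 ⬝ᵥ (lv F n ζ M v).2.1) + q0 (lv F n ζ M v).2.2 = a) ↔
      2 * (v.1 ⬝ᵥ v.2.1) + q0 v.2.2 = a := by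
  rw [lv_dot]
  exact Iff.rfl

/-- the sign of the action of the Levi subgroup -/
def th (n : Type*) [DecidableEq n] [Fintype n] (q0 : (ζ → F) → F) (a : F) :
    (Matrix n n F)ˣ →* ℤˣ :=
  sgn (lv F n ζ) (fun v => 2 * (v.1 ⬝ᵥ v.2.1) + q0 v.2.2 = a) (lv_mem q0 a)

theorem sign_eq_th (q0 : (ζ → F) → F) (a : F) (M : (Matrix n n F)ˣ) {X : Type*} [Fintype X]
    [DecidableEq X] (f : Perm X)
    (e : X ≃ {v : (n → F) × (n → F) × (ζ → F) // 2 * (v.1 ⬝ᵥ v.2.1) + q0 v.2.2 = a})
    (h : ∀ x, (e (f x)).1 = lv F n ζ M (e x).1) : Perm.sign f = th n q0 a M := by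
  refine Perm.sign_eq_sign_of_equiv _ _ e fun x => ?_
  apply Subtype.ext
  exact h x

/-- the sign of the multiplication by a unit -/
def chi (F : Type*) [Field F] [Fintype F] [DecidableEq F] : Fˣ →* ℤˣ where
  toFun c := Perm.sign (Equiv.mulLeft c)
  map_one' := by
    have : Equiv.mulLeft (1 : Fˣ) = 1 := by ext1 x; exact one_mul x
    rw [this, Perm.sign_one]
  map_mul' c d := by
    have : Equiv.mulLeft (c * d) = Equiv.mulLeft c * Equiv.mulLeft d := by
      ext1 x; exact mul_assoc c d x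
    rw [this, Perm.sign_mul]

/-- diagonal matrices -/
def dgm (F n : Type*) [Field F] [DecidableEq n] [Fintype n] : (n → Fˣ) →* (Matrix n n F)ˣ where
  toFun D :=
    { val := Matrix.diagonal fun i => ((D i : Fˣ) : F)
      inv := Matrix.diagonal fun i => (((D i)⁻¹ : Fˣ) : F)
      val_inv := by
        rw [Matrix.diagonal_mul_diagonal]
        simp
      inv_val := by
        rw [Matrix.diagonal_mul_diagonal]
        simp }
  map_one' := by
    ext1
    change Matrix.diagonal (fun _ => ((1 : Fˣ) : F)) = 1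
    rw [Units.val_one]
    exact Matrix.diagonal_one
  map_mul' D D' := by
    ext1
    change Matrix.diagonal (fun i => ((D i * D' i : Fˣ) : F)) =
      Matrix.diagonal (fun i => ((D i : Fˣ) : F)) * Matrix.diagonal (fun i => ((D' i : Fˣ) : F))
    rw [Matrix.diagonal_mul_diagonal]
    simp

theorem sum_split (i : n) (x y : n → F) :
    x ⬝ᵥ y = x i * y i + ∑ j : {j // j ≠ i}, x j * y j :=
  Fintype.sum_eq_add_sum_subtype_ne (fun j => x j * y j) i

theorem neg_eq_self' (h2 : (2 : F) ≠ 0) {κ : Type*} (x : κ → F) : -x = x ↔ x = 0 := by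
  constructor
  · intro h
    funext k
    have h3 := congrFun h k
    change -(x k) = x k at h3
    have h4 : 2 * x k = 0 := by linear_combination -h3
    rcases mul_eq_zero.1 h4 with h5 | h5
    · exact absurd h5 h2
    · exact h5
  · rintro rfl
    exact neg_zero

/-- the remaining coordinates -/
abbrev TT (F : Type*) {n : Type*} (i : n) (ζ : Type*) : Type _ :=
  ({j // j ≠ i} → F) × ({j // j ≠ i} → F) × (ζ → F)

instance instDecTT (i : n) : DecidableEq (TT F i ζ) := inferInstance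

instance instFinTT (i : n) : Fintype (TT F i ζ) := inferInstance

/-- splitting off the coordinates number `i` -/
def eT (F : Type*) {n : Type*} [DecidableEq n] (i : n) (ζ : Type*) :
    (n → F) × (n → F) × (ζ → F) ≃ TT F i ζ × (F × F) where
  toFun v := (((Equiv.funSplitAt i F v.1).2, (Equiv.funSplitAt i F v.2.1).2, v.2.2),
    ((Equiv.funSplitAt i F v.1).1, (Equiv.funSplitAt i F v.2.1).1))
  invFun w := ((Equiv.funSplitAt i F).symm (w.2.1, w.1.1),
    (Equiv.funSplitAt i F).symm (w.2.2, w.1.2.1), w.1.2.2)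
  left_inv v := Prod.ext ((Equiv.funSplitAt i F).symm_apply_apply v.1)
    (Prod.ext ((Equiv.funSplitAt i F).symm_apply_apply v.2.1) rfl)
  right_inv w := by simp

/-- the part of the form which does not contain the coordinates number `i` -/
def bT {i : n} (q0 : (ζ → F) → F) (t : TT F i ζ) : F :=
  2 * (∑ j, t.1 j * t.2.1 j) + q0 t.2.2

theorem eT_iff (q0 : (ζ → F) → F) (a : F) (i : n) (v : (n → F) × (n → F) × (ζ → F)) :
    (2 * (v.1 ⬝ᵥ v.2.1) + q0 v.2.2 = a) ↔
      2 * (eT F i ζ v).2.1 * (eT F i ζ v).2.2 + bT q0 (eT F i ζ v).1 = a := by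
  have h1 : 2 * (v.1 ⬝ᵥ v.2.1) + q0 v.2.2 =
      2 * (eT F i ζ v).2.1 * (eT F i ζ v).2.2 + bT q0 (eT F i ζ v).1 := by
    rw [sum_split i]
    change _ = 2 * v.1 i * v.2.1 i + (2 * (∑ j : {j // j ≠ i}, v.1 j * v.2.1 j) + q0 v.2.2)
    ring
  rw [h1]

theorem eT_lv (i : n) (c : Fˣ) (v : (n → F) × (n → F) × (ζ → F)) :
    eT F i ζ (lv F n ζ (dgm F n (Pi.mulSingle i c)) v) = fT (TT F i ζ) c (eT F i ζ v) := by
  have h1 : ∀ (x : n → F) (D : n → Fˣ),
      (Matrix.diagonal fun i => ((D i : Fˣ) : F)) *ᵥ x = fun j => (D j : F) * x j := by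
    intro x D
    funext j
    rw [Matrix.mulVec_diagonal]
  have e1 : (dgm F n (Pi.mulSingle i c)).val *ᵥ v.1 =
      fun j => ((Pi.mulSingle i c : n → Fˣ) j : F) * v.1 j := h1 _ _
  have e2 : (((dgm F n (Pi.mulSingle i c))⁻¹).val)ᵀ *ᵥ v.2.1 =
      fun j => (((Pi.mulSingle i c : n → Fˣ) j)⁻¹ : Fˣ) * v.2.1 j := by
    rw [← map_inv]
    change (Matrix.diagonal _)ᵀ *ᵥ v.2.1 = _
    rw [Matrix.diagonal_transpose]
    exact h1 _ _
  rw [lv_apply, e1, e2]
  refine Prod.ext (Prod.ext ?_ (Prod.ext ?_ rfl)) (Prod.ext ?_ ?_)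
  · funext j
    change ((Pi.mulSingle i c : n → Fˣ) j : F) * v.1 j = v.1 j
    rw [Pi.mulSingle_eq_of_ne j.2, Units.val_one, one_mul]
  · funext j
    change ((((Pi.mulSingle i c : n → Fˣ) j)⁻¹ : Fˣ) : F) * v.2.1 j = v.2.1 j
    rw [Pi.mulSingle_eq_of_ne j.2, inv_one, Units.val_one, one_mul]
  · change ((Pi.mulSingle i c : n → Fˣ) i : F) * v.1 i = c * v.1 i
    rw [Pi.mulSingle_eq_same]
  · change ((((Pi.mulSingle i c : n → Fˣ) i)⁻¹ : Fˣ) : F) * v.2.1 i = (c⁻¹ : Fˣ) * v.2.1 i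
    rw [Pi.mulSingle_eq_same]

theorem th_single (h2 : (2 : F) ≠ 0) (q0 : (ζ → F) → F) (hq : ∀ z, q0 (-z) = q0 z)
    (hq0 : q0 0 = 0) (a : F) (ha : a ≠ 0) (i : n) (c : Fˣ) :
    th n q0 a (dgm F n (Pi.mulSingle i c)) = chi F c := by
  have h1 : th n q0 a (dgm F n (Pi.mulSingle i c)) =
      Perm.sign ((fT (TT F i ζ) c).subtypePerm
        (p := fun x : TT F i ζ × (F × F) => 2 * x.2.1 * x.2.2 + bT (i := i) q0 x.1 = a)
        (fT_mem c a (bT (i := i) q0))) := by
    refine Perm.sign_eq_sign_of_equiv _ _ ((eT F i ζ).subtypeEquiv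
      (p := fun v => 2 * (v.1 ⬝ᵥ v.2.1) + q0 v.2.2 = a)
      (q := fun x : TT F i ζ × (F × F) => 2 * x.2.1 * x.2.2 + bT (i := i) q0 x.1 = a)
      (eT_iff q0 a i)) ?_
    intro v
    apply Subtype.ext
    exact eT_lv i c v.1
  rw [h1]
  refine sign_fib (T := TT F i ζ) c a ha h2 (bT (i := i) q0)
    (fun t => (-t.1, -t.2.1, -t.2.2)) ?_ ?_ 0 ?_ ?_
  · intro t
    simp only [neg_neg]
  · intro t
    change 2 * (∑ j, (-t.1) j * (-t.2.1) j) + q0 (-t.2.2) = _
    rw [hq]
    simp only [Pi.neg_apply, neg_mul_neg]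
    rfl
  · intro t
    rw [Prod.ext_iff, Prod.ext_iff, Prod.ext_iff, Prod.ext_iff]
    change (-t.1 = t.1 ∧ -t.2.1 = t.2.1 ∧ -t.2.2 = t.2.2) ↔ (t.1 = 0 ∧ t.2.1 = 0 ∧ t.2.2 = 0)
    rw [neg_eq_self' h2, neg_eq_self' h2, neg_eq_self' h2]
  · change 2 * (∑ j : {j // j ≠ i}, (0 : F) * 0) + q0 0 = 0
    rw [hq0]
    simp

theorem th_dgm (h2 : (2 : F) ≠ 0) (q0 : (ζ → F) → F) (hq : ∀ z, q0 (-z) = q0 z)
    (hq0 : q0 0 = 0) (a : F) (ha : a ≠ 0) (D : n → Fˣ) :
    th n q0 a (dgm F n D) = chi F (∏ i, D i) := by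
  have h1 : (th n q0 a).comp (dgm F n) = (chi F).comp
      { toFun := fun D : n → Fˣ => ∏ i, D i
        map_one' := by simp
        map_mul' := fun D D' => by simp [Finset.prod_mul_distrib] } := by
    refine MonoidHom.pi_ext fun i c => ?_
    rw [MonoidHom.comp_apply, MonoidHom.comp_apply, th_single h2 q0 hq hq0 a ha]
    change chi F c = chi F (∏ j, (Pi.mulSingle i c : n → Fˣ) j)
    rw [Finset.prod_pi_mulSingle']
    simp
  exact DFunLike.congr_fun h1 D

/-- transvections as units -/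
theorem th_transvec (h2 : (2 : F) ≠ 0) (q0 : (ζ → F) → F) (a : F)
    (t : Matrix.TransvectionStruct n F) (u : (Matrix n n F)ˣ) (hu : u.val = t.toMatrix) :
    th n q0 a u = 1 := by
  obtain ⟨i, j, hij, c⟩ := t
  have e : ∀ c d : F, Matrix.transvection i j c * Matrix.transvection i j d =
      Matrix.transvection i j (c + d) := fun c d =>
    Matrix.transvection_mul_transvection_same i j hij c d
  let w : (Matrix n n F)ˣ :=
    { val := Matrix.transvection i j (c / 2)
      inv := Matrix.transvection i j (-(c / 2))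
      val_inv := by rw [e, add_neg_cancel, Matrix.transvection_zero]
      inv_val := by rw [e, neg_add_cancel, Matrix.transvection_zero] }
  have h1 : u = w * w := by
    ext1
    rw [Units.val_mul, hu]
    change Matrix.transvection i j c = Matrix.transvection i j (c / 2) *
      Matrix.transvection i j (c / 2)
    rw [e]
    congr 1
    field_simp
    norm_num
  rw [h1, map_mul]
  exact Int.units_mul_self _

/-- the sign of the action of the Levi subgroup is the sign character of the determinant -/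
theorem th_eq (h2 : (2 : F) ≠ 0) (q0 : (ζ → F) → F) (hq : ∀ z, q0 (-z) = q0 z)
    (hq0 : q0 0 = 0) (a : F) (ha : a ≠ 0) (u : (Matrix n n F)ˣ) :
    th n q0 a u = chi F (Matrix.GeneralLinearGroup.det u) := by
  have key : ∀ M : Matrix n n F, M.det ≠ 0 → ∀ u : (Matrix n n F)ˣ, u.val = M →
      th n q0 a u = chi F (Matrix.GeneralLinearGroup.det u) := by
    intro M hM
    refine Matrix.diagonal_transvection_induction_of_det_ne_zero
      (fun M => ∀ u : (Matrix n n F)ˣ, u.val = M →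
        th n q0 a u = chi F (Matrix.GeneralLinearGroup.det u)) M hM ?_ ?_ ?_
    · intro D hD u hu
      have hD' : ∀ i, D i ≠ 0 := by
        intro i h0
        apply hD
        rw [Matrix.det_diagonal]
        exact Finset.prod_eq_zero (Finset.mem_univ i) h0
      have h1 : u = dgm F n fun i => Units.mk0 (D i) (hD' i) := by
        ext1
        rw [hu]
        rfl
      have h3 : Matrix.GeneralLinearGroup.det u = ∏ i, Units.mk0 (D i) (hD' i) := by
        ext1
        rw [Units.coe_prod]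
        change u.val.det = _
        rw [hu, Matrix.det_diagonal]
        rfl
      rw [h3, h1]
      exact th_dgm h2 q0 hq hq0 a ha _
    · intro t u hu
      rw [th_transvec h2 q0 a t u hu]
      have h3 : Matrix.GeneralLinearGroup.det u = 1 := by
        ext1
        change u.val.det = 1
        rw [hu, Matrix.TransvectionStruct.det]
      rw [h3, map_one]
    · intro A B hA hB h1 h3 u hu
      obtain ⟨uA, rfl⟩ := (Matrix.isUnit_iff_isUnit_det A).2 (isUnit_iff_ne_zero.2 hA)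
      obtain ⟨uB, rfl⟩ := (Matrix.isUnit_iff_isUnit_det B).2 (isUnit_iff_ne_zero.2 hB)
      have h4 : u = uA * uB := by ext1; exact hu
      rw [h4, map_mul, map_mul, map_mul, h1 uA rfl, h3 uB rfl]
  refine key u.val ?_ u rfl
  exact ((Matrix.isUnit_iff_isUnit_det u.val).1 u.isUnit).ne_zero

end Levi

end BWC.SN
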