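import Pool.Agent.BWD.VMain

/-!
# Type `D`: one elementary group and one bound for all standard parabolic subgroups
-/

set_option autoImplicit false
set_option linter.unusedSectionVars false

namespace BWC.VD

open Matrix
open BW hiding star

section Conj

variable {k Λ : Type*} [DecidableEq k] [Fintype k] [Ring Λ]

/-- a block diagonal matrix normalizes the unipotent radical -/
theorem conj_mem_U (f : k → ℤ) (g : (Matrix k k Λ)ˣ) (h1 : ∀ i j, f i ≠ f j → g.val i j = 0)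
    (h2 : ∀ i j, f i ≠ f j → (g⁻¹).val i j = 0) {X : (Matrix k k Λ)ˣ} (hX : X ∈ U f) :
    g * X * g⁻¹ ∈ U f := by
  intro i j hij
  have h3 : (g * X * g⁻¹).val i j = (g.val * (g⁻¹).val) i j := by
    rw [Units.val_mul, Units.val_mul, Matrix.mul_assoc, Matrix.mul_apply, Matrix.mul_apply]
    refine Finset.sum_congr rfl fun a _ => ?_
    by_cases ha : f i = f a
    · congr 1
      rw [Matrix.mul_apply, Finset.sum_eq_single a]
      · rw [hX a a (lt_irrefl _), Matrix.one_apply_eq, one_mul]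
      · intro b _ hb
        by_cases hbj : f b = f j
        · rw [hX a b (by rw [← ha, hbj]; exact hij), Matrix.one_apply_ne (Ne.symm hb), zero_mul]
        · rw [h2 b j hbj, mul_zero]
      · intro h
        exact absurd (Finset.mem_univ _) h
    · rw [h1 i a ha, zero_mul, zero_mul]
  rw [h3, Units.mul_inv, Matrix.one_apply]

end Conj

section Levi

variable {Λ : Type*} [Ring Λ] [StarRing Λ] {ε : ℤ} {n r : Type*} [DecidableEq n] [Fintype n]
  [DecidableEq r] [Fintype r]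

/-- the Levi elements normalize the elementary group -/
theorem lev_conj_EG (D : Matrix r r Λ)
    (X : (Matrix n n Λ)ˣ) {x : (Matrix ((n ⊕ n) ⊕ r) ((n ⊕ n) ⊕ r) Λ)ˣ} (hx : x ∈ EG ε n D) :
    embH r (lev X) * x * (embH r (lev X))⁻¹ ∈ EG ε n D := by
  have hX : embH r (lev X) ∈ isom (JG ε n D) := embH_memG (lev_mem_UG X)
  have key : ∀ c : ℤ, ∀ y ∈ UF ε (fun _ : n => c) D,
      embH r (lev X) * y * (embH r (lev X))⁻¹ ∈ UF ε (fun _ : n => c) D := by
    intro c y hy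
    refine ⟨(isom (JG ε n D)).mul_mem ((isom (JG ε n D)).mul_mem hX hy.1)
      ((isom (JG ε n D)).inv_mem hX), conj_mem_U _ _ ?_ ?_ hy.2⟩
    · rintro ((i | i) | i) ((j | j) | j) hij
      · exact absurd rfl hij
      · rfl
      · rfl
      · rfl
      · exact absurd rfl hij
      · rfl
      · rfl
      · rfl
      · exact absurd rfl hij
    · rintro ((i | i) | i) ((j | j) | j) hij
      · exact absurd rfl hij
      · rfl
      · rfl
      · rfl
      · exact absurd rfl hij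
      · rfl
      · rfl
      · rfl
      · exact absurd rfl hij
  have h1 : EG ε n D ≤ (EG ε n D).comap (MulAut.conj (embH r (lev X))).toMonoidHom := by
    rw [EG, UPG_eq, UMG_eq]
    refine sup_le ?_ ?_
    · intro y hy
      exact Subgroup.mem_sup_left (key (-1) y hy)
    · intro y hy
      exact Subgroup.mem_sup_right (key 1 y hy)
  exact h1 hx

end Levi

section Const

variable {N : ℕ} {R Λ : Type} [CommRing R] [IsLocalization.Away (N : ℤ) R] [Ring Λ]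
  [StarRing Λ] [Algebra R Λ] [Module.Free R Λ] [Module.Finite R Λ] [NoZeroDivisors Λ]
  {r : Type*} [DecidableEq r] [Fintype r]

theorem comp_embH_lev {ι : Type*} (i : ι) {n : Type*} [DecidableEq n] [Fintype n]
    (C : (Matrix n n (ι → Λ))ˣ) :
    comp (Λ := fun _ : ι => Λ) i (embH r (lev C)) =
      embH r (lev (comp (Λ := fun _ : ι => Λ) i C)) := by
  rw [← comp_lev (Λ := fun _ : ι => Λ) i C]
  ext1
  change (Matrix.fromBlocks (lev C).val 0 0 1).map (Pi.evalRingHom (fun _ : ι => Λ) i) =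
    Matrix.fromBlocks ((lev C).val.map (Pi.evalRingHom (fun _ : ι => Λ) i)) 0 0 1
  rw [Matrix.fromBlocks_map]
  congr 1
  exact Matrix.map_one _ rfl rfl

/-- every isometry is elementary times an element of the Levi subgroup -/
theorem isom_decomp (hN : N ≠ 0) (Q : QAlg N R Λ) (hQ : ∀ x, star x = Q.conj x)
    (m : ℕ) (hm : 3 ≤ m) {A D D' : Matrix r r Λ} (hD : D = A + (-1 : ℤ) • Aᴴ)
    (hDD : D * D' = 1) (hDD' : D' * D = 1)
    (g : (Matrix ((Fin m ⊕ Fin m) ⊕ r) ((Fin m ⊕ Fin m) ⊕ r) Λ)ˣ)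
    (hg : g ∈ isom (JG (-1) (Fin m) D)) :
    ∃ e ∈ EG (-1) (Fin m) D, ∃ X : (Matrix (Fin m) (Fin m) Λ)ˣ, g = e * embH r (lev X) := by
  have hε : (-1 : ℤ) * (-1) = 1 := by norm_num
  have hn : 2 ≤ Fintype.card (Fin m) := by simp; omega
  obtain ⟨g1, hg1⟩ : ∃ g1, g1 = famU (Λ := fun _ : Unit => Λ) fun _ => g := ⟨_, rfl⟩
  obtain ⟨D1, hD1⟩ : ∃ D1, D1 = famM (Λ := fun _ : Unit => Λ) fun _ => D := ⟨_, rfl⟩
  have hgU : g1 ∈ isom (JG (-1) (Fin m) D1) := by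
    rw [hD1]
    exact mem_isom_of_comp (Λ := fun _ : Unit => Λ) (fun _ => D) fun i => by
      rw [hg1, comp_famU]; exact hg
  have hD1A : D1 = famM (Λ := fun _ : Unit => Λ) (fun _ => A) +
      (-1 : ℤ) • (famM (Λ := fun _ : Unit => Λ) (fun _ => A))ᴴ := by
    rw [hD1]
    ext a b i
    exact congrFun (congrFun hD a) b
  have hD1D : D1 * famM (Λ := fun _ : Unit => Λ) (fun _ => D') = 1 := by
    rw [hD1]
    ext a b i
    rw [Matrix.mul_apply, Finset.sum_apply]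
    refine Eq.trans ?_ (Eq.trans (congrFun (congrFun hDD a) b) ?_)
    · rw [Matrix.mul_apply]; rfl
    · rw [Matrix.one_apply, Matrix.one_apply]
      split_ifs <;> rfl
  have hD1D' : famM (Λ := fun _ : Unit => Λ) (fun _ => D') * D1 = 1 := by
    rw [hD1]
    ext a b i
    rw [Matrix.mul_apply, Finset.sum_apply]
    refine Eq.trans ?_ (Eq.trans (congrFun (congrFun hDD' a) b) ?_)
    · rw [Matrix.mul_apply]; rfl
    · rw [Matrix.one_apply, Matrix.one_apply]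
      split_ifs <;> rfl
  have hR : Reach (-1) (Fin m) D1 := fun a c x w z t h =>
    reachGD (N := fun _ : Unit => N) (R := fun _ : Unit => R) (Λ := fun _ : Unit => Λ)
      hn (fun _ => hN) (fun _ => Q) (fun _ => hQ) hD1A a c x w z t h
  obtain ⟨e0, he0, g0, hg0, h0⟩ := remove_V hε hD1A hD1D hD1D' hR g1 hgU
  obtain ⟨φ, e, he, A', hgA⟩ := redD' (N := fun _ : Unit => N) (R := fun _ : Unit => R)
    (Λ := fun _ : Unit => Λ) (fun _ => hN) (fun _ => Q) (fun _ => hQ) m hm g0 hg0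
  have hgE : ∃ e1 ∈ EG (-1) (Fin m) D1, g1 = e1 * embH r (lev (embL φ A')) := by
    refine ⟨e0⁻¹ * embH r e, mul_mem (inv_mem he0) (embH_mem_EG hε he), ?_⟩
    have : g1 = e0⁻¹ * embH r g0 := by rw [← h0]; group
    rw [this, hgA, map_mul, mul_assoc]
  obtain ⟨e1, he1, hge⟩ := hgE
  refine ⟨comp (Λ := fun _ : Unit => Λ) () e1, ?_,
    comp (Λ := fun _ : Unit => Λ) () (embL φ A'), ?_⟩
  · rw [EG, UPG_eq, UMG_eq, hD1] at he1
    have he2 : e1 ∈ GF (-1) (fun _ => -1) (famM (Λ := fun _ : Unit => Λ) fun _ => D) := he1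
    obtain ⟨L, hL⟩ := GF_bounded (Λ := fun _ : Unit => Λ) (fun _ => D) _ he2
    have h3 := pow_le_sup _ _ L (hL ())
    rw [EG, UPG_eq, UMG_eq]
    exact h3
  · have h1 := congrArg (comp (Λ := fun _ : Unit => Λ) ()) hge
    rw [map_mul, comp_embH_lev, hg1, comp_famU] at h1
    exact h1

/-- the elementary group is normal in the isometry group -/
theorem conj_mem_EG (hN : N ≠ 0) (Q : QAlg N R Λ) (hQ : ∀ x, star x = Q.conj x)
    (m : ℕ) (hm : 3 ≤ m) {A D D' : Matrix r r Λ} (hD : D = A + (-1 : ℤ) • Aᴴ)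
    (hDD : D * D' = 1) (hDD' : D' * D = 1)
    {g x : (Matrix ((Fin m ⊕ Fin m) ⊕ r) ((Fin m ⊕ Fin m) ⊕ r) Λ)ˣ}
    (hg : g ∈ isom (JG (-1) (Fin m) D)) (hx : x ∈ EG (-1) (Fin m) D) :
    g * x * g⁻¹ ∈ EG (-1) (Fin m) D := by
  obtain ⟨e, he, X, rfl⟩ := isom_decomp hN Q hQ m hm hD hDD hDD' g hg
  have h1 : e * embH r (lev X) * x * (e * embH r (lev X))⁻¹ =
      e * (embH r (lev X) * x * (embH r (lev X))⁻¹) * e⁻¹ := by group
  rw [h1]
  exact mul_mem (mul_mem he (lev_conj_EG D X hx)) (inv_mem he)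

end Const

/-- the conjugate `g U_P g⁻¹` of the unipotent radical -/
def UFc {n r Λ : Type*} [DecidableEq n] [Fintype n] [DecidableEq r] [Fintype r] [Ring Λ]
    [StarRing Λ] (g : (Matrix ((n ⊕ n) ⊕ r) ((n ⊕ n) ⊕ r) Λ)ˣ) (ε : ℤ) (f : n → ℤ)
    (D : Matrix r r Λ) : Subgroup (Matrix ((n ⊕ n) ⊕ r) ((n ⊕ n) ⊕ r) Λ)ˣ :=
  (UF ε f D).map (MulAut.conj g).toMonoidHom

section Pat

/-- the pattern of a weight function -/
def pat {k : Type*} (f : k → ℤ) : Set (k × k) := {x | f x.1 < f x.2}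

theorem U_eq_of_pat {k Λ : Type*} [DecidableEq k] [Fintype k] [Ring Λ] {f f' : k → ℤ}
    (h : pat f = pat f') : U (Λ := Λ) f = U f' := by
  have h1 : ∀ i j, f i < f j ↔ f' i < f' j := fun i j => by
    have : (i, j) ∈ pat f ↔ (i, j) ∈ pat f' := by rw [h]
    exact this
  ext X
  exact ⟨fun hX i j hij => hX i j (fun h => hij ((h1 i j).1 h)),
    fun hX i j hij => hX i j (fun h => hij ((h1 i j).2 h))⟩

theorem pat_neg {n r : Type*} {f f' : n → ℤ} (h : pat (flF r f) = pat (flF r f')) :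
    pat (flF r (-f)) = pat (flF r (-f')) := by
  have h0 : ∀ f : n → ℤ, flF r (-f) = -flF r f := by
    intro f
    ext x
    rcases x with (x | x) | x <;> simp [flF, wt]
  rw [h0, h0]
  ext ⟨i, j⟩
  have : (j, i) ∈ pat (flF r f) ↔ (j, i) ∈ pat (flF r f') := by rw [h]
  simpa [pat] using this

end Pat

open Pointwise in
/-- **type `D`, final form**: one normal subgroup `E` and one exponent for all standard parabolic
subgroups and their conjugates -/
theorem main (m : ℕ) (hm : 3 ≤ m) (s N : ℕ) (hN : N ≠ 0)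
    (R Λ : Type) [CommRing R]
    [IsLocalization.Away (N : ℤ) R] [Ring Λ] [NoZeroDivisors Λ] [StarRing Λ] [Algebra R Λ]
    (haz : IsQuaternionAzumaya N R Λ) (hst : ∀ x : Λ, ∃ t : R, x + star x = algebraMap R Λ t)
    (A : Matrix (Fin s) (Fin s) Λ) (hD : IsUnit (A - Aᴴ)) :
    ∃ (E : Subgroup (Matrix ((Fin m ⊕ Fin m) ⊕ Fin s) ((Fin m ⊕ Fin m) ⊕ Fin s) Λ)ˣ) (L : ℕ),
      ∀ g ∈ isom (JG (-1) (Fin m) (A - Aᴴ)), ∀ f : Fin m → ℤ, f ≠ 0 →
        UFc g (-1) f (A - Aᴴ) ⊔ UFc g (-1) (-f) (A - Aᴴ) = E ∧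
        ((UFc g (-1) f (A - Aᴴ) :
            Set (Matrix ((Fin m ⊕ Fin m) ⊕ Fin s) ((Fin m ⊕ Fin m) ⊕ Fin s) Λ)ˣ) *
          (UFc g (-1) (-f) (A - Aᴴ) :
            Set (Matrix ((Fin m ⊕ Fin m) ⊕ Fin s) ((Fin m ⊕ Fin m) ⊕ Fin s) Λ)ˣ)) ^ L =
          (E : Set (Matrix ((Fin m ⊕ Fin m) ⊕ Fin s) ((Fin m ⊕ Fin m) ⊕ Fin s) Λ)ˣ) := by
  classical
  have hε : (-1 : ℤ) * (-1) = 1 := by norm_num
  have hn : 3 ≤ Fintype.card (Fin m) := by simpa using hm
  have := haz.free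
  have := haz.finite hN
  obtain ⟨Q⟩ := haz.qalg hN
  have hQ : ∀ x : Λ, star x = Q.conj x := star_eq_conj hN Q hst
  have hD1 : A - Aᴴ = A + (-1 : ℤ) • Aᴴ := by rw [neg_smul, one_smul, sub_eq_add_neg]
  have hmain := mainDV m hm (Fin s) N hN R Λ haz hst A hD
  generalize hD2 : A - Aᴴ = D at hD hD1 hmain
  obtain ⟨u, rfl⟩ := hD
  -- one exponent for all standard parabolic subgroups
  have hfin : Finite (Set (((Fin m ⊕ Fin m) ⊕ Fin s) × ((Fin m ⊕ Fin m) ⊕ Fin s))) := inferInstance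
  have key : ∀ p : Set (((Fin m ⊕ Fin m) ⊕ Fin s) × ((Fin m ⊕ Fin m) ⊕ Fin s)), ∃ L : ℕ,
      ∀ f : Fin m → ℤ, f ≠ 0 → pat (flF (Fin s) f) = p →
      ((UF (-1) f u.val : Set (Matrix ((Fin m ⊕ Fin m) ⊕ Fin s) ((Fin m ⊕ Fin m) ⊕ Fin s) Λ)ˣ) *
        (UF (-1) (-f) u.val :
          Set (Matrix ((Fin m ⊕ Fin m) ⊕ Fin s) ((Fin m ⊕ Fin m) ⊕ Fin s) Λ)ˣ)) ^ L =
      (GF (-1) f u.val :
        Set (Matrix ((Fin m ⊕ Fin m) ⊕ Fin s) ((Fin m ⊕ Fin m) ⊕ Fin s) Λ)ˣ) := by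
    intro p
    by_cases hp : ∃ f : Fin m → ℤ, f ≠ 0 ∧ pat (flF (Fin s) f) = p
    · obtain ⟨f, hf, hfp⟩ := hp
      obtain ⟨L, hL⟩ := hmain f hf
      refine ⟨L, fun f' hf0 hf' => ?_⟩
      have h1 : pat (flF (Fin s) f') = pat (flF (Fin s) f) := by rw [hf', hfp]
      have h2 : UF (-1) f' u.val = UF (-1) f u.val := by rw [UF, UF, U_eq_of_pat h1]
      have h3 : UF (-1) (-f') u.val = UF (-1) (-f) u.val := by
        rw [UF, UF, U_eq_of_pat (pat_neg h1)]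
      rw [GF, h2, h3]
      exact hL
    · exact ⟨0, fun f' hf0 hf' => absurd ⟨f', hf0, hf'⟩ hp⟩
  choose L hL using key
  obtain ⟨B, hB⟩ := (Set.finite_range L).bddAbove
  have hG : ∀ f : Fin m → ℤ, f ≠ 0 → GF (-1) f u.val = EG (-1) (Fin m) u.val := fun f hf =>
    GF_eq_EG hε hn hD1 hf
  have hLB : ∀ f : Fin m → ℤ, f ≠ 0 →
      ((UF (-1) f u.val : Set (Matrix ((Fin m ⊕ Fin m) ⊕ Fin s) ((Fin m ⊕ Fin m) ⊕ Fin s) Λ)ˣ) *
        (UF (-1) (-f) u.val :
          Set (Matrix ((Fin m ⊕ Fin m) ⊕ Fin s) ((Fin m ⊕ Fin m) ⊕ Fin s) Λ)ˣ)) ^ B =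
      (EG (-1) (Fin m) u.val :
        Set (Matrix ((Fin m ⊕ Fin m) ⊕ Fin s) ((Fin m ⊕ Fin m) ⊕ Fin s) Λ)ˣ) := by
    intro f hf
    have h1 := hL (pat (flF (Fin s) f)) f hf rfl
    have h2 : L (pat (flF (Fin s) f)) ≤ B := hB ⟨_, rfl⟩
    rw [hG f hf] at h1
    refine Set.Subset.antisymm ?_ ?_
    · rw [← hG f hf]
      exact pow_le_sup _ _ B
    · rw [← h1]
      exact pow_mono_AB _ _ h2
  have hconj : ∀ g ∈ isom (JG (-1) (Fin m) u.val),
      (EG (-1) (Fin m) u.val).map (MulAut.conj g).toMonoidHom = EG (-1) (Fin m) u.val := by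
    intro g hg
    refine le_antisymm ?_ fun x hx => ?_
    · rintro _ ⟨x, hx, rfl⟩
      exact conj_mem_EG hN Q hQ m hm hD1 u.mul_inv u.inv_mul hg hx
    · refine ⟨g⁻¹ * x * g⁻¹⁻¹, conj_mem_EG hN Q hQ m hm hD1 u.mul_inv u.inv_mul
        (inv_mem hg) hx, ?_⟩
      change g * (g⁻¹ * x * g⁻¹⁻¹) * g⁻¹ = x
      group
  refine ⟨EG (-1) (Fin m) u.val, B, fun g hg f hf => ⟨?_, ?_⟩⟩
  · rw [UFc, UFc, ← Subgroup.map_sup]
    exact (congrArg _ (hG f hf)).trans (hconj g hg)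
  · have h1 := congrArg (Set.image (MulAut.conj g).toMonoidHom) (hLB f hf)
    rw [Set.image_pow, Set.image_mul] at h1
    refine h1.trans ?_
    exact congrArg (SetLike.coe) (hconj g hg)

end BWC.VD
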