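import Pool.Agent.BWD.Sign
import Pool.Agent.BWD.NonRes
import Pool.Agent.BWD.VFinal

/-!
# The action of the isometry group on quadrics over residue fields
-/

set_option autoImplicit false
set_option linter.unusedSectionVars false

namespace BWC.SN

open Matrix
open BW hiding star

section Rep

variable {p : ℕ} [Fact p.Prime] {Λ : Type*} [Ring Λ] [StarRing Λ]

/-- the matrices over `𝔽_p` -/
def Phi (k : Type*) [DecidableEq k] [Fintype k] (ρ : Λ →+* Matrix (Fin 2) (Fin 2) (ZMod p)) :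
    Matrix k k Λ →+* Matrix (k × Fin 2) (k × Fin 2) (ZMod p) :=
  (Matrix.compRingEquiv k (Fin 2) (ZMod p)).toRingHom.comp ρ.mapMatrix

theorem Phi_apply {k : Type*} [DecidableEq k] [Fintype k]
    (ρ : Λ →+* Matrix (Fin 2) (Fin 2) (ZMod p)) (M : Matrix k k Λ) (x y : k × Fin 2) :
    Phi k ρ M x y = ρ (M x.1 y.1) x.2 y.2 := rfl

theorem det_Phi {k : Type*} [DecidableEq k] [Fintype k]
    (ρ : Λ →+* Matrix (Fin 2) (Fin 2) (ZMod p)) (M : Matrix k k Λ) :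
    (Phi k ρ M).det = nrdAt ρ M := rfl

theorem Phi_mulVec {k : Type*} [DecidableEq k] [Fintype k]
    (ρ : Λ →+* Matrix (Fin 2) (Fin 2) (ZMod p)) (M : Matrix k k Λ) (v : k × Fin 2 → ZMod p)
    (x : k × Fin 2) :
    (Phi k ρ M *ᵥ v) x = ∑ j, ∑ b, ρ (M x.1 j) x.2 b * v (j, b) := by
  rw [Matrix.mulVec, dotProduct, Fintype.sum_prod_type]
  rfl

/-- the block diagonal matrix with blocks `[[0, 1], [-1, 0]]` -/
def WW (p : ℕ) (k : Type*) [DecidableEq k] [Fintype k] :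
    Matrix (k × Fin 2) (k × Fin 2) (ZMod p) :=
  Matrix.of fun x y => if x.1 = y.1 then (!![0, 1; -1, 0] : Matrix (Fin 2) (Fin 2) (ZMod p)) x.2 y.2
    else 0

theorem WW_apply {k : Type*} [DecidableEq k] [Fintype k] (x y : k × Fin 2) :
    WW p k x y = if x.1 = y.1 then
      (!![0, 1; -1, 0] : Matrix (Fin 2) (Fin 2) (ZMod p)) x.2 y.2 else 0 := rfl

theorem WW_mulVec {k : Type*} [DecidableEq k] [Fintype k] (v : k × Fin 2 → ZMod p)
    (x : k × Fin 2) :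
    (WW p k *ᵥ v) x = ∑ b, (!![0, 1; -1, 0] : Matrix (Fin 2) (Fin 2) (ZMod p)) x.2 b *
      v (x.1, b) := by
  rw [Matrix.mulVec, dotProduct, Fintype.sum_prod_type, Finset.sum_eq_single x.1]
  · refine Finset.sum_congr rfl fun b _ => ?_
    rw [WW_apply, if_pos rfl]
  · intro j _ hj
    refine Finset.sum_eq_zero fun b _ => ?_
    rw [WW_apply, if_neg (Ne.symm hj), zero_mul]
  · intro h
    exact absurd (Finset.mem_univ _) h

theorem WW_mul {k : Type*} [DecidableEq k] [Fintype k]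
    (M : Matrix (k × Fin 2) (k × Fin 2) (ZMod p)) (x y : k × Fin 2) :
    (WW p k * M) x y = ∑ b, (!![0, 1; -1, 0] : Matrix (Fin 2) (Fin 2) (ZMod p)) x.2 b *
      M (x.1, b) y := by
  have := WW_mulVec (fun z => M z y) x
  exact this

theorem mul_WW {k : Type*} [DecidableEq k] [Fintype k]
    (M : Matrix (k × Fin 2) (k × Fin 2) (ZMod p)) (x y : k × Fin 2) :
    (M * WW p k) x y = ∑ b, M x (y.1, b) *
      (!![0, 1; -1, 0] : Matrix (Fin 2) (Fin 2) (ZMod p)) b y.2 := by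
  rw [Matrix.mul_apply, Fintype.sum_prod_type, Finset.sum_eq_single y.1]
  · refine Finset.sum_congr rfl fun b _ => ?_
    rw [WW_apply, if_pos rfl]
  · intro j _ hj
    refine Finset.sum_eq_zero fun b _ => ?_
    rw [WW_apply, if_neg hj, mul_zero]
  · intro h
    exact absurd (Finset.mem_univ _) h

theorem WW_sq (k : Type*) [DecidableEq k] [Fintype k] : WW p k * WW p k = -1 := by
  ext x y
  rw [WW_mul, Matrix.neg_apply]
  simp only [WW_apply, Fin.sum_univ_two]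
  obtain ⟨i, a⟩ := x
  obtain ⟨j, b⟩ := y
  by_cases h : i = j
  · subst h
    fin_cases a <;> fin_cases b <;> simp
  · simp [h]

theorem WW_transpose (k : Type*) [DecidableEq k] [Fintype k] : (WW p k)ᵀ = -WW p k := by
  ext x y
  rw [Matrix.transpose_apply, Matrix.neg_apply, WW_apply, WW_apply]
  obtain ⟨i, a⟩ := x
  obtain ⟨j, b⟩ := y
  by_cases h : i = j
  · subst h
    fin_cases a <;> fin_cases b <;> simp
  · simp [h, Ne.symm h]

variable {ρ : Λ →+* Matrix (Fin 2) (Fin 2) (ZMod p)}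

theorem WW_star (hρ : ∀ x, ρ (Star.star x) = (ρ x).adjugate) {k : Type*} [DecidableEq k]
    [Fintype k] (M : Matrix k k Λ) : WW p k * Phi k ρ Mᴴ = (Phi k ρ M)ᵀ * WW p k := by
  ext x y
  rw [WW_mul, mul_WW]
  simp only [Phi_apply, Matrix.transpose_apply, Matrix.conjTranspose_apply, hρ,
    Matrix.adjugate_fin_two, Fin.sum_univ_two]
  obtain ⟨i, a⟩ := x
  obtain ⟨j, b⟩ := y
  fin_cases a <;> fin_cases b <;> simp

/-- the quadratic form over `𝔽_p` -/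
def qd {k : Type*} [DecidableEq k] [Fintype k] (ρ : Λ →+* Matrix (Fin 2) (Fin 2) (ZMod p))
    (G : Matrix k k Λ) (v : k × Fin 2 → ZMod p) : ZMod p := v ⬝ᵥ ((WW p k * Phi k ρ G) *ᵥ v)

theorem qd_isom (hρ : ∀ x, ρ (Star.star x) = (ρ x).adjugate) {k : Type*} [DecidableEq k]
    [Fintype k] {G : Matrix k k Λ} {g : (Matrix k k Λ)ˣ} (hg : g ∈ isom G)
    (v : k × Fin 2 → ZMod p) : qd ρ G (Phi k ρ g.val *ᵥ v) = qd ρ G v := by
  have hg' : g.valᴴ * G * g.val = G := hg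
  have h1 : (Phi k ρ g.val)ᵀ * (WW p k * Phi k ρ G) * Phi k ρ g.val = WW p k * Phi k ρ G := by
    rw [← Matrix.mul_assoc, ← WW_star hρ, Matrix.mul_assoc (WW p k), Matrix.mul_assoc (WW p k),
      ← map_mul, ← map_mul, hg']
  unfold qd
  generalize WW p k * Phi k ρ G = B at h1 ⊢
  generalize Phi k ρ g.val = M at h1 ⊢
  have h2 : v ⬝ᵥ (B *ᵥ v) = v ⬝ᵥ ((Mᵀ * B * M) *ᵥ v) := by rw [h1]
  rw [h2, ← Matrix.mulVec_mulVec, ← Matrix.mulVec_mulVec, Matrix.dotProduct_mulVec v,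
    Matrix.vecMul_transpose]

/-- the action of the invertible matrices on `𝔽_p^(k × 2)` -/
def act (k : Type*) [DecidableEq k] [Fintype k] (ρ : Λ →+* Matrix (Fin 2) (Fin 2) (ZMod p)) :
    (Matrix k k Λ)ˣ →* Equiv.Perm (k × Fin 2 → ZMod p) where
  toFun g :=
    { toFun := fun v => Phi k ρ g.val *ᵥ v
      invFun := fun v => Phi k ρ (g⁻¹).val *ᵥ v
      left_inv := fun v => by
        change Phi k ρ (g⁻¹).val *ᵥ (Phi k ρ g.val *ᵥ v) = v
        rw [Matrix.mulVec_mulVec, ← map_mul, Units.inv_mul, map_one, Matrix.one_mulVec]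
      right_inv := fun v => by
        change Phi k ρ g.val *ᵥ (Phi k ρ (g⁻¹).val *ᵥ v) = v
        rw [Matrix.mulVec_mulVec, ← map_mul, Units.mul_inv, map_one, Matrix.one_mulVec] }
  map_one' := by
    ext1 v
    change Phi k ρ (1 : Matrix k k Λ) *ᵥ v = v
    rw [map_one, Matrix.one_mulVec]
  map_mul' g h := by
    ext1 v
    change Phi k ρ (g.val * h.val) *ᵥ v = Phi k ρ g.val *ᵥ (Phi k ρ h.val *ᵥ v)
    rw [map_mul, Matrix.mulVec_mulVec]

theorem act_apply {k : Type*} [DecidableEq k] [Fintype k] (g : (Matrix k k Λ)ˣ)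
    (v : k × Fin 2 → ZMod p) : act k ρ g v = Phi k ρ g.val *ᵥ v := rfl

/-- **the spinor norm at `p`**: the sign of the action on the quadric `q = a` -/
def theta (hρ : ∀ x, ρ (Star.star x) = (ρ x).adjugate) {k : Type*} [DecidableEq k] [Fintype k]
    (G : Matrix k k Λ) (a : ZMod p) : isom G →* ℤˣ :=
  sgn ((act k ρ).comp (isom G).subtype) (fun v => qd ρ G v = a) fun g v => by
    have := qd_isom hρ g.2 v
    rw [← this]
    exact Iff.rfl

/-- unipotent isometries act by even permutations -/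
theorem theta_unip (hp : p ≠ 2) (hρ : ∀ x, ρ (Star.star x) = (ρ x).adjugate) {k : Type*}
    [DecidableEq k] [Fintype k] (G : Matrix k k Λ) (a : ZMod p) (g : isom G) (j : ℕ)
    (hg : Phi k ρ (g.1 ^ p ^ j).val = 1) : theta hρ G a g = 1 := by
  have hodd : Odd (p ^ j) := (Nat.Prime.odd_of_ne_two Fact.out hp).pow
  have h1 : theta hρ G a (g ^ p ^ j) = 1 := by
    have h2 : ∀ v : {v // qd ρ G v = a}, ((act k ρ).comp (isom G).subtype) (g ^ p ^ j) v.1 = v.1 := by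
      intro v
      change Phi k ρ ((g ^ p ^ j : isom G).1).val *ᵥ v.1 = v.1
      rw [Subgroup.coe_pow, hg, Matrix.one_mulVec]
    change Equiv.Perm.sign _ = 1
    rw [← Equiv.Perm.sign_one (α := {v // qd ρ G v = a})]
    congr 1
    ext1 v
    apply Subtype.ext
    exact h2 v
  rw [map_pow] at h1
  rcases Int.units_eq_one_or (theta hρ G a g) with h3 | h3
  · exact h3
  · rw [h3, hodd.neg_one_pow] at h1
    exact absurd h1 (by decide)

end Rep

section LeviRep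

variable {p : ℕ} [Fact p.Prime] {Λ : Type*} [Ring Λ] [StarRing Λ]
  {ρ : Λ →+* Matrix (Fin 2) (Fin 2) (ZMod p)} {n r : Type*} [DecidableEq n] [Fintype n]
  [DecidableEq r] [Fintype r]

/-- coordinates: `v ↦ (x, W y, z)` -/
def eV (p : ℕ) [Fact p.Prime] (n r : Type*) [DecidableEq n] [Fintype n] :
    (((n ⊕ n) ⊕ r) × Fin 2 → ZMod p) ≃
      (n × Fin 2 → ZMod p) × (n × Fin 2 → ZMod p) × (r × Fin 2 → ZMod p) where
  toFun v := (fun x => v (Sum.inl (Sum.inl x.1), x.2),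
    WW p n *ᵥ (fun x => v (Sum.inl (Sum.inr x.1), x.2)), fun x => v (Sum.inr x.1, x.2))
  invFun w x := match x with
    | (Sum.inl (Sum.inl i), a) => w.1 (i, a)
    | (Sum.inl (Sum.inr i), a) => (-(WW p n *ᵥ w.2.1)) (i, a)
    | (Sum.inr i, a) => w.2.2 (i, a)
  left_inv v := by
    funext x
    rcases x with ⟨(i | i) | i, a⟩
    · rfl
    · change (-(WW p n *ᵥ (WW p n *ᵥ fun x => v (Sum.inl (Sum.inr x.1), x.2)))) (i, a) = _
      rw [Matrix.mulVec_mulVec, WW_sq, Matrix.neg_mulVec, Matrix.one_mulVec, neg_neg]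
    · rfl
  right_inv w := by
    refine Prod.ext rfl (Prod.ext ?_ rfl)
    change WW p n *ᵥ (-(WW p n *ᵥ w.2.1)) = w.2.1
    rw [Matrix.mulVec_neg, Matrix.mulVec_mulVec, WW_sq, Matrix.neg_mulVec, Matrix.one_mulVec,
      neg_neg]

theorem eV_apply (v : ((n ⊕ n) ⊕ r) × Fin 2 → ZMod p) :
    eV p n r v = (fun x => v (Sum.inl (Sum.inl x.1), x.2),
    WW p n *ᵥ (fun x => v (Sum.inl (Sum.inr x.1), x.2)), fun x => v (Sum.inr x.1, x.2)) := rfl

/-- the part of the quadratic form on `V₀` -/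
def q0 (ρ : Λ →+* Matrix (Fin 2) (Fin 2) (ZMod p)) (D : Matrix r r Λ) (z : r × Fin 2 → ZMod p) :
    ZMod p := z ⬝ᵥ ((WW p r * Phi r ρ D) *ᵥ z)

theorem q0_neg (D : Matrix r r Λ) (z : r × Fin 2 → ZMod p) : q0 ρ D (-z) = q0 ρ D z := by
  rw [q0, q0, Matrix.mulVec_neg, neg_dotProduct_neg]

theorem q0_zero (D : Matrix r r Λ) : q0 ρ D (0 : r × Fin 2 → ZMod p) = 0 := by
  rw [q0, zero_dotProduct]

/-- the rows of `embH r (lev A)` -/
theorem Phi_lev (A : (Matrix n n Λ)ˣ) (v : ((n ⊕ n) ⊕ r) × Fin 2 → ZMod p) :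
    (fun x : n × Fin 2 => (Phi _ ρ (embH r (lev A)).val *ᵥ v) (Sum.inl (Sum.inl x.1), x.2)) =
      Phi n ρ A.val *ᵥ (fun x => v (Sum.inl (Sum.inl x.1), x.2)) ∧
    (fun x : n × Fin 2 => (Phi _ ρ (embH r (lev A)).val *ᵥ v) (Sum.inl (Sum.inr x.1), x.2)) =
      Phi n ρ ((A⁻¹).val)ᴴ *ᵥ (fun x => v (Sum.inl (Sum.inr x.1), x.2)) ∧
    (fun x : r × Fin 2 => (Phi _ ρ (embH r (lev A)).val *ᵥ v) (Sum.inr x.1, x.2)) =
      fun x => v (Sum.inr x.1, x.2) := by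
  have hv : ∀ x, (Phi _ ρ (embH r (lev A)).val *ᵥ v) x =
      ∑ j, ∑ b, ρ ((embH r (lev A)).val x.1 j) x.2 b * v (j, b) := fun x => Phi_mulVec ρ _ v x
  have z1 : ∀ i j, (embH r (lev A)).val (Sum.inl (Sum.inl i)) (Sum.inl (Sum.inr j)) = 0 :=
    fun _ _ => rfl
  have z2 : ∀ i j, (embH r (lev A)).val (Sum.inl (Sum.inl i)) (Sum.inr j) = 0 := fun _ _ => rfl
  have z3 : ∀ i j, (embH r (lev A)).val (Sum.inl (Sum.inr i)) (Sum.inl (Sum.inl j)) = 0 :=
    fun _ _ => rfl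
  have z4 : ∀ i j, (embH r (lev A)).val (Sum.inl (Sum.inr i)) (Sum.inr j) = 0 := fun _ _ => rfl
  have z5 : ∀ i j, (embH r (lev A)).val (Sum.inr i) (Sum.inl j) = 0 := fun _ _ => rfl
  refine ⟨?_, ?_, ?_⟩
  · funext x
    rw [hv, Phi_mulVec, Fintype.sum_sum_type, Fintype.sum_sum_type]
    simp only [z1, z2, map_zero, Matrix.zero_apply, zero_mul, Finset.sum_const_zero, add_zero]
    rfl
  · funext x
    rw [hv, Phi_mulVec, Fintype.sum_sum_type, Fintype.sum_sum_type]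
    simp only [z3, z4, map_zero, Matrix.zero_apply, zero_mul, Finset.sum_const_zero, add_zero,
      zero_add]
    rfl
  · have h1 : ∀ z : r × Fin 2 → ZMod p, Phi r ρ (1 : Matrix r r Λ) *ᵥ z = z := fun z => by
      rw [map_one, Matrix.one_mulVec]
    rw [← h1 fun x => v (Sum.inr x.1, x.2)]
    funext x
    rw [hv, Phi_mulVec, Fintype.sum_sum_type, Fintype.sum_sum_type]
    simp only [z5, map_zero, Matrix.zero_apply, zero_mul, Finset.sum_const_zero, add_zero,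
      zero_add]
    rfl

/-- the elements of the Levi subgroup in coordinates -/
theorem eV_lev (hρ : ∀ x, ρ (Star.star x) = (ρ x).adjugate) (A : (Matrix n n Λ)ˣ)
    (v : ((n ⊕ n) ⊕ r) × Fin 2 → ZMod p) :
    eV p n r (Phi _ ρ (embH r (lev A)).val *ᵥ v) =
      lv (ZMod p) (n × Fin 2) (r × Fin 2) (Units.map (Phi n ρ).toMonoidHom A) (eV p n r v) := by
  obtain ⟨h1, h2, h3⟩ := Phi_lev (r := r) (ρ := ρ) A v
  rw [lv_apply, eV_apply, eV_apply, h1, h2, h3]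
  refine Prod.ext rfl (Prod.ext ?_ rfl)
  change WW p n *ᵥ (Phi n ρ ((A⁻¹).val)ᴴ *ᵥ fun x => v (Sum.inl (Sum.inr x.1), x.2)) =
    (Phi n ρ (A⁻¹).val)ᵀ *ᵥ (WW p n *ᵥ fun x => v (Sum.inl (Sum.inr x.1), x.2))
  rw [Matrix.mulVec_mulVec, Matrix.mulVec_mulVec, WW_star hρ]

theorem dot_split (u v : ((n ⊕ n) ⊕ r) × Fin 2 → ZMod p) :
    u ⬝ᵥ v = (fun x : n × Fin 2 => u (Sum.inl (Sum.inl x.1), x.2)) ⬝ᵥ
        (fun x => v (Sum.inl (Sum.inl x.1), x.2)) +
      (fun x : n × Fin 2 => u (Sum.inl (Sum.inr x.1), x.2)) ⬝ᵥ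
        (fun x => v (Sum.inl (Sum.inr x.1), x.2)) +
      (fun x : r × Fin 2 => u (Sum.inr x.1, x.2)) ⬝ᵥ (fun x => v (Sum.inr x.1, x.2)) := by
  simp only [dotProduct, Fintype.sum_prod_type, Fintype.sum_sum_type]

/-- the quadratic form in coordinates -/
theorem qd_eV (D : Matrix r r Λ) (v : ((n ⊕ n) ⊕ r) × Fin 2 → ZMod p) :
    qd ρ (JG (-1) n D) v = 2 * ((eV p n r v).1 ⬝ᵥ (eV p n r v).2.1) + q0 ρ D (eV p n r v).2.2 := by
  obtain ⟨x, hx⟩ : ∃ x, x = fun x : n × Fin 2 => v (Sum.inl (Sum.inl x.1), x.2) := ⟨_, rfl⟩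
  obtain ⟨y, hy⟩ : ∃ y, y = fun x : n × Fin 2 => v (Sum.inl (Sum.inr x.1), x.2) := ⟨_, rfl⟩
  obtain ⟨z, hz⟩ : ∃ z, z = fun x : r × Fin 2 => v (Sum.inr x.1, x.2) := ⟨_, rfl⟩
  have hv : ∀ x, (Phi _ ρ (JG (-1) n D) *ᵥ v) x =
      ∑ j, ∑ b, ρ (JG (-1) n D x.1 j) x.2 b * v (j, b) := fun x => Phi_mulVec ρ _ v x
  have z1 : ∀ i j, JG (-1) n D (Sum.inl (Sum.inl i)) (Sum.inl (Sum.inl j)) = 0 := fun _ _ => rfl
  have z2 : ∀ i j, JG (-1) n D (Sum.inl i) (Sum.inr j) = 0 := fun _ _ => rfl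
  have z3 : ∀ i j, JG (-1) n D (Sum.inl (Sum.inr i)) (Sum.inl (Sum.inr j)) = 0 := fun _ _ => rfl
  have z5 : ∀ i j, JG (-1) n D (Sum.inr i) (Sum.inl j) = 0 := fun _ _ => rfl
  have z6 : ∀ i j, JG (-1) n D (Sum.inl (Sum.inl i)) (Sum.inl (Sum.inr j)) =
      (1 : Matrix n n Λ) i j := fun _ _ => rfl
  have z7 : ∀ i j, JG (-1) n D (Sum.inl (Sum.inr i)) (Sum.inl (Sum.inl j)) =
      (-1 : Matrix n n Λ) i j := fun i j => by
    change ((-1 : ℤ) • (1 : Matrix n n Λ)) i j = _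
    rw [neg_smul, one_smul]
  have e1 : (fun x : n × Fin 2 => (Phi _ ρ (JG (-1) n D) *ᵥ v) (Sum.inl (Sum.inl x.1), x.2)) =
      y := by
    have h1 : Phi n ρ (1 : Matrix n n Λ) *ᵥ y = y := by rw [map_one, Matrix.one_mulVec]
    rw [← h1]
    funext x
    rw [hv, Phi_mulVec, Fintype.sum_sum_type, Fintype.sum_sum_type]
    simp only [z1, z2, z6, map_zero, Matrix.zero_apply, zero_mul, Finset.sum_const_zero, add_zero,
      zero_add, hy]
  have e2 : (fun x : n × Fin 2 => (Phi _ ρ (JG (-1) n D) *ᵥ v) (Sum.inl (Sum.inr x.1), x.2)) =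
      -x := by
    have h1 : Phi n ρ (-1 : Matrix n n Λ) *ᵥ x = -x := by
      rw [map_neg, map_one, Matrix.neg_mulVec, Matrix.one_mulVec]
    rw [← h1]
    funext x
    rw [hv, Phi_mulVec, Fintype.sum_sum_type, Fintype.sum_sum_type]
    simp only [z2, z3, z7, map_zero, Matrix.zero_apply, zero_mul, Finset.sum_const_zero, add_zero,
      hx]
  have e3 : (fun x : r × Fin 2 => (Phi _ ρ (JG (-1) n D) *ᵥ v) (Sum.inr x.1, x.2)) =
      Phi r ρ D *ᵥ z := by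
    funext x
    rw [hv, Phi_mulVec, Fintype.sum_sum_type, Fintype.sum_sum_type]
    simp only [z5, map_zero, Matrix.zero_apply, zero_mul, Finset.sum_const_zero, add_zero,
      zero_add, hz]
    rfl
  have w1 : ∀ u : ((n ⊕ n) ⊕ r) × Fin 2 → ZMod p,
      (fun x : n × Fin 2 => (WW p _ *ᵥ u) (Sum.inl (Sum.inl x.1), x.2)) =
        WW p n *ᵥ (fun x => u (Sum.inl (Sum.inl x.1), x.2)) := by
    intro u
    funext x
    rw [WW_mulVec, WW_mulVec]
  have w2 : ∀ u : ((n ⊕ n) ⊕ r) × Fin 2 → ZMod p,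
      (fun x : n × Fin 2 => (WW p _ *ᵥ u) (Sum.inl (Sum.inr x.1), x.2)) =
        WW p n *ᵥ (fun x => u (Sum.inl (Sum.inr x.1), x.2)) := by
    intro u
    funext x
    rw [WW_mulVec, WW_mulVec]
  have w3 : ∀ u : ((n ⊕ n) ⊕ r) × Fin 2 → ZMod p,
      (fun x : r × Fin 2 => (WW p _ *ᵥ u) (Sum.inr x.1, x.2)) =
        WW p r *ᵥ (fun x => u (Sum.inr x.1, x.2)) := by
    intro u
    funext x
    rw [WW_mulVec, WW_mulVec]
  rw [qd, ← Matrix.mulVec_mulVec, dot_split, w1, w2, w3, e1, e2, e3, eV_apply]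
  change _ = 2 * ((fun x : n × Fin 2 => v (Sum.inl (Sum.inl x.1), x.2)) ⬝ᵥ
    (WW p n *ᵥ fun x => v (Sum.inl (Sum.inr x.1), x.2))) +
      q0 ρ D (fun x => v (Sum.inr x.1, x.2))
  rw [← hx, ← hy, ← hz, q0, Matrix.mulVec_mulVec]
  have h4 : y ⬝ᵥ (WW p n *ᵥ (-x)) = x ⬝ᵥ (WW p n *ᵥ y) := by
    rw [Matrix.dotProduct_mulVec, ← Matrix.mulVec_transpose, WW_transpose, Matrix.neg_mulVec,
      neg_dotProduct_neg, dotProduct_comm]
  rw [h4]
  ring

/-- **the spinor norm of the elements of the Levi subgroup** -/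
theorem theta_lev (hp : p ≠ 2) (hρ : ∀ x, ρ (Star.star x) = (ρ x).adjugate) (D : Matrix r r Λ)
    (a : ZMod p) (ha : a ≠ 0) (A : (Matrix n n Λ)ˣ) (hA : embH r (lev A) ∈ isom (JG (-1) n D)) :
    theta hρ (JG (-1) n D) a ⟨embH r (lev A), hA⟩ =
      chi (ZMod p) (Matrix.GeneralLinearGroup.det (Units.map (Phi n ρ).toMonoidHom A)) := by
  have h2 : (2 : ZMod p) ≠ 0 := by
    intro h
    have h3 : ((2 : ℕ) : ZMod p) = 0 := by exact_mod_cast h
    rw [ZMod.natCast_eq_zero_iff] at h3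
    exact hp ((Nat.prime_dvd_prime_iff_eq Fact.out Nat.prime_two).1 h3)
  rw [← th_eq h2 (q0 ρ D) (q0_neg D) (q0_zero D) a ha]
  refine sign_eq_th (q0 ρ D) a _ _ ((eV p n r).subtypeEquiv
    (p := fun v => qd ρ (JG (-1) n D) v = a)
    (q := fun w => 2 * (w.1 ⬝ᵥ w.2.1) + q0 ρ D w.2.2 = a) fun v => ?_) ?_
  · rw [qd_eV]
  · intro v
    exact eV_lev hρ A v.1

end LeviRep

end BWC.SN
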