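import Pool.Agent.BWD.Spin
import Pool.Agent.BWD.SNAux

/-!
# The elementary group is the kernel of the spinor norms
-/

set_option autoImplicit false
set_option linter.unusedSectionVars false

namespace BWC.SN

open Matrix
open BW hiding star

section One

variable {N : ℕ} {R Λ : Type} [CommRing R] [IsLocalization.Away (N : ℤ) R] [Ring Λ]
  [StarRing Λ] [Algebra R Λ] [Module.Free R Λ] [Module.Finite R Λ]
  {n r : Type*} [DecidableEq n] [Fintype n] [DecidableEq r] [Fintype r]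

/-- unipotent isometries have trivial spinor norm -/
theorem theta_nilp {p : ℕ} [Fact p.Prime] (hp : p ≠ 2) {ρ : Λ →+* Matrix (Fin 2) (Fin 2) (ZMod p)}
    (hρ : ∀ x, ρ (Star.star x) = (ρ x).adjugate) {k : Type*} [DecidableEq k] [Fintype k]
    (G : Matrix k k Λ) (a : ZMod p) (g : isom G) (K : ℕ) (hg : (g.1.val - 1) ^ K = 0) :
    theta hρ G a g = 1 := by
  obtain ⟨j, hj⟩ := unip_pow (Phi k ρ (g.1.val - 1)) K (by rw [← map_pow, hg, map_zero])
  refine theta_unip hp hρ G a g j ?_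
  rw [Units.val_pow_eq_pow_val, map_pow, ← hj, map_sub, map_one, add_sub_cancel]

/-- elementary isometries have trivial spinor norm -/
theorem theta_EG {p : ℕ} [Fact p.Prime] (hp : p ≠ 2) {ρ : Λ →+* Matrix (Fin 2) (Fin 2) (ZMod p)}
    (hρ : ∀ x, ρ (Star.star x) = (ρ x).adjugate) (D : Matrix r r Λ) (a : ZMod p)
    (g : isom (JG (-1) n D)) (hg : g.1 ∈ EG (-1) n D) : theta hρ (JG (-1) n D) a g = 1 := by
  have h1 : EG (-1) n D ≤ ((theta hρ (JG (-1) n D) a).ker).map (isom (JG (-1) n D)).subtype := by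
    refine sup_le ?_ ?_
    · intro x hx
      obtain ⟨K, hK⟩ := U_nilp _ x hx.2
      exact ⟨⟨x, hx.1⟩, theta_nilp hp hρ _ a ⟨x, hx.1⟩ K hK, rfl⟩
    · intro x hx
      obtain ⟨K, hK⟩ := U_nilp _ x hx.2
      exact ⟨⟨x, hx.1⟩, theta_nilp hp hρ _ a ⟨x, hx.1⟩ K hK, rfl⟩
  obtain ⟨y, hy, hyg⟩ := h1 hg
  have : y = g := Subtype.ext hyg
  rw [← this]
  exact hy

/-- if all spinor norms of `lev A` are trivial then the reduced norm of `A` is a square -/
theorem nrd_sq (hN : N ≠ 0) (Q : QAlg N R Λ) (hQ : ∀ x, star x = Q.conj x)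
    (D : Matrix r r Λ) (φ : Fin 2 ↪ n) (A : (Matrix (Fin 2) (Fin 2) Λ)ˣ)
    (hA : embH r (lev (embL φ A)) ∈ isom (JG (-1) n D))
    (h : ∀ (p : ℕ) [Fact p.Prime] (ρ : Λ →+* Matrix (Fin 2) (Fin 2) (ZMod p))
      (hρ : ∀ x, ρ (Star.star x) = (ρ x).adjugate), p ≠ 2 → ¬ p ∣ N →
      theta hρ (JG (-1) n D) 1 ⟨embH r (lev (embL φ A)), hA⟩ = 1) :
    ∃ v w : R, v * w = 1 ∧ nrd2 Q A.val = v ^ 2 := by
  refine square_of_local hN R _ (nrd2_isUnit hN Q A) fun p hp hpN hp2 => ?_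
  have := Fact.mk hp
  obtain ⟨ρ, -, -, -⟩ := Q.fibre p hp hpN
  have hρ : ∀ x, ρ (Star.star x) = (ρ x).adjugate := fun x => by
    rw [hQ, conj_any Q hp hpN]
  have h1 := h p ρ hρ hp2 hpN
  rw [theta_lev hp2 hρ D 1 one_ne_zero] at h1
  by_contra hcon
  have hd : (Matrix.GeneralLinearGroup.det
      (Units.map (Phi n ρ).toMonoidHom (embL φ A))).val = Loc.phi N R hp hpN (nrd2 Q A.val) := by
    change (Phi n ρ (Pool.Agent.Helper24.BWR.emb φ A.val)).det = _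
    rw [det_Phi, nrdAt_emb, nrdAt_eq Q hp hpN]
  have h2 : ¬ IsSquare (Matrix.GeneralLinearGroup.det
      (Units.map (Phi n ρ).toMonoidHom (embL φ A))) := by
    rintro ⟨u, hu⟩
    apply hcon
    rw [← hd, hu]
    exact ⟨u.val, by rw [Units.val_mul]⟩
  have h3 := sign_mulLeft_nonsquare (F := ZMod p) (by rw [ZMod.ringChar_zmod_n]; exact hp2) _ h2
  change Equiv.Perm.sign _ = 1 at h1
  rw [h1] at h3
  exact absurd h3 (by decide)

end One

section Fam

open VD (famM comp_mem_isom mem_isom_of_comp GF_bounded pow_le_sup)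

variable {ι : Type*} {N : ι → ℕ} {R Λ : ι → Type} [∀ i, CommRing (R i)]
  [∀ i, IsLocalization.Away (N i : ℤ) (R i)] [∀ i, Ring (Λ i)] [∀ i, StarRing (Λ i)]
  [∀ i, Algebra (R i) (Λ i)] [∀ i, Module.Free (R i) (Λ i)] [∀ i, Module.Finite (R i) (Λ i)]
  [∀ i, NoZeroDivisors (Λ i)] {r : Type*} [DecidableEq r] [Fintype r]

/-- isometries of a family are elementary times an element of the Levi subgroup -/
theorem fam_decomp (hN : ∀ i, N i ≠ 0) (Q : ∀ i, QAlg (N i) (R i) (Λ i))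
    (hQ : ∀ i x, star x = (Q i).conj x) (m : ℕ) (hm : 3 ≤ m) {A D D' : ∀ i, Matrix r r (Λ i)}
    (hD : ∀ i, D i = A i + (-1 : ℤ) • (A i)ᴴ) (hDD : ∀ i, D i * D' i = 1)
    (hDD' : ∀ i, D' i * D i = 1)
    (g : (Matrix ((Fin m ⊕ Fin m) ⊕ r) ((Fin m ⊕ Fin m) ⊕ r) (∀ i, Λ i))ˣ)
    (hg : g ∈ isom (JG (-1) (Fin m) (famM D))) :
    ∃ φ : Fin 2 ↪ Fin m, ∃ e ∈ EG (-1) (Fin m) (famM D),
      ∃ A' : (Matrix (Fin 2) (Fin 2) (∀ i, Λ i))ˣ, g = e * embH r (lev (embL φ A')) := by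
  have hε : (-1 : ℤ) * (-1) = 1 := by norm_num
  have hn : 2 ≤ Fintype.card (Fin m) := by simp; omega
  have hD1A : famM D = famM A + (-1 : ℤ) • (famM A)ᴴ := by
    ext a b i
    exact congrFun (congrFun (hD i) a) b
  have hD1D : famM D * famM D' = 1 := by
    ext a b i
    rw [Matrix.mul_apply, Finset.sum_apply]
    refine Eq.trans ?_ (Eq.trans (congrFun (congrFun (hDD i) a) b) ?_)
    · rw [Matrix.mul_apply]; rfl
    · rw [Matrix.one_apply, Matrix.one_apply]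
      split_ifs <;> rfl
  have hD1D' : famM D' * famM D = 1 := by
    ext a b i
    rw [Matrix.mul_apply, Finset.sum_apply]
    refine Eq.trans ?_ (Eq.trans (congrFun (congrFun (hDD' i) a) b) ?_)
    · rw [Matrix.mul_apply]; rfl
    · rw [Matrix.one_apply, Matrix.one_apply]
      split_ifs <;> rfl
  generalize famM D = D1 at hg hD1A hD1D hD1D' ⊢
  have hR : Reach (-1) (Fin m) D1 := fun a c x w z t h =>
    reachGD (N := N) (R := R) (Λ := Λ) hn hN Q hQ hD1A a c x w z t h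
  obtain ⟨e0, he0, g0, hg0, h0⟩ := remove_V hε hD1A hD1D hD1D' hR g hg
  obtain ⟨φ, e, he, A', hgA⟩ := redD' (N := N) (R := R) (Λ := Λ) hN Q hQ m hm g0 hg0
  refine ⟨φ, e0⁻¹ * embH r e, mul_mem (inv_mem he0) (embH_mem_EG hε he), A', ?_⟩
  have : g = e0⁻¹ * embH r g0 := by rw [← h0]; group
  rw [this, hgA, map_mul, mul_assoc]

theorem comp_embH_lev' {n : Type*} [DecidableEq n] [Fintype n] (i : ι) (φ : Fin 2 ↪ n)
    (C : (Matrix (Fin 2) (Fin 2) (∀ i, Λ i))ˣ) :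
    comp i (embH r (lev (embL φ C))) = embH r (lev (embL φ (comp i C))) := by
  have h1 : comp i (lev (embL φ C)) = lev (embL φ (comp i C)) := by
    rw [comp_lev]
    congr 1
    ext1
    change (Pool.Agent.Helper24.BWR.emb φ C.val).map (Pi.evalRingHom Λ i) =
      Pool.Agent.Helper24.BWR.emb φ (C.val.map (Pi.evalRingHom Λ i))
    exact emb_map φ (Pi.evalRingHom Λ i) C.val
  rw [← h1]
  ext1
  change (Matrix.fromBlocks (lev (embL φ C)).val 0 0 1).map (Pi.evalRingHom Λ i) =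
    Matrix.fromBlocks ((lev (embL φ C)).val.map (Pi.evalRingHom Λ i)) 0 0 1
  rw [Matrix.fromBlocks_map]
  congr 1
  exact Matrix.map_one _ rfl rfl

theorem comp_mem_EG {n : Type*} [DecidableEq n] [Fintype n] (D : ∀ i, Matrix r r (Λ i)) (i : ι)
    {x : (Matrix ((n ⊕ n) ⊕ r) ((n ⊕ n) ⊕ r) (∀ i, Λ i))ˣ} (hx : x ∈ EG (-1) n (famM D)) :
    comp i x ∈ EG (-1) n (D i) := by
  rw [EG, UPG_eq, UMG_eq] at hx
  have he2 : x ∈ GF (-1) (fun _ => -1) (famM D) := hx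
  obtain ⟨L, hL⟩ := GF_bounded D _ he2
  have h3 := pow_le_sup _ _ L (hL i)
  rw [EG, UPG_eq, UMG_eq]
  exact h3

/-- **the elementary group over a product of algebras is the product of the elementary groups** -/
theorem mem_EG_of_theta (hN : ∀ i, N i ≠ 0) (Q : ∀ i, QAlg (N i) (R i) (Λ i))
    (hQ : ∀ i x, star x = (Q i).conj x) (m : ℕ) (hm : 3 ≤ m) {A D D' : ∀ i, Matrix r r (Λ i)}
    (hD : ∀ i, D i = A i + (-1 : ℤ) • (A i)ᴴ) (hDD : ∀ i, D i * D' i = 1)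
    (hDD' : ∀ i, D' i * D i = 1)
    (g : (Matrix ((Fin m ⊕ Fin m) ⊕ r) ((Fin m ⊕ Fin m) ⊕ r) (∀ i, Λ i))ˣ)
    (hg : ∀ i, comp i g ∈ isom (JG (-1) (Fin m) (D i)))
    (h : ∀ i (p : ℕ) [Fact p.Prime] (ρ : Λ i →+* Matrix (Fin 2) (Fin 2) (ZMod p))
      (hρ : ∀ x, ρ (Star.star x) = (ρ x).adjugate), p ≠ 2 → ¬ p ∣ N i →
      theta hρ (JG (-1) (Fin m) (D i)) 1 ⟨comp i g, hg i⟩ = 1) :
    g ∈ EG (-1) (Fin m) (famM D) := by
  have hε : (-1 : ℤ) * (-1) = 1 := by norm_num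
  have hn : 3 ≤ Fintype.card (Fin m) := by simpa using hm
  obtain ⟨φ, e, he, A', hgA⟩ := fam_decomp hN Q hQ m hm hD hDD hDD' g
    (mem_isom_of_comp D hg)
  have hsq : ∀ i, ∃ v w : R i, v * w = 1 ∧ nrd2 (Q i) (comp i A').val = v ^ 2 := by
    intro i
    have hi : comp i g = comp i e * embH r (lev (embL φ (comp i A'))) := by
      rw [← comp_embH_lev', ← map_mul, ← hgA]
    have he' : comp i e ∈ EG (-1) (Fin m) (D i) := comp_mem_EG D i he
    have he'' := EG_le (-1) (Fin m) (D i) he'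
    have hl : embH r (lev (embL φ (comp i A'))) ∈ isom (JG (-1) (Fin m) (D i)) :=
      embH_memG (lev_mem_UG _)
    refine nrd_sq (hN i) (Q i) (hQ i) (D i) φ (comp i A') hl ?_
    intro p _ ρ hρ hp2 hpN
    have h1 := h i p ρ hρ hp2 hpN
    have h2 : (⟨comp i g, hg i⟩ : isom (JG (-1) (Fin m) (D i))) =
        ⟨comp i e, he''⟩ * ⟨embH r (lev (embL φ (comp i A'))), hl⟩ := Subtype.ext hi
    rw [h2, map_mul, theta_EG hp2 hρ (D i) 1 ⟨comp i e, he''⟩ he', one_mul] at h1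
    exact h1
  choose v w hvw hv using hsq
  have h3 := lev_sq_mem hN Q hQ hn φ A' v w (funext hvw) hv
  rw [hgA]
  exact mul_mem he (embH_mem_EG hε h3)

end Fam

end BWC.SN
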