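import Pool.Agent.BWC.KStab
import Pool.Agent.BWC.Parab
import Pool.Agent.BWD.ReachG
import Pool.Agent.BWD.Main

/-!
# Bounded width, type `D`: the forms `H^m ⊥ V₀` and all standard parabolic subgroups
-/

set_option linter.unusedSectionVars false

namespace BWC.VD

open Matrix
open BW hiding star

section Groups

open Pointwise

variable {G : Type*} [Group G]

theorem one_mem_AB (A B : Subgroup G) : (1 : G) ∈ (A : Set G) * (B : Set G) :=
  ⟨1, one_mem A, 1, one_mem B, mul_one 1⟩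

theorem pow_le_sup (A B : Subgroup G) (L : ℕ) :
    ((A : Set G) * (B : Set G)) ^ L ⊆ ((A ⊔ B : Subgroup G) : Set G) := by
  induction L with
  | zero =>
    intro g hg
    rw [pow_zero, Set.mem_one] at hg
    rw [hg]
    exact one_mem _
  | succ K ih =>
    intro g hg
    rw [pow_succ] at hg
    obtain ⟨a, ha, b, ⟨u, hu, v, hv, rfl⟩, rfl⟩ := hg
    exact mul_mem (ih ha) (mul_mem (Subgroup.mem_sup_left hu) (Subgroup.mem_sup_right hv))

/-- elements of `A ⊔ B` are products -/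
theorem mem_sup_pow (A B : Subgroup G) {x : G} (hx : x ∈ A ⊔ B) :
    ∃ L : ℕ, x ∈ ((A : Set G) * (B : Set G)) ^ L := by
  have h1 := one_mem_AB A B
  rw [Subgroup.sup_eq_closure] at hx
  induction hx using Subgroup.closure_induction_right with
  | one => exact ⟨0, by rw [pow_zero]; exact Set.mem_one.2 rfl⟩
  | mul_right x _ y hy ih =>
    obtain ⟨L, hL⟩ := ih
    refine ⟨L + 1, ?_⟩
    rw [pow_succ]
    refine Set.mul_mem_mul hL ?_
    rcases hy with hy | hy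
    · exact ⟨y, hy, 1, one_mem B, mul_one y⟩
    · exact ⟨1, one_mem A, y, hy, one_mul y⟩
  | mul_inv_cancel x _ y hy ih =>
    obtain ⟨L, hL⟩ := ih
    refine ⟨L + 1, ?_⟩
    rw [pow_succ]
    refine Set.mul_mem_mul hL ?_
    rcases hy with hy | hy
    · exact ⟨y⁻¹, inv_mem hy, 1, one_mem B, mul_one _⟩
    · exact ⟨1, one_mem A, y⁻¹, inv_mem hy, one_mul _⟩

theorem pow_mono_AB (A B : Subgroup G) {K L : ℕ} (h : K ≤ L) :
    ((A : Set G) * (B : Set G)) ^ K ⊆ ((A : Set G) * (B : Set G)) ^ L :=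
  Set.pow_subset_pow_right (one_mem_AB A B) h

end Groups

section Fam

open Pointwise

variable {ι : Type*} {Λ : ι → Type*} [∀ i, Ring (Λ i)] [∀ i, StarRing (Λ i)] {ε : ℤ}
  {n r : Type*} [DecidableEq n] [Fintype n] [DecidableEq r] [Fintype r]

/-- the matrix over the product ring with given components -/
def famM {k : Type*} (D : ∀ i, Matrix k k (Λ i)) : Matrix k k (∀ i, Λ i) :=
  Matrix.of fun a b i => D i a b

theorem map_famM {k : Type*} (D : ∀ i, Matrix k k (Λ i)) (i : ι) :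
    (famM D).map (Pi.evalRingHom Λ i) = D i := rfl

theorem map_JG (D : ∀ i, Matrix r r (Λ i)) (i : ι) :
    (JG ε n (famM D)).map (Pi.evalRingHom Λ i) = JG ε n (D i) := by
  rw [JG, JG, Matrix.fromBlocks_map, map_J, map_famM]
  congr 1

theorem comp_mem_isom (D : ∀ i, Matrix r r (Λ i)) (i : ι)
    {g : (Matrix ((n ⊕ n) ⊕ r) ((n ⊕ n) ⊕ r) (∀ i, Λ i))ˣ} (hg : g ∈ isom (JG ε n (famM D))) :
    comp i g ∈ isom (JG ε n (D i)) := by
  have hg' : g.valᴴ * JG ε n (famM D) * g.val = JG ε n (famM D) := hg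
  change (g.val.map (Pi.evalRingHom Λ i))ᴴ * JG ε n (D i) * g.val.map (Pi.evalRingHom Λ i) =
    JG ε n (D i)
  have h1 : (g.val.map (Pi.evalRingHom Λ i))ᴴ = g.valᴴ.map (Pi.evalRingHom Λ i) := rfl
  rw [h1, ← map_JG D i, ← Matrix.map_mul, ← Matrix.map_mul, hg']

theorem mem_isom_of_comp (D : ∀ i, Matrix r r (Λ i))
    {g : (Matrix ((n ⊕ n) ⊕ r) ((n ⊕ n) ⊕ r) (∀ i, Λ i))ˣ}
    (hg : ∀ i, comp i g ∈ isom (JG ε n (D i))) : g ∈ isom (JG ε n (famM D)) := by
  change g.valᴴ * JG ε n (famM D) * g.val = JG ε n (famM D)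
  ext a b i
  have h1 : (comp i g).valᴴ * JG ε n (D i) * (comp i g).val = JG ε n (D i) := hg i
  have h2 := congrFun (congrFun h1 a) b
  rw [← map_JG D i] at h2
  have h3 : (comp i g).valᴴ = g.valᴴ.map (Pi.evalRingHom Λ i) := rfl
  have h4 : (comp i g).val = g.val.map (Pi.evalRingHom Λ i) := rfl
  rw [h3, h4, ← Matrix.map_mul, ← Matrix.map_mul] at h2
  exact h2

theorem comp_mem_U {k : Type*} [DecidableEq k] [Fintype k] (f : k → ℤ) (i : ι)
    {g : (Matrix k k (∀ i, Λ i))ˣ} (hg : g ∈ U f) : comp i g ∈ U f := by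
  intro a b hab
  have h := congrFun (hg a b hab) i
  refine Eq.trans h ?_
  rw [Matrix.one_apply, Matrix.one_apply]
  split_ifs <;> rfl

theorem mem_U_of_comp {k : Type*} [DecidableEq k] [Fintype k] (f : k → ℤ)
    {g : (Matrix k k (∀ i, Λ i))ˣ} (hg : ∀ i, comp i g ∈ U f) : g ∈ U f := by
  intro a b hab
  funext i
  have h := hg i a b hab
  refine Eq.trans h ?_
  rw [Matrix.one_apply, Matrix.one_apply]
  split_ifs <;> rfl

theorem comp_mem_UF (D : ∀ i, Matrix r r (Λ i)) (f : n → ℤ) (i : ι)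
    {g : (Matrix ((n ⊕ n) ⊕ r) ((n ⊕ n) ⊕ r) (∀ i, Λ i))ˣ} (hg : g ∈ UF ε f (famM D)) :
    comp i g ∈ UF ε f (D i) :=
  ⟨comp_mem_isom D i hg.1, comp_mem_U _ i hg.2⟩

theorem mem_UF_of_comp (D : ∀ i, Matrix r r (Λ i)) (f : n → ℤ)
    {g : (Matrix ((n ⊕ n) ⊕ r) ((n ⊕ n) ⊕ r) (∀ i, Λ i))ˣ} (hg : ∀ i, comp i g ∈ UF ε f (D i)) :
    g ∈ UF ε f (famM D) :=
  ⟨mem_isom_of_comp D fun i => (hg i).1, mem_U_of_comp _ fun i => (hg i).2⟩

/-- elements of the elementary group over the product have bounded components -/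
theorem GF_bounded (D : ∀ i, Matrix r r (Λ i)) (f : n → ℤ)
    {x : (Matrix ((n ⊕ n) ⊕ r) ((n ⊕ n) ⊕ r) (∀ i, Λ i))ˣ} (hx : x ∈ GF ε f (famM D)) :
    ∃ L : ℕ, ∀ i, comp i x ∈ ((UF ε f (D i) : Set (Matrix ((n ⊕ n) ⊕ r) ((n ⊕ n) ⊕ r) (Λ i))ˣ) *
      (UF ε (-f) (D i) : Set (Matrix ((n ⊕ n) ⊕ r) ((n ⊕ n) ⊕ r) (Λ i))ˣ)) ^ L := by
  obtain ⟨L, hL⟩ := mem_sup_pow _ _ hx
  refine ⟨L, fun i => ?_⟩
  clear hx
  induction L generalizing x with
  | zero =>
    rw [pow_zero, Set.mem_one] at hL ⊢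
    rw [hL, map_one]
  | succ K ih =>
    rw [pow_succ] at hL ⊢
    obtain ⟨a, ha, b, ⟨u, hu, v, hv, rfl⟩, rfl⟩ := hL
    rw [map_mul]
    refine Set.mul_mem_mul (ih ha) ?_
    rw [map_mul]
    exact Set.mul_mem_mul (comp_mem_UF D f i hu) (comp_mem_UF D (-f) i hv)

/-- families of bounded length are elementary over the product -/
theorem GF_of_bounded (D : ∀ i, Matrix r r (Λ i)) (f : n → ℤ) (L : ℕ) :
    ∀ (x : (Matrix ((n ⊕ n) ⊕ r) ((n ⊕ n) ⊕ r) (∀ i, Λ i))ˣ),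
    (∀ i, comp i x ∈ ((UF ε f (D i) : Set (Matrix ((n ⊕ n) ⊕ r) ((n ⊕ n) ⊕ r) (Λ i))ˣ) *
      (UF ε (-f) (D i) : Set (Matrix ((n ⊕ n) ⊕ r) ((n ⊕ n) ⊕ r) (Λ i))ˣ)) ^ L) →
    x ∈ GF ε f (famM D) := by
  induction L with
  | zero =>
    intro x hx
    have : x = 1 := ext_comp fun i => by
      have := hx i
      rw [pow_zero, Set.mem_one] at this
      rw [this, map_one]
    rw [this]
    exact one_mem _
  | succ K ih =>
    intro x hx
    simp only [pow_succ] at hx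
    choose a ha b hb hab using hx
    choose u hu v hv huv using hb
    have e : x = famU a * (famU u * famU v) := ext_comp fun i => by
      rw [map_mul, map_mul, comp_famU, comp_famU, comp_famU]
      exact (hab i).symm.trans (congrArg (a i * ·) (huv i).symm)
    rw [e]
    refine mul_mem (ih _ fun i => by rw [comp_famU]; exact ha i) (mul_mem ?_ ?_)
    · exact Subgroup.mem_sup_left (mem_UF_of_comp D f fun i => by rw [comp_famU]; exact hu i)
    · exact Subgroup.mem_sup_right (mem_UF_of_comp D (-f) fun i => by rw [comp_famU]; exact hv i)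

/-- a family with finitely many values which are elementary -/
theorem GF_finite {P : Type*} [Ring P] [StarRing P] (D : Matrix r r P) (f : n → ℤ)
    (x : ι → (Matrix ((n ⊕ n) ⊕ r) ((n ⊕ n) ⊕ r) P)ˣ) (hx : ∀ i, x i ∈ GF ε f D)
    (hfin : (Set.range x).Finite) :
    famU (Λ := fun _ : ι => P) x ∈ GF ε f (famM (Λ := fun _ : ι => P) fun _ => D) := by
  choose! K hK using fun (z : (Matrix ((n ⊕ n) ⊕ r) ((n ⊕ n) ⊕ r) P)ˣ) (hz : z ∈ GF ε f D) =>
    mem_sup_pow _ _ hz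
  obtain ⟨B, hB⟩ := (hfin.image K).bddAbove
  refine GF_of_bounded (Λ := fun _ : ι => P) (fun _ => D) f B _ fun i => ?_
  rw [comp_famU]
  exact pow_mono_AB _ _ (hB ⟨x i, ⟨i, rfl⟩, rfl⟩) (hK (x i) (hx i))

end Fam

section Const

variable {ι : Type*} {N : ℕ} {R Λ : Type} [CommRing R] [IsLocalization.Away (N : ℤ) R] [Ring Λ]
  [StarRing Λ] [Algebra R Λ] [Module.Free R Λ] [Module.Finite R Λ] [NoZeroDivisors Λ]
  {r : Type*} [DecidableEq r] [Fintype r]

/-- a family of elementary isometries is elementary over the product -/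
theorem family_mem_V (hN : N ≠ 0) (Q : QAlg N R Λ) (hQ : ∀ x, star x = Q.conj x)
    (m : ℕ) (hm : 3 ≤ m) {A D D' : Matrix r r Λ} (hD : D = A + (-1 : ℤ) • Aᴴ)
    (hDD : D * D' = 1) (hDD' : D' * D = 1) {f : Fin m → ℤ} (hf : f ≠ 0)
    (x : ι → (Matrix ((Fin m ⊕ Fin m) ⊕ r) ((Fin m ⊕ Fin m) ⊕ r) Λ)ˣ)
    (hx : ∀ i, x i ∈ GF (-1) f D) :
    famU (Λ := fun _ : ι => Λ) x ∈ GF (-1) f (famM (Λ := fun _ : ι => Λ) fun _ => D) := by
  have hε : (-1 : ℤ) * (-1) = 1 := by norm_num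
  have hn : 3 ≤ Fintype.card (Fin m) := by simpa using hm
  obtain ⟨g, hg⟩ : ∃ g, g = famU (Λ := fun _ : ι => Λ) x := ⟨_, rfl⟩
  have hgx : ∀ i, comp (Λ := fun _ : ι => Λ) i g = x i := fun i => by rw [hg, comp_famU]
  rw [← hg]
  obtain ⟨D1, hD1⟩ : ∃ D1, D1 = famM (Λ := fun _ : ι => Λ) fun _ => D := ⟨_, rfl⟩
  have hgU : g ∈ isom (JG (-1) (Fin m) D1) := by
    rw [hD1]
    exact mem_isom_of_comp (Λ := fun _ : ι => Λ) (fun _ => D) fun i => by
      rw [hgx]; exact GF_le _ _ _ (hx i)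
  have hD1A : D1 = famM (Λ := fun _ : ι => Λ) (fun _ => A) +
      (-1 : ℤ) • (famM (Λ := fun _ : ι => Λ) (fun _ => A))ᴴ := by
    rw [hD1]
    ext a b i
    exact congrFun (congrFun hD a) b
  have hD1D : D1 * famM (Λ := fun _ : ι => Λ) (fun _ => D') = 1 := by
    rw [hD1]
    ext a b i
    rw [Matrix.mul_apply, Finset.sum_apply]
    refine Eq.trans ?_ (Eq.trans (congrFun (congrFun hDD a) b) ?_)
    · rw [Matrix.mul_apply]; rfl
    · rw [Matrix.one_apply, Matrix.one_apply]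
      split_ifs <;> rfl
  have hD1D' : famM (Λ := fun _ : ι => Λ) (fun _ => D') * D1 = 1 := by
    rw [hD1]
    ext a b i
    rw [Matrix.mul_apply, Finset.sum_apply]
    refine Eq.trans ?_ (Eq.trans (congrFun (congrFun hDD' a) b) ?_)
    · rw [Matrix.mul_apply]; rfl
    · rw [Matrix.one_apply, Matrix.one_apply]
      split_ifs <;> rfl
  have hR : Reach (-1) (Fin m) D1 := fun a c x w z t h =>
    reachGD (N := fun _ : ι => N) (R := fun _ : ι => R) (Λ := fun _ : ι => Λ)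
      (by simp; omega) (fun _ => hN) (fun _ => Q) (fun _ => hQ) hD1A a c x w z t h
  obtain ⟨e0, he0, g0, hg0, h0⟩ := remove_V hε hD1A hD1D hD1D' hR g hgU
  obtain ⟨φ, e, he, A', hgA⟩ := redD' (N := fun _ : ι => N) (R := fun _ : ι => R)
    (Λ := fun _ : ι => Λ) (fun _ => hN) (fun _ => Q) (fun _ => hQ) m hm g0 hg0
  have hEG : GF (-1) f D1 = EG (-1) (Fin m) D1 := GF_eq_EG hε hn hD1A hf
  have hEG0 : GF (-1) f D = EG (-1) (Fin m) D := GF_eq_EG hε hn hD hf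
  have hgE : ∃ e1 ∈ GF (-1) f D1, g = e1 * embH r (lev (embL φ A')) := by
    refine ⟨e0⁻¹ * embH r e, ?_, ?_⟩
    · rw [hEG]
      exact mul_mem (inv_mem he0) (embH_mem_EG hε he)
    · have : g = e0⁻¹ * embH r g0 := by rw [← h0]; group
      rw [this, hgA, map_mul, mul_assoc]
  obtain ⟨e1, he1, hge⟩ := hgE
  obtain ⟨j, hj, hjA⟩ := lev_finite hN Q hQ hn φ
    (fun i : ι => comp (Λ := fun _ : ι => Λ) i A')
  have hA : famU (Λ := fun _ : ι => Λ) (fun i : ι => comp (Λ := fun _ : ι => Λ) i A') = A' := by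
    ext1; rfl
  rw [hA] at hjA
  obtain ⟨B, hB⟩ : ∃ B, B = famU (Λ := fun _ : ι => Λ)
    (fun i : ι => comp (Λ := fun _ : ι => Λ) (j i) A') := ⟨_, rfl⟩
  rw [← hB] at hjA
  have hjA1 : embH r (lev (embL φ A')) * (embH r (lev (embL φ B)))⁻¹ ∈ GF (-1) f D1 := by
    rw [hEG, ← map_inv, ← map_mul]
    exact embH_mem_EG hε hjA
  have hcl : ∀ (C : (Matrix (Fin 2) (Fin 2) (ι → Λ))ˣ) (i : ι),
      comp (Λ := fun _ : ι => Λ) i (embH r (lev (embL φ C))) =
        embH r (lev (embL φ (comp (Λ := fun _ : ι => Λ) i C))) := by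
    intro C i
    have h1 : comp (Λ := fun _ : ι => Λ) i (lev (embL φ C)) =
        lev (embL φ (comp (Λ := fun _ : ι => Λ) i C)) := by
      rw [comp_lev]
      congr 1
      ext1
      change (Pool.Agent.Helper24.BWR.emb φ C.val).map (Pi.evalRingHom (fun _ : ι => Λ) i) =
        Pool.Agent.Helper24.BWR.emb φ (C.val.map (Pi.evalRingHom (fun _ : ι => Λ) i))
      exact emb_map φ (Pi.evalRingHom (fun _ : ι => Λ) i) C.val
    rw [← h1]
    ext1
    change (Matrix.fromBlocks (lev (embL φ C)).val 0 0 1).map (Pi.evalRingHom (fun _ : ι => Λ) i) =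
      Matrix.fromBlocks ((lev (embL φ C)).val.map (Pi.evalRingHom (fun _ : ι => Λ) i)) 0 0 1
    rw [Matrix.fromBlocks_map]
    congr 1
    exact Matrix.map_one _ rfl rfl
  have hlev : ∀ i, embH r (lev (embL φ (comp (Λ := fun _ : ι => Λ) i A'))) ∈ GF (-1) f D := by
    intro i
    have h1 := congrArg (comp (Λ := fun _ : ι => Λ) i) hge
    rw [map_mul, hgx, hcl] at h1
    have h2 : comp (Λ := fun _ : ι => Λ) i e1 ∈ GF (-1) f D := by
      rw [hD1] at he1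
      obtain ⟨L, hL⟩ := GF_bounded (Λ := fun _ : ι => Λ) (fun _ => D) f he1
      exact pow_le_sup _ _ L (hL i)
    have h3 := hx i
    rw [h1] at h3
    exact (Subgroup.mul_mem_cancel_left _ h2).1 h3
  have hBm := GF_finite (ε := -1) D f
    (fun i => embH r (lev (embL φ (comp (Λ := fun _ : ι => Λ) (j i) A')))) (fun i => hlev (j i)) (by
      refine (hj.image fun k => embH r (lev (embL φ (comp (Λ := fun _ : ι => Λ) k A')))).subset ?_
      rintro _ ⟨i, rfl⟩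
      exact ⟨j i, ⟨i, rfl⟩, rfl⟩)
  have hyB : famU (Λ := fun _ : ι => Λ)
      (fun i => embH r (lev (embL φ (comp (Λ := fun _ : ι => Λ) (j i) A')))) =
        embH r (lev (embL φ B)) := by
    refine ext_comp fun i => ?_
    rw [comp_famU, hcl, hB, comp_famU]
  rw [hyB, ← hD1] at hBm
  rw [hge, ← hD1]
  exact mul_mem he1 ((Subgroup.mul_mem_cancel_right _ (inv_mem hBm)).1 hjA1)

end Const

open Pointwise in
/-- **type `D`**: bounded width of the elementary subgroup with respect to every pair of opposite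
standard parabolic subgroups -/
theorem mainDV (m : ℕ) (hm : 3 ≤ m) (r : Type) [DecidableEq r] [Fintype r] (N : ℕ) (hN : N ≠ 0)
    (R Λ : Type) [CommRing R]
    [IsLocalization.Away (N : ℤ) R] [Ring Λ] [NoZeroDivisors Λ] [StarRing Λ] [Algebra R Λ]
    (haz : IsQuaternionAzumaya N R Λ) (hst : ∀ x : Λ, ∃ t : R, x + star x = algebraMap R Λ t)
    (A : Matrix r r Λ) (hD : IsUnit (A - Aᴴ)) (f : Fin m → ℤ) (hf : f ≠ 0) :
    ∃ L : ℕ, ((UF (-1) f (A - Aᴴ) : Set (Matrix ((Fin m ⊕ Fin m) ⊕ r) ((Fin m ⊕ Fin m) ⊕ r) Λ)ˣ) *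
        (UF (-1) (-f) (A - Aᴴ) : Set (Matrix ((Fin m ⊕ Fin m) ⊕ r) ((Fin m ⊕ Fin m) ⊕ r) Λ)ˣ)) ^ L =
      (GF (-1) f (A - Aᴴ) : Set (Matrix ((Fin m ⊕ Fin m) ⊕ r) ((Fin m ⊕ Fin m) ⊕ r) Λ)ˣ) := by
  have := haz.free
  have := haz.finite hN
  obtain ⟨Q⟩ := haz.qalg hN
  have hQ : ∀ x : Λ, star x = Q.conj x := star_eq_conj hN Q hst
  have hD1 : A - Aᴴ = A + (-1 : ℤ) • Aᴴ := by rw [neg_smul, one_smul, sub_eq_add_neg]
  generalize hD2 : A - Aᴴ = D at hD hD1
  obtain ⟨u, rfl⟩ := hD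
  have h1 := family_mem_V (ι := {x // x ∈ GF (-1) f u.val}) hN Q hQ m hm hD1 u.mul_inv u.inv_mul
    hf (fun i => i.1) (fun i => i.2)
  obtain ⟨L, hL⟩ := GF_bounded (Λ := fun _ : {x // x ∈ GF (-1) f u.val} => Λ)
    (fun _ => u.val) f h1
  refine ⟨L, Set.Subset.antisymm (pow_le_sup _ _ L) fun g hg => ?_⟩
  have h3 := hL ⟨g, hg⟩
  rw [comp_famU] at h3
  exact h3

end BWC.VD
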